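import Pool.Agent.Work.MP_cb380d_ro.Interface

/-! # Block BCA (helper43) -/

set_option autoImplicit false

open MeasureTheory Classical Finset
open scoped ENNReal

namespace Pool.RO

open Pool.IC

theorem BCA_ns_pos (K j : ℕ) : 0 < ns K j := by
  unfold ns
  positivity

theorem BCA_ns_succ (K j : ℕ) : ns K (j + 1) = ns K j ^ K := by
  unfold ns
  rw [pow_succ, pow_mul]

theorem BCA_ns_mono (K : ℕ) (hK : 2 ≤ K) {i j : ℕ} (h : i ≤ j) : ns K i ≤ ns K j := by
  unfold ns
  exact Nat.pow_le_pow_right (by norm_num) (Nat.pow_le_pow_right (by omega) h)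

theorem BCA_ns_ge (K : ℕ) (hK : 2 ≤ K) (j : ℕ) : j ≤ ns K j := by
  unfold ns
  have h1 : j < K ^ j := Nat.lt_pow_self (by omega)
  have h2 : K ^ j < 2 ^ K ^ j := Nat.lt_pow_self (by norm_num)
  omega

theorem BCA_short {L L' : ℕ} (h : L ≤ L') {A : Set Om} (hA : FD (short L) A) :
    FD (short L') A := by
  intro w w' hw
  refine hA w w' (fun a ha => hw a ?_)
  rw [mem_short] at ha ⊢
  omega

/-- The condition for a stage implies the hypotheses on the sizes. -/
theorem BCA_cond {p q r : Polynomial ℕ} {K n : ℕ} (h : Cond p q r K n) :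
    6 * bb p n + 9 ≤ n ^ K := by
  obtain ⟨h1, h2, -, -⟩ := h
  have : 6 * n ≤ bb p n := by
    unfold bb
    omega
  omega

/-- the event: no mistake at the stages from `J` to `j` -/
def BCA_E (M : Cmd) (p : Polynomial ℕ) (V : Cmd) (q r : Polynomial ℕ) (K J j : ℕ) : Set Om :=
  {w | ∀ i, J ≤ i → i < j → w ∉ CC M p V q r (ns K (i + 1)) (bb p (ns K i))}

theorem p_BCA (h1 : Stmt_MEA) (h2 : Stmt_FDE) (h3 : Stmt_STG) : Stmt_BCA := by
  intro M p V q r K n₀ hK hc
  rw [ae_all_iff]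
  intro J
  by_cases hJ : n₀ ≤ ns K J
  swap
  · exact Filter.Eventually.of_forall (fun w h => absurd h hJ)
  have hge : ∀ j, J ≤ j → n₀ ≤ ns K j := fun j hj => hJ.trans (BCA_ns_mono K hK hj)
  -- the events depend on finitely many coordinates
  have hCC : ∀ i, J ≤ i → ∀ L, ns K (i + 2) ≤ L →
      FD (short L) (CC M p V q r (ns K (i + 1)) (bb p (ns K i))) := by
    intro i hi L hL
    have c1 := hc (ns K i) (hge i hi)
    have c2 := hc (ns K (i + 1)) (hge (i + 1) (by omega))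
    have d1 := BCA_cond c1
    obtain ⟨-, -, e1, -⟩ := c1
    obtain ⟨-, f1, -, -⟩ := c2
    rw [← BCA_ns_succ] at d1 e1 f1
    have m1 : ns K (i + 1) ≤ ns K (i + 2) := BCA_ns_mono K hK (by omega)
    have m2 : ns K (i + 1 + 1) = ns K (i + 2) := rfl
    have f2 : bb p (ns K (i + 1)) ≤ L := by omega
    exact (h2 M p V q r (ns K (i + 1)) (bb p (ns K i)) 0 L d1 (by omega)
      (by unfold bb at f2; exact f2)).2.2.1
  have hE : ∀ j, J ≤ j → FD (short (ns K (j + 1))) (BCA_E M p V q r K J j) := by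
    intro j hj w w' hw
    unfold BCA_E
    show (∀ i, J ≤ i → i < j → w ∉ CC M p V q r (ns K (i + 1)) (bb p (ns K i))) ↔
      ∀ i, J ≤ i → i < j → w' ∉ CC M p V q r (ns K (i + 1)) (bb p (ns K i))
    refine forall_congr' (fun i => forall_congr' (fun hi => forall_congr' (fun hij => ?_)))
    exact not_congr (hCC i hi _ (BCA_ns_mono K hK (by omega)) w w' hw)
  -- the stages
  have hst : ∀ j, J ≤ j →
      coin (BCA_E M p V q r K J j ∩ Fb M p (ns K (j + 1)) (ns K (j + 2)) (bb p (ns K j))) ≤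
      3 * coin (BCA_E M p V q r K J j ∩ CC M p V q r (ns K (j + 1)) (bb p (ns K j))) +
        2 * (2⁻¹ : ℝ≥0∞) ^ j := by
    intro j hj
    have c1 := hc (ns K j) (hge j hj)
    have c2 := hc (ns K (j + 1)) (hge (j + 1) (by omega))
    have h4 := h3 M p V q r K (ns K j) (BCA_E M p V q r K J j) c1
      (by rw [← BCA_ns_succ]; exact c2) (by rw [← BCA_ns_succ]; exact hE j hj)
    rw [← BCA_ns_succ, ← BCA_ns_succ] at h4
    refine h4.trans ?_
    have h5 : j ≤ bb p (ns K j) := by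
      have := BCA_ns_ge K hK j
      unfold bb
      omega
    have h6 : (2⁻¹ : ℝ≥0∞) ^ bb p (ns K j) ≤ (2⁻¹ : ℝ≥0∞) ^ j :=
      pow_le_pow_right_of_le_one' (ENNReal.inv_le_one.2 (by norm_num)) h5
    gcongr
  -- the mistakes
  have hdis : Pairwise (Function.onFun Disjoint (fun j : ℕ =>
      BCA_E M p V q r K J (J + j) ∩
        CC M p V q r (ns K (J + j + 1)) (bb p (ns K (J + j))))) := by
    have key : ∀ i j : ℕ, i < j → Disjoint
        (BCA_E M p V q r K J (J + i) ∩
          CC M p V q r (ns K (J + i + 1)) (bb p (ns K (J + i))))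
        (BCA_E M p V q r K J (J + j) ∩
          CC M p V q r (ns K (J + j + 1)) (bb p (ns K (J + j)))) := by
      intro i j hij
      rw [Set.disjoint_left]
      intro w hw hw'
      exact hw'.1 (J + i) (by omega) (by omega) hw.2
    intro i j hij
    rcases lt_or_gt_of_ne hij with h | h
    · exact key i j h
    · exact (key j i h).symm
  have hmeas : ∀ j : ℕ, MeasurableSet (BCA_E M p V q r K J (J + j) ∩
        CC M p V q r (ns K (J + j + 1)) (bb p (ns K (J + j)))) := by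
    intro j
    exact (h1 _ _ (hE (J + j) (by omega))).inter (h1 _ _ (hCC (J + j) (by omega) _ le_rfl))
  have hsum : ∑' j : ℕ, coin (BCA_E M p V q r K J (J + j) ∩
        CC M p V q r (ns K (J + j + 1)) (bb p (ns K (J + j)))) ≤ 1 :=
    (tsum_meas_le_meas_iUnion_of_disjoint coin hmeas hdis).trans prob_le_one
  have hfin : ∑' j : ℕ, coin (BCA_E M p V q r K J (J + j) ∩
        Fb M p (ns K (J + j + 1)) (ns K (J + j + 2)) (bb p (ns K (J + j)))) ≠ ∞ := by
    have h5 : ∑' j : ℕ, coin (BCA_E M p V q r K J (J + j) ∩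
        Fb M p (ns K (J + j + 1)) (ns K (J + j + 2)) (bb p (ns K (J + j)))) ≤
        ∑' j : ℕ, (3 * coin (BCA_E M p V q r K J (J + j) ∩
          CC M p V q r (ns K (J + j + 1)) (bb p (ns K (J + j)))) + 2 * (2⁻¹ : ℝ≥0∞) ^ j) := by
      refine ENNReal.tsum_le_tsum (fun j => (hst (J + j) (by omega)).trans ?_)
      have h6 : (2⁻¹ : ℝ≥0∞) ^ (J + j) ≤ (2⁻¹ : ℝ≥0∞) ^ j :=
        pow_le_pow_right_of_le_one' (ENNReal.inv_le_one.2 (by norm_num)) (by omega)
      gcongr
    rw [ENNReal.tsum_add, ENNReal.tsum_mul_left, ENNReal.tsum_mul_left, ENNReal.tsum_geometric,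
      ENNReal.one_sub_inv_two, inv_inv] at h5
    refine ne_top_of_le_ne_top ?_ (h5.trans (add_le_add_left (mul_le_mul_right hsum 3) _))
    norm_num
  filter_upwards [ae_eventually_notMem hfin] with w hw hJ' hno
  obtain ⟨j₀, hj₀⟩ := Filter.eventually_atTop.1 hw
  refine ⟨J + j₀, fun j hj hFb => ?_⟩
  obtain ⟨i, rfl⟩ : ∃ i, j = J + i := ⟨j - J, by omega⟩
  exact hj₀ i (by omega) ⟨fun k hk _ => hno k hk, hFb⟩

end Pool.RO
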