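import Pool.Agent.Work.MP_cb380d_ro.Interface

/-!
# Block CMB: the combinatorial lemma on random tuples
-/

set_option autoImplicit false

open MeasureTheory Classical Finset
open scoped ENNReal

namespace Pool.RO

open Pool.IC

theorem CMB_fib {α : Type} [DecidableEq α] (X : Finset α) (T : ℕ) (k : Fin T) (q : ℕ)
    (R : ({j : Fin T // j ≠ k} → α) → Finset α)
    (hR : ∀ b : {j : Fin T // j ≠ k} → α, (∀ j, b j ∈ X) → (R b).card ≤ q) :
    ((Fintype.piFinset fun _ : Fin T => X).filter fun τ => τ k ∈ R (fun j => τ j)).card ≤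
      q * X.card ^ (T - 1) := by
  have ht : (Fintype.piFinset fun _ : {j : Fin T // j ≠ k} => X).card = X.card ^ (T - 1) := by
    rw [Fintype.card_piFinset, prod_const, card_univ, Fintype.card_subtype_compl, Fintype.card_fin]
    simp
  rw [← ht]
  apply Finset.card_le_mul_card_image_of_maps_to (f := fun τ => fun j : {j : Fin T // j ≠ k} => τ j)
  · intro τ hτ
    rw [Fintype.mem_piFinset]
    intro j
    exact Fintype.mem_piFinset.1 (mem_filter.1 hτ).1 j
  · intro b hb
    refine le_trans ?_ (hR b (fun j => Fintype.mem_piFinset.1 hb j))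
    apply Finset.card_le_card_of_injOn (fun τ => τ k)
    · intro τ hτ
      have h1 := mem_filter.1 hτ
      have h2 := (mem_filter.1 h1.1).2
      rw [← h1.2]
      exact h2
    · intro τ hτ τ' hτ' h
      have h1 := (mem_filter.1 hτ).2
      have h2 := (mem_filter.1 hτ').2
      funext j
      by_cases hj : j = k
      · rw [hj]
        exact h
      · have := congrFun (h1.trans h2.symm) ⟨j, hj⟩
        exact this

theorem CMB_H {α : Type} (X : Finset α) (Q : α → Finset α) (E : α → α → Prop) (s : ℕ)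
    (h3 : X.card ^ 2 ≤ 2 ^ s * ((X ×ˢ X).filter fun z => E z.1 z.2).card)
    (h4 : 2 ^ (s + 2) * (X.filter fun a => a ∈ Q a).card ≤ X.card) (hn : 0 < X.card) :
    X.card ≤ 2 ^ (s + 2) *
      (X.filter fun a => a ∉ Q a ∧ X.card ≤ 2 ^ (s + 1) * (X.filter fun b => E a b).card).card := by
  set n := X.card with hn'
  set H0 := X.filter fun a => n ≤ 2 ^ (s + 1) * (X.filter fun b => E a b).card with hH0
  set H := X.filter fun a => a ∉ Q a ∧ n ≤ 2 ^ (s + 1) * (X.filter fun b => E a b).card with hH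
  have e1 : ((X ×ˢ X).filter fun z => E z.1 z.2).card = ∑ a ∈ X, (X.filter fun b => E a b).card := by
    rw [Finset.card_filter, Finset.sum_product]
    apply sum_congr rfl
    intro a _
    rw [Finset.card_filter]
  have e2 : ∑ a ∈ X, (X.filter fun b => E a b).card =
      ∑ a ∈ H0, (X.filter fun b => E a b).card +
        ∑ a ∈ X.filter (fun a => ¬ n ≤ 2 ^ (s + 1) * (X.filter fun b => E a b).card),
          (X.filter fun b => E a b).card := by
    rw [hH0, Finset.sum_filter_add_sum_filter_not]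
  have e3 : ∑ a ∈ H0, (X.filter fun b => E a b).card ≤ H0.card * n := by
    apply le_trans (Finset.sum_le_card_nsmul _ _ n (fun a _ => card_le_card (filter_subset _ _)))
    rw [smul_eq_mul]
  have e4 : 2 ^ (s + 1) * ∑ a ∈ X.filter (fun a => ¬ n ≤ 2 ^ (s + 1) *
      (X.filter fun b => E a b).card), (X.filter fun b => E a b).card ≤ n * n := by
    rw [mul_sum]
    apply le_trans (Finset.sum_le_card_nsmul _ _ n ?_)
    · rw [smul_eq_mul]
      exact Nat.mul_le_mul_right n (card_le_card (filter_subset _ _))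
    · intro a ha
      have := (mem_filter.1 ha).2
      omega
  have e5 : n * n ≤ 2 ^ (s + 1) * (H0.card * n) := by
    have h5 : 2 * (n * n) ≤ 2 ^ (s + 1) * ((X ×ˢ X).filter fun z => E z.1 z.2).card := by
      rw [pow_succ, ← sq]
      calc 2 * n ^ 2 ≤ 2 * (2 ^ s * ((X ×ˢ X).filter fun z => E z.1 z.2).card) :=
            Nat.mul_le_mul_left 2 h3
        _ = _ := by ring
    rw [e1, e2, mul_add] at h5
    have h6 := Nat.mul_le_mul_left (2 ^ (s + 1)) e3
    omega
  have e6 : n ≤ 2 ^ (s + 1) * H0.card := by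
    have : n * n ≤ (2 ^ (s + 1) * H0.card) * n := by
      calc n * n ≤ 2 ^ (s + 1) * (H0.card * n) := e5
        _ = _ := by ring
    exact Nat.le_of_mul_le_mul_right this hn
  have e7 : H0.card ≤ H.card + (X.filter fun a => a ∈ Q a).card := by
    rw [← Nat.add_comm]
    refine le_trans (card_le_card ?_) (card_union_le _ _)
    intro a ha
    have ha' := mem_filter.1 ha
    rw [mem_union]
    by_cases hq : a ∈ Q a
    · exact Or.inl (mem_filter.2 ⟨ha'.1, hq⟩)
    · exact Or.inr (mem_filter.2 ⟨ha'.1, hq, ha'.2⟩)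
  have e8 : 2 ^ (s + 2) * H0.card ≤ 2 ^ (s + 2) * H.card +
      2 ^ (s + 2) * (X.filter fun a => a ∈ Q a).card := by
    rw [← mul_add]
    exact Nat.mul_le_mul_left _ e7
  have e9 : 2 ^ (s + 2) * H0.card = 2 * (2 ^ (s + 1) * H0.card) := by
    rw [pow_succ 2 (s + 1)]
    ring
  omega

theorem CMB_pow (n h s : ℕ) (h1 : n ≤ 2 ^ (s + 2) * h) (h2 : h ≤ n) :
    4 * (n - h) ^ (2 ^ (s + 4)) ≤ n ^ (2 ^ (s + 4)) := by
  have hm : (0 : ℝ) < (2 : ℝ) ^ (s + 2) := by positivity
  have h3 : ((n - h : ℕ) : ℝ) ≤ n * Real.exp (-(1 / (2 : ℝ) ^ (s + 2))) := by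
    have h4 : (n : ℝ) ≤ 2 ^ (s + 2) * h := by exact_mod_cast h1
    have h5 : (n : ℝ) / 2 ^ (s + 2) ≤ h := by
      rw [div_le_iff₀ hm]
      linarith
    have h6 := Real.add_one_le_exp (-(1 / (2 : ℝ) ^ (s + 2)))
    have h7 := mul_le_mul_of_nonneg_left h6 (Nat.cast_nonneg (α := ℝ) n)
    rw [Nat.cast_sub h2]
    have e : (n : ℝ) * (-(1 / (2 : ℝ) ^ (s + 2)) + 1) = n - n / 2 ^ (s + 2) := by ring
    linarith
  have h4 : ((n - h : ℕ) : ℝ) ^ (2 ^ (s + 4)) ≤ (n : ℝ) ^ (2 ^ (s + 4)) * Real.exp (-4) := by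
    refine le_trans (pow_le_pow_left₀ (Nat.cast_nonneg _) h3 _) (le_of_eq ?_)
    rw [mul_pow, ← Real.exp_nat_mul]
    congr 2
    push_cast
    rw [pow_add, pow_add]
    field_simp
    ring
  have h5 : Real.exp (-4) ≤ 1 / 4 := by
    rw [Real.exp_neg, inv_eq_one_div]
    apply one_div_le_one_div_of_le (by norm_num)
    have := Real.add_one_le_exp (4 : ℝ)
    linarith
  have h6 : (0 : ℝ) ≤ (n : ℝ) ^ (2 ^ (s + 4)) := by positivity
  have h7 := mul_le_mul_of_nonneg_left h5 h6
  have h8 : 4 * ((n - h : ℕ) : ℝ) ^ (2 ^ (s + 4)) ≤ (n : ℝ) ^ (2 ^ (s + 4)) := by linarith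
  exact_mod_cast h8

theorem p_CMB : Stmt_CMB := by
  intro α _ X Q Q' E q s h1 h2 h3 h4 h5
  set T := 2 ^ (s + 4) with hT
  have hT0 : 0 < T := by positivity
  set n := X.card with hn
  rcases Nat.eq_zero_or_pos n with h0 | h0
  · rw [h0, zero_pow hT0.ne']
    exact Nat.zero_le _
  set P := Fintype.piFinset fun _ : Fin T => X with hP
  have hPc : P.card = n ^ T := by
    rw [hP, Fintype.card_piFinset_const]
  set H := X.filter fun a => a ∉ Q a ∧ n ≤ 2 ^ (s + 1) * (X.filter fun b => E a b).card with hH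
  have hHc : n ≤ 2 ^ (s + 2) * H.card := by
    have h6 := CMB_H X Q E s (by convert h3) (by convert h4) h0
    convert h6
  have hHX : H.card ≤ n := card_le_card (filter_subset _ _)
  -- the bad events
  set B1 := Fintype.piFinset fun _ : Fin T => X \ H with hB1
  have hB1c : 4 * B1.card ≤ n ^ T := by
    rw [hB1, Fintype.card_piFinset_const, card_sdiff_of_subset (filter_subset _ _)]
    exact CMB_pow n H.card s hHc hHX
  set B2 := P.filter fun τ => ∃ i k : Fin T, k ≠ i ∧ τ k ∈ Q (τ i) with hB2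
  have hpow : n * n ^ (T - 1) = n ^ T := by
    rw [← pow_succ']
    congr 1
    omega
  have hB2c : 8 * B2.card ≤ n ^ T := by
    have h6 : B2 ⊆ (univ : Finset (Fin T × Fin T)).biUnion fun z =>
        P.filter fun τ => z.2 ≠ z.1 ∧ τ z.2 ∈ Q (τ z.1) := by
      intro τ hτ
      obtain ⟨hτP, i, k, hik, hQ⟩ := mem_filter.1 hτ
      rw [mem_biUnion]
      exact ⟨(i, k), mem_univ _, mem_filter.2 ⟨hτP, hik, hQ⟩⟩
    have h7 : ∀ z ∈ (univ : Finset (Fin T × Fin T)),
        (P.filter fun τ => z.2 ≠ z.1 ∧ τ z.2 ∈ Q (τ z.1)).card ≤ q * n ^ (T - 1) := by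
      rintro ⟨i, k⟩ _
      by_cases hik : k = i
      · have : (P.filter fun τ => (i, k).2 ≠ (i, k).1 ∧ τ (i, k).2 ∈ Q (τ (i, k).1)) = ∅ := by
          apply filter_eq_empty_iff.2
          rintro τ _ ⟨h8, _⟩
          exact h8 hik
        rw [this, card_empty]
        exact Nat.zero_le _
      · have h8 := CMB_fib X T k q (fun b => Q (b ⟨i, fun h => hik h.symm⟩))
          (fun b hb => h1 _ (hb _))
        refine le_trans (card_le_card ?_) h8
        intro τ hτ
        have := mem_filter.1 hτ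
        exact mem_filter.2 ⟨this.1, this.2.2⟩
    have h8 := (card_le_card h6).trans (card_biUnion_le.trans (sum_le_sum h7))
    rw [sum_const, card_univ, Fintype.card_prod, Fintype.card_fin, smul_eq_mul] at h8
    have h9 : 8 * (T * T * (q * n ^ (T - 1))) = (2 ^ (2 * s + 11) * q) * n ^ (T - 1) := by
      have : 8 * (T * T) = 2 ^ (2 * s + 11) := by
        rw [hT, show 2 * s + 11 = 3 + ((s + 4) + (s + 4)) from by ring, pow_add 2 3,
          pow_add 2 (s + 4) (s + 4)]
        norm_num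
      rw [← this]
      ring
    have h10 := Nat.mul_le_mul_right (n ^ (T - 1)) h5
    rw [← h9, hpow] at h10
    exact (Nat.mul_le_mul_left 8 h8).trans h10
  set B3 := P.filter fun τ => n ≤ 2 ^ (s + 1) * (X.filter fun a => ∃ k : Fin T, τ k ∈ Q' a).card
    with hB3
  have hB3c : 8 * B3.card ≤ n ^ T := by
    have h6 : B3.card * n ≤ 2 ^ (s + 1) *
        ∑ τ ∈ P, (X.filter fun a => ∃ k : Fin T, τ k ∈ Q' a).card := by
      calc B3.card * n = ∑ τ ∈ B3, n := by rw [sum_const, smul_eq_mul]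
        _ ≤ ∑ τ ∈ B3, 2 ^ (s + 1) * (X.filter fun a => ∃ k : Fin T, τ k ∈ Q' a).card :=
          sum_le_sum fun τ hτ => (mem_filter.1 hτ).2
        _ ≤ ∑ τ ∈ P, 2 ^ (s + 1) * (X.filter fun a => ∃ k : Fin T, τ k ∈ Q' a).card :=
          sum_le_sum_of_subset (filter_subset _ _)
        _ = _ := by rw [mul_sum]
    have h7 : ∑ τ ∈ P, (X.filter fun a => ∃ k : Fin T, τ k ∈ Q' a).card ≤
        n * (T * (q * n ^ (T - 1))) := by
      calc ∑ τ ∈ P, (X.filter fun a => ∃ k : Fin T, τ k ∈ Q' a).card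
          ≤ ∑ τ ∈ P, ∑ a ∈ X, ∑ k : Fin T, (if τ k ∈ Q' a then 1 else 0) := by
            apply sum_le_sum
            intro τ _
            rw [Finset.card_filter]
            apply sum_le_sum
            intro a _
            split_ifs with h
            · obtain ⟨k, hk⟩ := h
              refine le_trans ?_ (Finset.single_le_sum
                (f := fun k : Fin T => if τ k ∈ Q' a then 1 else 0)
                (fun _ _ => Nat.zero_le _) (mem_univ k))
              simp only [if_pos hk, le_refl]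
            · exact Nat.zero_le _
        _ = ∑ a ∈ X, ∑ k : Fin T, (P.filter fun τ => τ k ∈ Q' a).card := by
            rw [sum_comm]
            apply sum_congr rfl
            intro a _
            rw [sum_comm]
            apply sum_congr rfl
            intro k _
            rw [Finset.card_filter]
        _ ≤ ∑ a ∈ X, ∑ k : Fin T, q * n ^ (T - 1) := by
            apply sum_le_sum
            intro a ha
            apply sum_le_sum
            intro k _
            exact CMB_fib X T k q (fun _ => Q' a) (fun _ _ => h2 a ha)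
        _ = n * (T * (q * n ^ (T - 1))) := by
            rw [sum_const, sum_const, smul_eq_mul, smul_eq_mul, card_univ, Fintype.card_fin]
    have h8 : B3.card * n ≤ (2 ^ (s + 1) * (T * (q * n ^ (T - 1)))) * n := by
      calc B3.card * n ≤ 2 ^ (s + 1) * (n * (T * (q * n ^ (T - 1)))) :=
            h6.trans (Nat.mul_le_mul_left _ h7)
        _ = _ := by ring
    have h9 : B3.card ≤ 2 ^ (s + 1) * (T * (q * n ^ (T - 1))) := Nat.le_of_mul_le_mul_right h8 h0
    have h10 : 8 * (2 ^ (s + 1) * (T * (q * n ^ (T - 1)))) ≤ (2 ^ (2 * s + 11) * q) * n ^ (T - 1) := by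
      have h11 : 8 * (2 ^ (s + 1) * T) ≤ 2 ^ (2 * s + 11) := by
        rw [hT, ← pow_add]
        calc 8 * 2 ^ (s + 1 + (s + 4)) = 2 ^ (3 + (s + 1 + (s + 4))) := by
              rw [pow_add 2 3]
              norm_num
          _ ≤ 2 ^ (2 * s + 11) := Nat.pow_le_pow_right (by norm_num) (by omega)
      calc 8 * (2 ^ (s + 1) * (T * (q * n ^ (T - 1)))) =
            (8 * (2 ^ (s + 1) * T)) * (q * n ^ (T - 1)) := by ring
        _ ≤ 2 ^ (2 * s + 11) * (q * n ^ (T - 1)) := Nat.mul_le_mul_right _ h11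
        _ = _ := by ring
    have h12 := Nat.mul_le_mul_right (n ^ (T - 1)) h5
    rw [hpow] at h12
    exact (Nat.mul_le_mul_left 8 h9).trans (h10.trans h12)
  -- the good event
  have hcov : P ⊆ (((P.filter fun τ => ∃ i, ∃ a ∈ X, E (τ i) a ∧ (∀ k, τ k ∉ Q (τ i)) ∧
      ∀ k, τ k ∉ Q' a) ∪ B1) ∪ B2) ∪ B3 := by
    intro τ hτ
    rw [mem_union, mem_union, mem_union]
    by_cases hb1 : τ ∈ B1
    · exact Or.inl (Or.inl (Or.inr hb1))
    by_cases hb2 : τ ∈ B2
    · exact Or.inl (Or.inr hb2)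
    by_cases hb3 : τ ∈ B3
    · exact Or.inr hb3
    refine Or.inl (Or.inl (Or.inl (mem_filter.2 ⟨hτ, ?_⟩)))
    have hτX := Fintype.mem_piFinset.1 hτ
    obtain ⟨i, hi⟩ : ∃ i, τ i ∈ H := by
      by_contra hcon
      push Not at hcon
      exact hb1 (Fintype.mem_piFinset.2 fun i => mem_sdiff.2 ⟨hτX i, hcon i⟩)
    have hi' := (mem_filter.1 hi).2
    have hb2' : ∀ i k : Fin T, k ≠ i → τ k ∉ Q (τ i) := by
      intro i k hik hQ
      exact hb2 (mem_filter.2 ⟨hτ, i, k, hik, hQ⟩)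
    have hb3' : 2 ^ (s + 1) * (X.filter fun a => ∃ k : Fin T, τ k ∈ Q' a).card < n := by
      by_contra hcon
      exact hb3 (mem_filter.2 ⟨hτ, not_lt.1 hcon⟩)
    obtain ⟨a, ha, hE, hQ'⟩ : ∃ a ∈ X, E (τ i) a ∧ ∀ k, τ k ∉ Q' a := by
      by_contra hcon
      push Not at hcon
      have h6 : (X.filter fun b => E (τ i) b) ⊆ X.filter fun a => ∃ k : Fin T, τ k ∈ Q' a := by
        intro b hb
        have := mem_filter.1 hb
        exact mem_filter.2 ⟨this.1, hcon b this.1 this.2⟩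
      have h7 := Nat.mul_le_mul_left (2 ^ (s + 1)) (card_le_card h6)
      have h8 := hi'.2
      omega
    refine ⟨i, a, ha, hE, ?_, hQ'⟩
    intro k
    by_cases hk : k = i
    · rw [hk]
      exact hi'.1
    · exact hb2' i k hk
  have h6 := card_le_card hcov
  have h7 := card_union_le (((P.filter fun τ => ∃ i, ∃ a ∈ X, E (τ i) a ∧ (∀ k, τ k ∉ Q (τ i)) ∧
      ∀ k, τ k ∉ Q' a) ∪ B1) ∪ B2) B3
  have h8 := card_union_le ((P.filter fun τ => ∃ i, ∃ a ∈ X, E (τ i) a ∧ (∀ k, τ k ∉ Q (τ i)) ∧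
      ∀ k, τ k ∉ Q' a) ∪ B1) B2
  have h9 := card_union_le (P.filter fun τ => ∃ i, ∃ a ∈ X, E (τ i) a ∧ (∀ k, τ k ∉ Q (τ i)) ∧
      ∀ k, τ k ∉ Q' a) B1
  rw [hPc] at h6
  have h10 : (P.filter fun τ => ∃ i, ∃ a ∈ X, E (τ i) a ∧ (∀ k, τ k ∉ Q (τ i)) ∧
      ∀ k, τ k ∉ Q' a).card = ((Fintype.piFinset fun _ : Fin (2 ^ (s + 4)) => X).filter fun τ =>
        ∃ i, ∃ a ∈ X, E (τ i) a ∧ (∀ k, τ k ∉ Q (τ i)) ∧ ∀ k, τ k ∉ Q' a).card := rfl
  have h11 : n ^ T ≤ 2 * (P.filter fun τ => ∃ i, ∃ a ∈ X, E (τ i) a ∧ (∀ k, τ k ∉ Q (τ i)) ∧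
      ∀ k, τ k ∉ Q' a).card := by omega
  convert h11

end Pool.RO
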