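import Pool.Agent.Work.MP_cb380d_ro.Interface

/-! # Block CN1 (helper43) -/

set_option autoImplicit false

open MeasureTheory Classical Finset
open scoped ENNReal

namespace Pool.RO

open Pool.IC

theorem CN1_count {ι : Type} (I : Finset ι) (B : ι → Set Om) (w : Om) :
    ∑ i ∈ I, (B i).indicator (fun _ => (1 : ℝ≥0∞)) w =
      ((I.filter fun i => w ∈ B i).card : ℝ≥0∞) := by
  rw [Finset.card_filter]
  push_cast
  refine Finset.sum_congr rfl (fun i _ => ?_)
  by_cases h : w ∈ B i
  · rw [Set.indicator_of_mem h, if_pos h]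
  · rw [Set.indicator_of_notMem h, if_neg h]

theorem p_CN1 : Stmt_CN1 := by
  intro ι I B A c hB hA h
  calc (c : ℝ≥0∞) * coin A = ∫⁻ w, A.indicator (fun _ => (c : ℝ≥0∞)) w ∂coin := by
        rw [lintegral_indicator_const hA]
    _ ≤ ∫⁻ w, ∑ i ∈ I, (B i).indicator (fun _ => (1 : ℝ≥0∞)) w ∂coin := by
        refine lintegral_mono (fun w => ?_)
        show A.indicator (fun _ => (c : ℝ≥0∞)) w ≤
          ∑ i ∈ I, (B i).indicator (fun _ => (1 : ℝ≥0∞)) w
        rw [CN1_count]
        by_cases hw : w ∈ A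
        · rw [Set.indicator_of_mem hw]
          exact_mod_cast h w hw
        · rw [Set.indicator_of_notMem hw]
          exact zero_le
    _ = ∑ i ∈ I, ∫⁻ w, (B i).indicator (fun _ => (1 : ℝ≥0∞)) w ∂coin :=
        lintegral_finsetSum' _ (fun i hi =>
          (measurable_const.indicator (hB i hi)).aemeasurable)
    _ = ∑ i ∈ I, coin (B i) := by
        refine Finset.sum_congr rfl (fun i hi => ?_)
        rw [lintegral_indicator_const (hB i hi), one_mul]

end Pool.RO
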