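import Pool.Agent.Work.MP_cb380d_ro.Interface

/-! # Block CNT (helper53): there are countably many programs and polynomials -/

set_option autoImplicit false

namespace Pool.RO

open Pool.IC

/-- code of a program -/
def CNT_enc : Cmd → List ℕ
  | .skip => [0]
  | .push i b => [1, i, if b then 1 else 0]
  | .pop i => [2, i]
  | .seq c d => 3 :: (CNT_enc c ++ CNT_enc d)
  | .branch i e f t => 4 :: i :: (CNT_enc e ++ (CNT_enc f ++ CNT_enc t))
  | .ask i y n => 5 :: i :: (CNT_enc y ++ CNT_enc n)
  | .loop i c => 6 :: i :: CNT_enc c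

theorem CNT_pre (c : Cmd) : ∀ (c' : Cmd) (l l' : List ℕ),
    CNT_enc c ++ l = CNT_enc c' ++ l' → c = c' ∧ l = l' := by
  induction c with
  | skip =>
    intro c' l l' h
    cases c' with
    | skip => exact ⟨rfl, by simpa [CNT_enc] using h⟩
    | _ => simp [CNT_enc] at h
  | push i b =>
    intro c' l l' h
    cases c' with
    | push i' b' =>
      simp only [CNT_enc, List.cons_append, List.nil_append, List.cons.injEq, true_and] at h
      obtain ⟨h0, h1, h2⟩ := h
      refine ⟨?_, h2⟩
      cases b <;> cases b' <;> simp at h1 <;> rw [h0]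
    | _ => simp [CNT_enc] at h
  | pop i =>
    intro c' l l' h
    cases c' with
    | pop i' =>
      simp only [CNT_enc, List.cons_append, List.nil_append, List.cons.injEq, true_and] at h
      exact ⟨by rw [h.1], h.2⟩
    | _ => simp [CNT_enc] at h
  | seq c d ihc ihd =>
    intro c' l l' h
    cases c' with
    | seq c' d' =>
      simp only [CNT_enc, List.cons_append, List.append_assoc, List.cons.injEq, true_and] at h
      obtain ⟨h1, h2⟩ := ihc _ _ _ h
      obtain ⟨h3, h4⟩ := ihd _ _ _ h2
      exact ⟨by rw [h1, h3], h4⟩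
    | _ => simp [CNT_enc] at h
  | branch i e f t ihe ihf iht =>
    intro c' l l' h
    cases c' with
    | branch i' e' f' t' =>
      simp only [CNT_enc, List.cons_append, List.append_assoc, List.cons.injEq, true_and] at h
      obtain ⟨h0, h⟩ := h
      obtain ⟨h1, h2⟩ := ihe _ _ _ h
      obtain ⟨h3, h4⟩ := ihf _ _ _ h2
      obtain ⟨h5, h6⟩ := iht _ _ _ h4
      exact ⟨by rw [h0, h1, h3, h5], h6⟩
    | _ => simp [CNT_enc] at h
  | ask i y n ihy ihn =>
    intro c' l l' h
    cases c' with
    | ask i' y' n' =>
      simp only [CNT_enc, List.cons_append, List.append_assoc, List.cons.injEq, true_and] at h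
      obtain ⟨h0, h⟩ := h
      obtain ⟨h1, h2⟩ := ihy _ _ _ h
      obtain ⟨h3, h4⟩ := ihn _ _ _ h2
      exact ⟨by rw [h0, h1, h3], h4⟩
    | _ => simp [CNT_enc] at h
  | loop i c ih =>
    intro c' l l' h
    cases c' with
    | loop i' c' =>
      simp only [CNT_enc, List.cons_append, List.cons.injEq, true_and] at h
      obtain ⟨h0, h⟩ := h
      obtain ⟨h1, h2⟩ := ih _ _ _ h
      exact ⟨by rw [h0, h1], h2⟩
    | _ => simp [CNT_enc] at h

theorem p_CNT : Stmt_CNT := by
  constructor
  · have h : Function.Injective CNT_enc := by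
      intro c c' h
      exact (CNT_pre c c' [] [] (by rw [h])).1
    exact h.countable
  · have h2 : Function.Injective (fun p : Polynomial ℕ => (p.support.image fun n => (n, p.coeff n))) := by
      intro p q h
      have key : ∀ p q : Polynomial ℕ, (p.support.image fun n => (n, p.coeff n)) =
          (q.support.image fun n => (n, q.coeff n)) → ∀ n, p.coeff n ≠ 0 →
          q.coeff n = p.coeff n := by
        intro p q h n hn
        have h1 : (n, p.coeff n) ∈ (p.support.image fun n => (n, p.coeff n)) :=
          Finset.mem_image.2 ⟨n, Polynomial.mem_support_iff.2 hn, rfl⟩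
        rw [h] at h1
        obtain ⟨m, -, hm⟩ := Finset.mem_image.1 h1
        simp only [Prod.mk.injEq] at hm
        rw [← hm.2, hm.1]
      ext n
      by_cases hp : p.coeff n = 0
      · by_cases hq : q.coeff n = 0
        · rw [hp, hq]
        · exact key q p h.symm n hq
      · exact (key p q h n hp).symm
    exact h2.countable

end Pool.RO
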