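import Pool.Agent.Work.MP_cb380d_ro.Interface

set_option autoImplicit false

open MeasureTheory Classical Finset
open scoped ENNReal

namespace Pool.RO

open Pool.IC

theorem COL.pat_agree (w w' : Om) (x : Str) (v : Str) (a : Str) (h : w a = w' a) :
    pat w x v a = pat w' x v a := by
  induction v with
  | nil => exact h
  | cons b v ih =>
    change Function.update (pat w x v) (ad v.length x) b a =
      Function.update (pat w' x v) (ad v.length x) b a
    by_cases ha : a = ad v.length x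
    · rw [ha, Function.update_self, Function.update_self]
    · rw [Function.update_of_ne ha, Function.update_of_ne ha, ih]

theorem COL.fd_pat {S : Finset Str} {A : Set Om} (h : FD S A) (x v : Str) :
    FD S {w | pat w x v ∈ A} := by
  intro w w' hw
  exact h _ _ fun a ha => COL.pat_agree w w' x v a (hw a ha)

theorem COL.fd_diff {S : Finset Str} {A B : Set Om} (h : FD S A) (h' : FD S B) :
    FD S (A \ B) := by
  intro w w' hw
  rw [Set.mem_sdiff, Set.mem_sdiff, h w w' hw, h' w w' hw]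

theorem COL.fd_compl {S : Finset Str} {B : Set Om} (h' : FD S B) : FD S (Bᶜ) := by
  intro w w' hw
  rw [Set.mem_compl_iff, Set.mem_compl_iff, h' w w' hw]

theorem COL.eval_zero (n : ℕ) : (0 : Polynomial ℕ).eval n = 0 := Polynomial.eval_zero

theorem COL.fd_BB (hFDE : Stmt_FDE) (M : Cmd) (p : Polynomial ℕ) (N m s L : ℕ)
    (h1 : 6 * m + 9 ≤ N) (h2 : m < L) (h3 : 6 * N + p.eval (4 * N) ≤ L) :
    FD (short L) (BB M p N m s) :=
  (hFDE M p M 0 0 N m s L h1 (by simpa using h2) h3).1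

theorem p_COL (hMEA : Stmt_MEA) (hRES : Stmt_RES) (hCN2 : Stmt_CN2) (hSLT : Stmt_SLT)
    (hGGL : Stmt_GGL) (hFDE : Stmt_FDE) : Stmt_COL := by
  intro M p N m s Nf u u' h1 h2 hu hu' huu
  obtain ⟨g1, g2, g3, g4, g5⟩ := hGGL M p N m Nf u h1 hu h2
  obtain ⟨g1', g2', g3', _, _⟩ := hGGL M p N m Nf u' h1 hu' h2
  set L := N + Nf + m + 3 with hL
  have hBB : FD (short L) (BB M p N m s) := COL.fd_BB hFDE M p N m s L h1 (by omega) (by omega)
  set A : Set Om := {w | gg w M p N Nf u = gg w M p N Nf u'} \ BB M p N m s with hA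
  have hAfd : FD (short L) A := by
    refine COL.fd_diff ?_ hBB
    intro w w' hw
    have hw' : ∀ a : Str, a.length < L → w a = w' a := fun a ha => hw a (mem_short.2 ha)
    change gg w M p N Nf u = gg w M p N Nf u' ↔ gg w' M p N Nf u = gg w' M p N Nf u'
    rw [g1 w w' hw', g1' w w' hw']
  -- resample twice
  have r1 := hRES (yu Nf u) N A (hMEA _ _ hAfd)
  have r2 : ∀ v : Str, ∑ v' ∈ strs N, coin {w | pat (pat w (yu Nf u') v') (yu Nf u) v ∈ A} =
      2 ^ N * coin {w | pat w (yu Nf u) v ∈ A} := fun v =>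
    hRES (yu Nf u') N _ (hMEA _ _ (COL.fd_pat hAfd (yu Nf u) v))
  have r3 : ∑ a ∈ strs N ×ˢ strs N, coin {w | pat (pat w (yu Nf u') a.2) (yu Nf u) a.1 ∈ A} =
      4 ^ N * coin A := by
    rw [sum_product]
    calc ∑ v ∈ strs N, ∑ v' ∈ strs N, coin {w | pat (pat w (yu Nf u') v') (yu Nf u) v ∈ A} =
        ∑ v ∈ strs N, 2 ^ N * coin {w | pat w (yu Nf u) v ∈ A} := sum_congr rfl fun v _ => r2 v
      _ = 2 ^ N * ∑ v ∈ strs N, coin {w | pat w (yu Nf u) v ∈ A} := by rw [mul_sum]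
      _ = 4 ^ N * coin A := by
        rw [r1, ← mul_assoc, ← mul_pow]
        norm_num
  -- the slots
  have hslot : ∀ (y v : Str), y.length ≤ m → v.length = N →
      mark y ++ false :: v.reverse ∈ Sl N m := by
    intro y v hy hv
    exact (hSLT.2.1 N m _).2 ⟨y, v.reverse, rfl, hy, by simpa using hv⟩
  -- the events
  have key : ∀ a ∈ strs N ×ˢ strs N, ∀ w : Om,
      (pat (pat w (yu Nf u') a.2) (yu Nf u) a.1 ∈ A ↔
        gt w M p (mark u ++ false :: a.1.reverse) = gt w M p (mark u' ++ false :: a.2.reverse) ∧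
        w ∉ BB M p N m s) := by
    intro a ha w
    rw [mem_product] at ha
    have ha1 : a.1.length = N := mem_strs.1 ha.1
    have ha2 : a.2.length = N := mem_strs.1 ha.2
    change (gg (pat (pat w (yu Nf u') a.2) (yu Nf u) a.1) M p N Nf u =
      gg (pat (pat w (yu Nf u') a.2) (yu Nf u) a.1) M p N Nf u' ∧
      pat (pat w (yu Nf u') a.2) (yu Nf u) a.1 ∉ BB M p N m s) ↔ _
    rw [g2 _ _ ha1, g4 _ _ _ _ (hslot u a.1 hu ha1), g3' _ _ _ huu, g2' _ _ ha2,
      g5 _ _ u s, g5 w a.2 u' s]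
  have hmeas : ∀ a ∈ strs N ×ˢ strs N,
      MeasurableSet {w | pat (pat w (yu Nf u') a.2) (yu Nf u) a.1 ∈ A} := by
    intro a _
    exact hMEA _ _ (COL.fd_pat (COL.fd_pat hAfd (yu Nf u) a.1) (yu Nf u') a.2)
  have hcn := hCN2 (Str × Str) (strs N ×ˢ strs N)
    (fun a => {w | pat (pat w (yu Nf u') a.2) (yu Nf u) a.1 ∈ A}) ((BB M p N m s)ᶜ)
    ((Sl N m).card ^ 2 / 2 ^ s) hmeas (hMEA _ _ (COL.fd_compl hBB))
    (fun a ha w hw => ((key a ha w).1 hw).2) ?_
  · rw [r3] at hcn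
    -- conclusion
    have hS := (hSLT.2.2.2.1 N m).2
    have hb : (((Sl N m).card ^ 2 / 2 ^ s : ℕ) : ℝ≥0∞) * coin ((BB M p N m s)ᶜ) ≤
        (((Sl N m).card ^ 2 / 2 ^ s : ℕ) : ℝ≥0∞) := by
      calc _ ≤ (((Sl N m).card ^ 2 / 2 ^ s : ℕ) : ℝ≥0∞) * 1 := by
            gcongr
            exact prob_le_one
        _ = _ := mul_one _
    have hc : (2 : ℝ≥0∞) ^ s * (((Sl N m).card ^ 2 / 2 ^ s : ℕ) : ℝ≥0∞) ≤
        4 ^ (m + 1) * 4 ^ N := by
      have h5 : 2 ^ s * ((Sl N m).card ^ 2 / 2 ^ s) ≤ 4 ^ (m + 1) * 4 ^ N := by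
        calc 2 ^ s * ((Sl N m).card ^ 2 / 2 ^ s) ≤ (Sl N m).card ^ 2 := Nat.mul_div_le _ _
          _ ≤ (2 ^ (m + 1) * 2 ^ N) ^ 2 := Nat.pow_le_pow_left hS 2
          _ = 4 ^ (m + 1) * 4 ^ N := by
            rw [mul_pow, ← pow_mul, ← pow_mul, mul_comm (m + 1) 2, mul_comm N 2, pow_mul, pow_mul]
            norm_num
      exact_mod_cast h5
    have h6 : (4 : ℝ≥0∞) ^ N * (2 ^ s * coin A) ≤ 4 ^ N * 4 ^ (m + 1) := by
      calc (4 : ℝ≥0∞) ^ N * (2 ^ s * coin A) = 2 ^ s * (4 ^ N * coin A) := by ring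
        _ ≤ 2 ^ s * (((Sl N m).card ^ 2 / 2 ^ s : ℕ) : ℝ≥0∞) := by
            gcongr; exact hcn.trans hb
        _ ≤ 4 ^ (m + 1) * 4 ^ N := hc
        _ = 4 ^ N * 4 ^ (m + 1) := mul_comm _ _
    have h7 : (4 : ℝ≥0∞) ^ N ≠ 0 := by positivity
    have h8 : (4 : ℝ≥0∞) ^ N ≠ ⊤ := ENNReal.pow_ne_top (by norm_num)
    exact (ENNReal.mul_le_mul_iff_right h7 h8).1 h6
  · intro w hw
    rw [Nat.le_div_iff_mul_le (by positivity)]
    have hBB' : 2 ^ s * Cl w M p N m < (Sl N m).card ^ 2 := by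
      have : ¬ (Sl N m).card ^ 2 ≤ 2 ^ s * Cl w M p N m := hw
      omega
    refine le_trans ?_ hBB'.le
    rw [mul_comm]
    refine Nat.mul_le_mul_left _ ?_
    -- injection into the collisions
    unfold Cl
    refine card_le_card_of_injOn (fun a : Str × Str =>
      (mark u ++ false :: a.1.reverse, mark u' ++ false :: a.2.reverse)) ?_ ?_
    · intro a ha
      simp only [mem_coe, mem_filter] at ha
      have ha' := ha.1
      rw [mem_product] at ha'
      simp only [mem_coe, mem_filter, mem_product]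
      exact ⟨⟨hslot u a.1 hu (mem_strs.1 ha'.1), hslot u' a.2 hu' (mem_strs.1 ha'.2)⟩,
        ((key a ha.1 w).1 ha.2).1⟩
    · intro a _ b _ hab
      simp only [Prod.mk.injEq] at hab
      have e1 := (hSLT.1 _ _ _ _ hab.1).2
      have e2 := (hSLT.1 _ _ _ _ hab.2).2
      ext1
      · exact List.reverse_injective e1
      · exact List.reverse_injective e2

end Pool.RO
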