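import Pool.Agent.Work.MP_cb380d_ro.Interface

/-! # FDE: the events of a stage depend on short strings only (helper78) -/

set_option autoImplicit false

open MeasureTheory Classical Finset
open scoped ENNReal

namespace Pool.RO

open Pool.IC

private theorem fde_mono (q : Polynomial ℕ) {m n : ℕ} (h : m ≤ n) : q.eval m ≤ q.eval n := by
  rw [Polynomial.eval_eq_sum_range, Polynomial.eval_eq_sum_range]
  exact Finset.sum_le_sum fun i _ => Nat.mul_le_mul_left _ (Nat.pow_le_pow_left h i)

/-- the hiding function at the slots -/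
private theorem fde_Fh (hPAT : Stmt_PAT) (hSLT : Stmt_SLT) {w w' : Om} {N m L : ℕ}
    (hN : 6 * m + 9 ≤ N) (hL : 6 * N ≤ L) (hw : ∀ a : Str, a.length < L → w a = w' a) {t : Str}
    (ht : t ∈ Sl N m) (b c : Bool) :
    Fh w (b :: c :: t) = Fh w' (b :: c :: t) ∧ (Fh w (b :: c :: t)).length ≤ 4 * N := by
  obtain ⟨_, h2, _, _, h5, h6, _⟩ := hPAT
  obtain ⟨_, _, h9, _, _⟩ := hSLT
  have hlen := (h9 N m t ht).2
  have hx : (b :: c :: t).length ≤ N + 2 * m + 3 := by
    simp only [List.length_cons]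
    omega
  constructor
  · unfold Fh
    apply h6
    intro i hi
    apply hw
    rw [h2]
    omega
  · unfold Fh
    rw [h5]
    omega

theorem p_FDE (hPAT : Stmt_PAT) (hLCG : Stmt_LCG) (hLCD : Stmt_LCD) (hSLT : Stmt_SLT) :
    Stmt_FDE := by
  intro M p V q r N m s L hN hmL hL
  -- the basic facts
  have hFh : ∀ {w w' : Om}, (∀ a ∈ short L, w a = w' a) → ∀ t ∈ Sl N m, ∀ b c : Bool,
      Fh w (b :: c :: t) = Fh w' (b :: c :: t) ∧ (Fh w (b :: c :: t)).length ≤ 4 * N := by
    intro w w' hw t ht b c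
    exact fde_Fh hPAT hSLT hN (by omega) (fun a ha => hw a (mem_short.2 ha)) ht b c
  have hG : ∀ {w w' : Om}, (∀ a ∈ short L, w a = w' a) → ∀ z : Str, z.length ≤ 4 * N →
      G w M p z = G w' M p z ∧
      queries (orc w') M [] [] z (p.eval z.length) =
        queries (orc w) M [] [] z (p.eval z.length) := by
    intro w w' hw z hz
    have h1 := hLCG w w' M p z L (by
      have := fde_mono p hz
      omega) (fun a ha => hw a (mem_short.2 ha))
    exact ⟨h1.1, h1.2.1⟩
  have hgt : ∀ {w w' : Om}, (∀ a ∈ short L, w a = w' a) → ∀ t ∈ Sl N m,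
      gt w M p t = gt w' M p t := by
    intro w w' hw t ht
    unfold gt
    have h1 := hFh hw t ht false false
    rw [(hG hw _ h1.2).1, h1.1]
  have hQs : ∀ {w w' : Om}, (∀ a ∈ short L, w a = w' a) → ∀ z : Str, z.length ≤ 4 * N →
      Qs w M p (Sl N m) z = Qs w' M p (Sl N m) z := by
    intro w w' hw z hz
    unfold Qs
    rw [(hG hw z hz).2]
  have hgood : ∀ {w w' : Om}, (∀ a ∈ short L, w a = w' a) → ∀ t ∈ Sl N m, ∀ b c : Bool,
      good (Ds w V q r) (b :: c :: t) → good (Ds w' V q r) (b :: c :: t) := by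
    intro w w' hw t ht b c h
    rcases h with h | ⟨u, r₁, h1, h2⟩
    · exact Or.inl h
    · refine Or.inr ⟨u, r₁, h1, ?_⟩
      obtain ⟨u₀, r₀, h3, h4, _⟩ := (hSLT.2.1 N m t).1 ht
      have h5 : mark u₀ ++ false :: r₀ = mark u ++ false :: r₁ := by
        rw [← h3]
        simp only [List.cons.injEq] at h1
        exact h1.2.2
      have h6 := hSLT.1 _ _ _ _ h5
      rw [← h6.1] at h2 ⊢
      exact (hLCD w w' V q r u₀ m L h4 hmL (fun a ha => hw a (mem_short.2 ha))).1 h2
  have hsym : ∀ {w w' : Om}, (∀ a ∈ short L, w a = w' a) → ∀ a ∈ short L, w' a = w a :=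
    fun hw a ha => (hw a ha).symm
  refine ⟨?_, ?_, ?_, ?_, ?_⟩
  · intro w w' hw
    have h1 : Cl w M p N m = Cl w' M p N m := by
      unfold Cl
      congr 1
      refine Finset.filter_congr fun a ha => ?_
      rw [Finset.mem_product] at ha
      rw [hgt hw a.1 ha.1, hgt hw a.2 ha.2]
    unfold BB
    rw [Set.mem_setOf_eq, Set.mem_setOf_eq, h1]
  · intro w w' hw
    have h1 : slf w M p N m = slf w' M p N m := by
      unfold slf
      congr 1
      refine Finset.filter_congr fun t ht => ?_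
      have h2 := hFh hw t ht false false
      rw [hQs hw _ h2.2, h2.1]
    unfold SQ
    rw [Set.mem_setOf_eq, Set.mem_setOf_eq, h1]
  · have h1 : ∀ w w' : Om, (∀ a ∈ short L, w a = w' a) → w ∈ CC M p V q r N m →
        w' ∈ CC M p V q r N m := by
      intro w w' hw h
      obtain ⟨t, ht, t', ht', b, c, b', c', h2, h3, h4⟩ := h
      refine ⟨t, ht, t', ht', b, c, b', c', hgood hw t ht b c h2, fun h5 => h3
        (hgood (hsym hw) t' ht' b' c' h5), ?_⟩
      have h6 := hFh hw t ht b c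
      have h7 := hFh hw t' ht' b' c'
      rw [← h6.1, ← h7.1, ← (hG hw _ h6.2).1, ← (hG hw _ h7.2).1]
      exact h4
    intro w w' hw
    exact ⟨h1 w w' hw, h1 w' w (hsym hw)⟩
  · intro t ht w w' hw
    rw [Set.mem_setOf_eq, Set.mem_setOf_eq]
    have h2 := hFh hw t ht false false
    rw [hQs hw _ h2.2, h2.1]
  · intro t ht z hz w w' hw
    rw [Set.mem_setOf_eq, Set.mem_setOf_eq, hQs hw z hz]

end Pool.RO
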