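import Pool.Agent.Work.MP_cb380d_ro.Interface
import Pool.Agent.Work.OracleCmd_h91.Growth

set_option autoImplicit false

open MeasureTheory Classical Finset
open scoped ENNReal

namespace Pool.RO

open Pool.IC

theorem FIN_ns_pos (K j : ℕ) : 1 ≤ ns K j := Nat.one_le_two_pow

theorem FIN_ns_mono (K : ℕ) (hK : 2 ≤ K) {i j : ℕ} (h : i ≤ j) : ns K i ≤ ns K j :=
  Nat.pow_le_pow_right (by norm_num) (Nat.pow_le_pow_right (by omega) h)

theorem FIN_ns_lt (K : ℕ) (hK : 2 ≤ K) (j : ℕ) : j < ns K j := by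
  have h1 : j < 2 ^ j := Nat.lt_two_pow_self
  have h2 : 2 ^ j ≤ K ^ j := Nat.pow_le_pow_left hK j
  have h3 : K ^ j < 2 ^ (K ^ j) := Nat.lt_two_pow_self
  unfold ns
  omega

theorem FIN_ns_succ (K j : ℕ) : ns K (j + 1) = ns K j ^ K := by
  unfold ns
  rw [← pow_mul, pow_succ]

theorem FIN_bb_mono (p : Polynomial ℕ) {a b : ℕ} (h : a ≤ b) : bb p a ≤ bb p b := by
  unfold bb
  have := eval_mono p (show 4 * a ≤ 4 * b by omega)
  omega

theorem FIN_rd_len (w : Om) (x : Str) : ∀ k, (rd w x k).length = k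
  | 0 => rfl
  | k + 1 => by
    have := FIN_rd_len w x k
    simp only [rd, List.length_cons]
    omega

theorem FIN_core (hLCG : Stmt_LCG) (hSLT : Stmt_SLT) (hJJF : Stmt_JJF) (hPFU : Stmt_PFU)
    (hPNP : Stmt_PNP) (w : Om) (κs n0s : Polynomial ℕ → Polynomial ℕ → Polynomial ℕ → ℕ)
    (hκ : ∀ p q r, 1 ≤ κs p q r ∧ ∀ n ≥ n0s p q r, Cond p q r (2 ^ κs p q r) n)
    (hB : ∀ (M : Cmd) (p : Polynomial ℕ) (V : Cmd) (q r : Polynomial ℕ),
      ∀ J, n0s p q r ≤ ns (2 ^ κs p q r) J →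
      (∀ j ≥ J, w ∉ CC M p V q r (ns (2 ^ κs p q r) (j + 1)) (bb p (ns (2 ^ κs p q r) j))) →
      ∃ j₁, ∀ j ≥ j₁, w ∉ Fb M p (ns (2 ^ κs p q r) (j + 1)) (ns (2 ^ κs p q r) (j + 2))
        (bb p (ns (2 ^ κs p q r) j)))
    (hI : ∃ n₀ : ℕ, ∀ x x' : Str, n₀ ≤ x.length → Fh w x = Fh w x' → x = x')
    (A : Set Str) (hA : ∀ L : Set Str, InNP (orc w) L → ∃ f, Karp (orc w) L A f)
    (D : Set Str) (hD : InNP (orc w) D) :
    ∃ f : Str → Str, Karp (orc w) D A f ∧ Function.Injective f ∧ ∀ x, x.length < (f x).length := by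
  have hL := hPNP w D hD
  obtain ⟨VM, q, r, Vs, h1, h2, h3⟩ := hD
  have hDs : Ds w VM q r = D := by
    ext u
    rw [h3 u]
    simp only [Ds, Set.mem_ofPred_eq, h1]
    constructor
    · rintro ⟨y, hy, hy2⟩
      exact ⟨y, by simpa using hy2⟩
    · rintro ⟨y, hy⟩
      exact ⟨y, h2 y u hy, by simp [hy]⟩
  obtain ⟨g, ⟨M, p, hg⟩, hgA⟩ := hA _ hL
  have hG : ∀ z, G w M p z = g z := fun z => by
    unfold G
    rw [hg z]
    rfl
  obtain ⟨n1, hn1⟩ := hI
  obtain ⟨hκ1, hcond⟩ := hκ p q r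
  have hB1 := hB M p VM q r
  generalize hK0 : 2 ^ κs p q r = K at hcond hB1
  have hK : 2 ≤ K := by
    rw [← hK0]
    calc 2 = 2 ^ 1 := rfl
      _ ≤ 2 ^ κs p q r := Nat.pow_le_pow_right (by norm_num) hκ1
  generalize n0s p q r = n0 at hcond hB1
  obtain ⟨J, hJ0, hJ1⟩ : ∃ J : ℕ, n0 ≤ J ∧ n1 ≤ J := ⟨max n0 n1, le_max_left _ _, le_max_right _ _⟩
  have hJns := FIN_ns_lt K hK J
  obtain ⟨j1, hj1⟩ := hB1 J (by omega) (by
    rintro j hj ⟨t, ht, t', ht', b, c, b', c', hgood, hbad, heq⟩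
    rw [hDs] at hgood hbad
    rw [hG, hG] at heq
    have h5 : g (Fh w (b :: c :: t)) ∈ A := (hgA _).1 ⟨_, hgood, rfl⟩
    rw [heq] at h5
    obtain ⟨x, hx, hx2⟩ := (hgA _).2 h5
    have h6 : n1 ≤ (b' :: c' :: t').length := by
      have h7 := (hSLT.2.2.1 _ _ t' ht').1
      have h8 := FIN_ns_mono K hK (show J ≤ j + 1 by omega)
      simp only [List.length_cons]
      omega
    have h9 := hn1 _ x h6 hx2.symm
    rw [h9] at hbad
    exact hbad hx)
  obtain ⟨j2, hj2a, hj2b⟩ : ∃ j2 : ℕ, j1 ≤ j2 ∧ J ≤ j2 :=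
    ⟨max j1 J, le_max_left _ _, le_max_right _ _⟩
  generalize hc : ns K j2 + 1 = c
  have hst : ∀ u : Str, j2 < jj K (u.length + c) := fun u =>
    (hJJF K _ hK).2.2.2.2.2 j2 (by omega)
  have hlen : ∀ u : Str, u.length + c ≤ ns K (jj K (u.length + c)) := fun u =>
    (hJJF K _ hK).2.2.1
  -- facts for a stage
  have hNge : ∀ j, j2 < j → 64 * bb p (ns K j) ≤ ns K (j + 1) := by
    intro j hj
    rw [FIN_ns_succ]
    refine (hcond (ns K j) ?_).2.1
    have := FIN_ns_mono K hK (show J ≤ j by omega)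
    omega
  have hub : ∀ u : Str, u.length ≤ bb p (ns K (jj K (u.length + c))) := by
    intro u
    have := hlen u
    unfold bb
    omega
  have hx0 : ∀ (N Nf : ℕ) (u : Str),
      (false :: false :: (mark u ++ false :: seed w N Nf u)).length = N + 2 * u.length + 3 := by
    intro N Nf u
    simp only [seed, List.length_cons, List.length_append, List.length_reverse, FIN_rd_len,
      length_mark]
    omega
  have hlow : ∀ u : Str, bb p (ns K (jj K (u.length + c))) <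
      (gg w M p (ns K (jj K (u.length + c) + 1)) (ns K (jj K (u.length + c) + 2)) u).length := by
    intro u
    by_contra hcon
    exact hj1 _ (by have := hst u; omega) (Or.inr ⟨u, hub u, not_lt.1 hcon⟩)
  have hupp : ∀ u : Str, 
      (gg w M p (ns K (jj K (u.length + c) + 1)) (ns K (jj K (u.length + c) + 2)) u).length <
      bb p (ns K (jj K (u.length + c) + 1)) := by
    intro u
    have h4 := hlen u
    have h5 := hNge _ (hst u)
    have h6 : 6 * ns K (jj K (u.length + c)) ≤ bb p (ns K (jj K (u.length + c))) := by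
      unfold bb
      omega
    have h7 := FIN_ns_pos K (jj K (u.length + c))
    generalize ns K (jj K (u.length + c) + 1) = N at *
    generalize ns K (jj K (u.length + c) + 2) = Nf at *
    have h8 : (hid w N Nf u).length ≤ 4 * N := by
      unfold hid Fh
      rw [FIN_rd_len, hx0]
      omega
    refine (hLCG w w M p (hid w N Nf u) (bb p N) ?_ (fun _ _ => rfl)).2.2
    have h9 := eval_mono p h8
    unfold bb
    omega
  refine ⟨fun u => gg w M p (ns K (jj K (u.length + c) + 1)) (ns K (jj K (u.length + c) + 2)) u,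
    ⟨?_, ?_⟩, ?_, ?_⟩
  · have h := hPFU w M p (κs p q r) c hκ1 (fun z => by rw [hG]; exact hg z)
    rw [hK0] at h
    exact h
  · intro u
    have h4 : n1 ≤ (false :: false :: (mark u ++ false ::
        seed w (ns K (jj K (u.length + c) + 1)) (ns K (jj K (u.length + c) + 2)) u)).length := by
      rw [hx0]
      have h8 := FIN_ns_mono K hK (show J ≤ jj K (u.length + c) + 1 by have := hst u; omega)
      omega
    show u ∈ D ↔ G w M p (hid w _ _ u) ∈ A
    rw [hG, ← hgA]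
    unfold hid Lng
    constructor
    · intro hu
      exact ⟨_, Or.inr ⟨u, _, rfl, hu⟩, rfl⟩
    · rintro ⟨x, hx, hx2⟩
      have h9 := hn1 _ x h4 hx2.symm
      rw [← h9] at hx
      rcases hx with ⟨t, ht⟩ | ⟨u', r', h10, hu'⟩
      · simp at ht
      · simp only [List.cons.injEq, true_and] at h10
        rw [(hSLT.1 _ _ _ _ h10).1]
        exact hu'
  · intro u u' he
    by_contra hne
    simp only at he
    have h10 := hlow u
    have h11 := hupp u
    have h12 := hlow u'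
    have h13 := hupp u'
    have h14 := hub u
    have h15 := hub u'
    have h16 := hst u
    rw [← he] at h12 h13
    generalize jj K (u.length + c) = j at *
    generalize jj K (u'.length + c) = j' at *
    rcases lt_trichotomy j j' with hlt | heq | hgt
    · have := FIN_bb_mono p (FIN_ns_mono K hK (show j + 1 ≤ j' by omega))
      omega
    · subst heq
      exact hj1 j (by omega) (Or.inl ⟨u, u', h14, h15, hne, he⟩)
    · have := FIN_bb_mono p (FIN_ns_mono K hK (show j' + 1 ≤ j by omega))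
      omega
  · intro u
    exact lt_of_le_of_lt (hub u) (hlow u)

theorem p_FIN (hLCG : Stmt_LCG) (hSLT : Stmt_SLT) (hCNT : Stmt_CNT) (hBCA : Stmt_BCA)
    (hINJ : Stmt_INJ) (hJJF : Stmt_JJF) (hGRW : Stmt_GRW) (hPFU : Stmt_PFU)
    (hPNP : Stmt_PNP) : Stmt_FIN := by
  obtain ⟨hc1, hc2⟩ := hCNT
  choose κs n0s h1 h2 using hGRW
  have hB : ∀ᵐ w ∂coin, ∀ (M : Cmd) (p : Polynomial ℕ) (V : Cmd) (q r : Polynomial ℕ),
      ∀ J, n0s p q r ≤ ns (2 ^ κs p q r) J →
      (∀ j ≥ J, w ∉ CC M p V q r (ns (2 ^ κs p q r) (j + 1)) (bb p (ns (2 ^ κs p q r) j))) →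
      ∃ j₁, ∀ j ≥ j₁, w ∉ Fb M p (ns (2 ^ κs p q r) (j + 1)) (ns (2 ^ κs p q r) (j + 2))
        (bb p (ns (2 ^ κs p q r) j)) := by
    refine ae_all_iff.2 fun M => ae_all_iff.2 fun p => ae_all_iff.2 fun V =>
      ae_all_iff.2 fun q => ae_all_iff.2 fun r => ?_
    refine hBCA M p V q r (2 ^ κs p q r) (n0s p q r) ?_ (h2 p q r)
    calc 2 = 2 ^ 1 := rfl
      _ ≤ 2 ^ κs p q r := Nat.pow_le_pow_right (by norm_num) (h1 p q r)
  filter_upwards [hB, hINJ] with w hw1 hw2
  intro A hA D hD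
  exact FIN_core hLCG hSLT hJJF hPFU hPNP w κs n0s (fun p q r => ⟨h1 p q r, h2 p q r⟩) hw1 hw2
    A hA D hD

end Pool.RO
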