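import Pool.Agent.Work.MP_cb380d_ro.Interface

/-! # GGL: locality of the new reduction; effect of resampling the random strings (helper78) -/

set_option autoImplicit false

open MeasureTheory Classical Finset
open scoped ENNReal

namespace Pool.RO

open Pool.IC

private theorem ggl_mono (q : Polynomial ℕ) {m n : ℕ} (h : m ≤ n) : q.eval m ≤ q.eval n := by
  rw [Polynomial.eval_eq_sum_range, Polynomial.eval_eq_sum_range]
  exact Finset.sum_le_sum fun i _ => Nat.mul_le_mul_left _ (Nat.pow_le_pow_left h i)

/-- the hiding function at the slots -/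
private theorem ggl_Fh (hPAT : Stmt_PAT) (hSLT : Stmt_SLT) {w w' : Om} {N m L : ℕ}
    (hN : 6 * m + 9 ≤ N) (hL : 6 * N ≤ L) (hw : ∀ a : Str, a.length < L → w a = w' a) {t : Str}
    (ht : t ∈ Sl N m) (b c : Bool) :
    Fh w (b :: c :: t) = Fh w' (b :: c :: t) ∧ (Fh w (b :: c :: t)).length ≤ 4 * N := by
  obtain ⟨_, h2, _, _, h5, h6, _⟩ := hPAT
  obtain ⟨_, _, h9, _, _⟩ := hSLT
  have hlen := (h9 N m t ht).2
  have hx : (b :: c :: t).length ≤ N + 2 * m + 3 := by
    simp only [List.length_cons]
    omega
  constructor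
  · unfold Fh
    apply h6
    intro i hi
    apply hw
    rw [h2]
    omega
  · unfold Fh
    rw [h5]
    omega

private theorem ggl_G (hPAT : Stmt_PAT) (hLCG : Stmt_LCG) (hSLT : Stmt_SLT) {w w' : Om}
    {M : Cmd} {p : Polynomial ℕ} {N m L : ℕ} (hN : 6 * m + 9 ≤ N)
    (hL : 6 * N + p.eval (4 * N) ≤ L) (hw : ∀ a : Str, a.length < L → w a = w' a) {t : Str}
    (ht : t ∈ Sl N m) : gt w M p t = gt w' M p t := by
  unfold gt
  have h1 := ggl_Fh hPAT hSLT hN (by omega) hw ht false false
  have h2 := hLCG w w' M p (Fh w (false :: false :: t)) L (by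
    have := ggl_mono p h1.2
    omega) hw
  rw [h2.1, h1.1]

theorem p_GGL (hPAT : Stmt_PAT) (hLCG : Stmt_LCG) (hSLT : Stmt_SLT) : Stmt_GGL := by
  intro M p N m Nf u hN hu hL
  have hgg : ∀ w : Om, gg w M p N Nf u = gt w M p (mark u ++ false :: seed w N Nf u) := by
    intro w
    rfl
  have hyu : ∀ u' : Str, (yu Nf u').length = Nf + 1 + u'.length := by
    intro u'
    unfold yu
    simp only [List.length_append, List.length_replicate, List.length_cons]
    omega
  have hsl : ∀ r : Str, r.length = N → mark u ++ false :: r ∈ Sl N m := fun r hr =>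
    (hSLT.2.1 N m _).2 ⟨u, r, rfl, hu, hr⟩
  have hseed : ∀ w : Om, (seed w N Nf u).length = N := by
    intro w
    unfold seed
    rw [List.length_reverse, hPAT.2.2.2.2.1]
  have hpat : ∀ (w : Om) (v u' a : Str), a.length < Nf → pat w (yu Nf u') v a = w a := by
    intro w v u' a ha
    apply hPAT.2.2.2.1
    intro i _ h
    have h1 := congrArg List.length h
    rw [hPAT.2.1, hyu] at h1
    omega
  have h4 : ∀ (w : Om) (v u' : Str), ∀ t ∈ Sl N m,
      gt (pat w (yu Nf u') v) M p t = gt w M p t := by
    intro w v u' t ht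
    exact ggl_G hPAT hLCG hSLT hN hL (fun a ha => hpat w v u' a ha) ht
  refine ⟨?_, ?_, ?_, h4, ?_⟩
  · intro w w' hw
    have h1 : seed w N Nf u = seed w' N Nf u := by
      unfold seed
      congr 1
      apply hPAT.2.2.2.2.2.1
      intro i hi
      apply hw
      rw [hPAT.2.1, hyu]
      omega
    rw [hgg, hgg, ← h1]
    exact ggl_G hPAT hLCG hSLT hN hL (fun a ha => hw a (by omega)) (hsl _ (hseed w))
  · intro w v hv
    have h1 : seed (pat w (yu Nf u) v) N Nf u = v.reverse := by
      unfold seed
      congr 1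
      rw [← hv]
      exact hPAT.2.2.1 w _ v
    rw [hgg, h1]
    exact h4 w v u _ (hsl _ (by rw [List.length_reverse, hv]))
  · intro w v u' hu'
    have h1 : seed (pat w (yu Nf u') v) N Nf u = seed w N Nf u := by
      unfold seed
      congr 1
      apply hPAT.2.2.2.2.2.1
      intro i hi
      apply hPAT.2.2.2.1
      intro j _ h
      have h2 := (hPAT.1 _ _ _ _ h).2
      unfold yu at h2
      have h3 := List.append_cancel_left h2
      simp only [List.cons.injEq, true_and] at h3
      exact hu' h3.symm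
    rw [hgg, hgg, h1]
    exact h4 w v u' _ (hsl _ (hseed w))
  · intro w v u' s
    have h1 : Cl (pat w (yu Nf u') v) M p N m = Cl w M p N m := by
      unfold Cl
      congr 1
      refine Finset.filter_congr fun a ha => ?_
      rw [Finset.mem_product] at ha
      rw [h4 w v u' a.1 ha.1, h4 w v u' a.2 ha.2]
    unfold BB
    rw [Set.mem_setOf_eq, Set.mem_setOf_eq, h1]

end Pool.RO
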