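import Pool.Agent.Work.MP_cb380d_ro.Interface
import Pool.Agent.Work.MP_cb380d_h91.Main
import Pool.Agent.Work.OracleCmd_h91.Growth

/-! # Block GRW: the conditions hold for large `n` (helper57) -/

set_option autoImplicit false

namespace Pool.RO

open Filter

namespace GRW

theorem ev_le (P : Polynomial ℕ) : ∃ k : ℕ, ∀ K ≥ k, ∀ n ≥ k + 2, P.eval n ≤ n ^ K := by
  obtain ⟨k, hk⟩ := Pool.IC.exists_exponent P
  refine ⟨2 * k, fun K hK n hn => (hk n).trans ?_⟩
  calc (n + k) ^ k ≤ (n * n) ^ k := Nat.pow_le_pow_left (by nlinarith) k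
    _ = n ^ (2 * k) := by rw [← pow_two, ← pow_mul]
    _ ≤ n ^ K := Nat.pow_le_pow_right (by omega) hK

theorem le_two_pow_mul (k : ℕ) : k ≤ 2 ^ (k + 1) := by
  have := Nat.lt_two_pow_self (n := k + 1)
  omega

end GRW

open GRW in
theorem p_GRW : Stmt_GRW := by
  intro p q r
  set B : Polynomial ℕ := 6 * Polynomial.X + p.comp (4 * Polynomial.X) with hB
  have hBe : ∀ n, B.eval n = bb p n := by
    intro n
    simp [hB, bb]
  obtain ⟨k1, h1⟩ := ev_le (64 * B)
  obtain ⟨k2, h2⟩ := ev_le (B + r.comp B + q.comp (B + r.comp B) + 1)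
  set κ := k1 + k2 + 1 with hκ
  set K := 2 ^ κ with hK
  have hK1 : k1 + k2 ≤ K := by
    rw [hK, hκ]; exact le_two_pow_mul _
  have h3 : ∀ᶠ m : ℕ in atTop, 1 * (p.comp (4 * Polynomial.X ^ K)).eval (16 * m) ≤ 2 ^ m :=
    Pool.IC.poly_growth _ 1
  obtain ⟨n1, h3⟩ := eventually_atTop.1 h3
  refine ⟨κ, k1 + k2 + 2 + n1, by omega, fun n hn => ⟨by omega, ?_, ?_, ?_⟩⟩
  · have h4 := h1 K (by omega) n (by omega)
    rw [Polynomial.eval_mul, hBe] at h4
    simpa using h4
  · have h4 := h2 K (by omega) n (by omega)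
    simp only [Polynomial.eval_add, Polynomial.eval_comp, Polynomial.eval_one, hBe] at h4
    exact Nat.lt_of_succ_le h4
  · have h4 := h3 n (by omega)
    have h5 : (p.comp (4 * Polynomial.X ^ K)).eval n ≤
        (p.comp (4 * Polynomial.X ^ K)).eval (16 * n) := Pool.IC.eval_mono _ (by omega)
    have h6 : (p.comp (4 * Polynomial.X ^ K)).eval n = p.eval (4 * n ^ K) := by
      simp [Polynomial.eval_comp]
    rw [← h6]
    omega

end Pool.RO
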