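import Pool.Agent.Work.MP_cb380d_ro.Interface

set_option autoImplicit false

open MeasureTheory Classical Finset
open scoped ENNReal

namespace Pool.RO

open Pool.IC

/-- The event that the two images are equal depends on short strings only. -/
theorem INJ_fd (h4 : Stmt_PAT) (x x' : Str) :
    FD (short (4 * x.length + 4 * x'.length + 1)) {w | Fh w x = Fh w x'} := by
  intro w w' h
  have key : ∀ y : Str, y.length ≤ x.length + x'.length → Fh w y = Fh w' y := by
    intro y hy
    unfold Fh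
    refine h4.2.2.2.2.2.1 w w' y _ ?_
    intro i hi
    refine h _ ?_
    rw [mem_short, h4.2.1]
    omega
  simp only [Set.mem_ofPred_eq]
  rw [key x (by omega), key x' (by omega)]

theorem INJ_pair (h1 : Stmt_MEA) (h2 : Stmt_RES) (h3 : Stmt_CN2) (h4 : Stmt_PAT) (x x' : Str)
    (hl : x.length = x'.length) (hne : x ≠ x') :
    2 ^ (3 * x.length) * coin {w | Fh w x = Fh w x'} ≤ 1 := by
  have hm : MeasurableSet {w : Om | Fh w x = Fh w x'} := h1 _ _ (INJ_fd h4 x x')
  rw [← h2 x (3 * x.length) _ hm]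
  have e : ∀ v ∈ strs (3 * x.length),
      coin {w | pat w x v ∈ {w : Om | Fh w x = Fh w x'}} =
        coin {w : Om | rd w x' (3 * x.length) = v} := by
    intro v hv
    rw [mem_strs] at hv
    congr 1
    ext w
    simp only [Set.mem_ofPred_eq]
    have e1 : Fh (pat w x v) x = v := by
      unfold Fh
      rw [← hv]
      exact h4.2.2.1 w x v
    have e2 : Fh (pat w x v) x' = rd w x' (3 * x.length) := by
      unfold Fh
      rw [hl]
      refine h4.2.2.2.2.2.1 _ _ _ _ ?_
      intro i _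
      refine h4.2.2.2.1 w x v _ ?_
      intro j _ he
      exact hne (h4.1 _ _ _ _ he).2.symm
    rw [e1, e2]
    exact eq_comm
  rw [Finset.sum_congr rfl e]
  have hmv : ∀ v : Str, MeasurableSet {w : Om | rd w x' (3 * x.length) = v} := by
    intro v
    refine h1 (short (4 * x.length + 4 * x'.length + 1)) _ ?_
    intro w w' h
    have : rd w x' (3 * x.length) = rd w' x' (3 * x.length) := by
      refine h4.2.2.2.2.2.1 w w' x' _ ?_
      intro i hi
      refine h _ ?_
      rw [mem_short, h4.2.1]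
      omega
    simp only [Set.mem_ofPred_eq, this]
  have h5 := h3 Str (strs (3 * x.length)) (fun v => {w : Om | rd w x' (3 * x.length) = v})
    Set.univ 1 (fun v _ => hmv v) MeasurableSet.univ (fun v _ => Set.subset_univ _) ?_
  · simpa using h5
  · intro w _
    refine le_trans (Finset.card_le_card (t := {rd w x' (3 * x.length)}) ?_)
      (Finset.card_singleton (rd w x' (3 * x.length))).le
    intro v hv
    have hv2 := (@Finset.mem_filter _ _ (_) _ _).1 hv
    rw [Finset.mem_singleton]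
    exact hv2.2.symm

theorem p_INJ (h1 : Stmt_MEA) (h2 : Stmt_RES) (h3 : Stmt_CN2) (h4 : Stmt_PAT) : Stmt_INJ := by
  unfold Stmt_INJ
  let E : ℕ → Set Om := fun n =>
    ⋃ y ∈ (strs n ×ˢ strs n).filter (fun y : Str × Str => y.1 ≠ y.2),
      {w : Om | Fh w y.1 = Fh w y.2}
  have hE : ∀ n, coin (E n) ≤ (2⁻¹ : ℝ≥0∞) ^ n := by
    intro n
    have hp : ∀ y ∈ (strs n ×ˢ strs n).filter (fun y : Str × Str => y.1 ≠ y.2),
        coin {w : Om | Fh w y.1 = Fh w y.2} ≤ (2⁻¹ : ℝ≥0∞) ^ (3 * n) := by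
      intro y hy
      rw [Finset.mem_filter, Finset.mem_product, mem_strs, mem_strs] at hy
      have := INJ_pair h1 h2 h3 h4 y.1 y.2 (by rw [hy.1.1, hy.1.2]) hy.2
      rw [hy.1.1] at this
      rw [← ENNReal.inv_pow]
      rw [ENNReal.le_inv_iff_mul_le]
      rw [mul_comm]
      exact this
    calc coin (E n) ≤ ∑ y ∈ (strs n ×ˢ strs n).filter (fun y : Str × Str => y.1 ≠ y.2),
          coin {w : Om | Fh w y.1 = Fh w y.2} := measure_biUnion_finset_le _ _
      _ ≤ ∑ y ∈ (strs n ×ˢ strs n).filter (fun y : Str × Str => y.1 ≠ y.2),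
          (2⁻¹ : ℝ≥0∞) ^ (3 * n) := Finset.sum_le_sum hp
      _ = (((strs n ×ˢ strs n).filter (fun y : Str × Str => y.1 ≠ y.2)).card : ℝ≥0∞) *
          (2⁻¹ : ℝ≥0∞) ^ (3 * n) := by rw [Finset.sum_const, nsmul_eq_mul]
      _ ≤ ((2 ^ (2 * n) : ℕ) : ℝ≥0∞) * (2⁻¹ : ℝ≥0∞) ^ (3 * n) := by
          gcongr
          calc _ ≤ (strs n ×ˢ strs n).card := Finset.card_filter_le _ _
            _ = 2 ^ (2 * n) := by
              rw [Finset.card_product, card_strs, ← pow_add]
              congr 1; ring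
      _ = (2⁻¹ : ℝ≥0∞) ^ n := by
          have : 3 * n = 2 * n + n := by ring
          rw [this, pow_add, ← mul_assoc]
          have h22 : ((2 ^ (2 * n) : ℕ) : ℝ≥0∞) * (2⁻¹ : ℝ≥0∞) ^ (2 * n) = 1 := by
            push_cast
            rw [← mul_pow, ENNReal.mul_inv_cancel (by norm_num) (by norm_num), one_pow]
          rw [h22, one_mul]
  have hsum : (∑' n, coin (E n)) ≠ ∞ := by
    have : (∑' n, coin (E n)) ≤ ∑' n : ℕ, (2⁻¹ : ℝ≥0∞) ^ n := ENNReal.tsum_le_tsum hE
    have h2' : (∑' n : ℕ, (2⁻¹ : ℝ≥0∞) ^ n) = 2 := by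
      rw [ENNReal.tsum_geometric]
      rw [ENNReal.one_sub_inv_two, inv_inv]
    rw [h2'] at this
    exact ne_top_of_le_ne_top (by norm_num) this
  have hae := ae_eventually_notMem hsum
  filter_upwards [hae] with w hw
  rw [Filter.eventually_atTop] at hw
  obtain ⟨n₀, hn₀⟩ := hw
  refine ⟨max n₀ 1, ?_⟩
  intro x x' hx he
  by_contra hne
  have hlen : x.length = x'.length := by
    have e1 : (Fh w x).length = 3 * x.length := h4.2.2.2.2.1 w x _
    have e2 : (Fh w x').length = 3 * x'.length := h4.2.2.2.2.1 w x' _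
    rw [he, e2] at e1
    omega
  refine hn₀ x.length (le_trans (le_max_left _ _) hx) ?_
  simp only [E, Set.mem_iUnion, Set.mem_ofPred_eq, exists_prop]
  refine ⟨(x, x'), ?_, he⟩
  rw [Finset.mem_filter, Finset.mem_product, mem_strs, mem_strs]
  exact ⟨⟨rfl, hlen.symm⟩, hne⟩

end Pool.RO
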