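import Pool.Agent.Work.MP_cb380d_ro.Interface

/-! # Block JJF (helper84) -/

set_option autoImplicit false

open MeasureTheory Classical Finset
open scoped ENNReal

namespace Pool.RO

open Pool.IC

theorem JJF_sum (K : ℕ) (hK : 2 ≤ K) (j : ℕ) : ∑ i ∈ range j, ns K i ≤ ns K j := by
  induction j with
  | zero => simp
  | succ j ih =>
    rw [Finset.sum_range_succ]
    have h1 : ns K j + ns K j ≤ ns K (j + 1) := by
      unfold ns
      rw [← two_mul, ← pow_succ']
      refine Nat.pow_le_pow_right (by norm_num) ?_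
      have h2 : 1 ≤ K ^ j := Nat.one_le_pow _ _ (by omega)
      rw [pow_succ]
      nlinarith
    omega

theorem JJF_mono (K : ℕ) (hK : 2 ≤ K) {i j : ℕ} (h : i ≤ j) : ns K i ≤ ns K j := by
  unfold ns
  exact Nat.pow_le_pow_right (by norm_num) (Nat.pow_le_pow_right (by omega) h)

theorem p_JJF : Stmt_JJF := by
  intro K t hK
  have hne : {j : ℕ | t ≤ ∑ i ∈ range j, ns K i}.Nonempty := by
    refine ⟨t, ?_⟩
    change t ≤ ∑ i ∈ range t, ns K i
    calc t = ∑ _i ∈ range t, 1 := by simp
      _ ≤ ∑ i ∈ range t, ns K i := Finset.sum_le_sum (fun i _ => Nat.one_le_two_pow)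
  have h1 : t ≤ ∑ i ∈ range (jj K t), ns K i := Nat.sInf_mem hne
  have h2 : ∀ j, j < jj K t → ∑ i ∈ range j, ns K i < t := by
    intro j hj
    have := Nat.notMem_of_lt_sInf hj
    simpa using this
  refine ⟨h1, h2, h1.trans (JJF_sum K hK _), ?_, ?_, ?_⟩
  · rcases Nat.lt_or_ge (jj K t) 2 with h | h
    · have h3 : ns K (jj K t) ≤ 2 ^ K := by
        have : jj K t ≤ 1 := by omega
        have := JJF_mono K hK this
        unfold ns at this ⊢
        simpa using this
      calc ns K (jj K t) ≤ 2 ^ K := h3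
        _ ≤ 2 ^ (K ^ 2) := Nat.pow_le_pow_right (by norm_num) (by nlinarith)
        _ ≤ (t + 2) ^ (K ^ 2) := Nat.pow_le_pow_left (by omega) _
    · obtain ⟨j, hj⟩ : ∃ j, jj K t = j + 2 := ⟨jj K t - 2, by omega⟩
      have h3 := h2 (j + 1) (by omega)
      rw [Finset.sum_range_succ] at h3
      have h4 : ns K j ≤ t + 2 := by omega
      have h5 : ns K (jj K t) = ns K j ^ (K ^ 2) := by
        rw [hj]
        unfold ns
        rw [← pow_mul, ← pow_add]
      rw [h5]
      exact Nat.pow_le_pow_left h4 _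
  · intro t' ht
    have hne' : {j : ℕ | t' ≤ ∑ i ∈ range j, ns K i}.Nonempty := by
      refine ⟨t', ?_⟩
      change t' ≤ ∑ i ∈ range t', ns K i
      calc t' = ∑ _i ∈ range t', 1 := by simp
        _ ≤ ∑ i ∈ range t', ns K i := Finset.sum_le_sum (fun i _ => Nat.one_le_two_pow)
    have h3 : t' ≤ ∑ i ∈ range (jj K t'), ns K i := Nat.sInf_mem hne'
    exact Nat.sInf_le (ht.trans h3)
  · intro j hj
    by_contra hc
    push Not at hc
    have h3 := h1.trans (JJF_sum K hK _)
    have h4 := JJF_mono K hK hc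
    omega

end Pool.RO
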