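import Pool.Agent.Work.MP_cb380d_ro.Interface
import Pool.Agent.Work.OracleCmd_h91.Growth

set_option autoImplicit false

open MeasureTheory Classical Finset
open scoped ENNReal

namespace Pool.RO

open Pool.IC

theorem LCD_aux {w w' : Om} {V : Cmd} {q r : Polynomial ℕ} {u : Str} {m L : ℕ}
    (hu : u.length ≤ m) (hL : m + r.eval m + q.eval (m + r.eval m) < L)
    (hw : ∀ a : Str, a.length < L → w a = w' a) (h : u ∈ Ds w V q r) : u ∈ Ds w' V q r := by
  obtain ⟨y, hy, ho⟩ := h
  refine ⟨y, hy, ?_⟩
  rw [← ho]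
  symm
  refine out_congr le_rfl fun a ha => ?_
  have h1 := length_queries ha
  have h2 : r.eval u.length ≤ r.eval m := eval_mono r hu
  have h3 : q.eval (y.length + u.length) ≤ q.eval (m + r.eval m) := eval_mono q (by omega)
  simp only [List.length_nil] at h1
  have h4 := hw a (by omega)
  simp only [orc, Set.mem_ofPred_eq, h4]

theorem p_LCD : Stmt_LCD := by
  intro w w' V q r u m L hu hL hw
  exact ⟨LCD_aux hu hL hw, LCD_aux hu hL fun a ha => (hw a ha).symm⟩

end Pool.RO
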