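import Pool.Agent.Work.MP_cb380d_ro.Interface

set_option autoImplicit false

open MeasureTheory Classical Finset
open scoped ENNReal

namespace Pool.RO

open Pool.IC

theorem LCG_out_length {B : Set Str} {M : Cmd} {p y z : Str} {n : ℕ} {o : Str}
    (h : out B M p y z n = some o) : o.length ≤ p.length + y.length + z.length + n := by
  unfold out at h
  split_ifs at h with h0
  have h1 := Option.some.inj h
  rw [← h1]
  exact length_iterate (B := B) (c := ([M], init p y z)) (length_init p y z) n 3

theorem p_LCG (h1 : Stmt_LOC) : Stmt_LCG := by
  intro w w' M p z L hL hw
  have h2 := h1 w w' M p z {a | L ≤ a.length} (by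
    intro a ha ha'
    rw [Set.mem_ofPred_eq] at ha'
    have := length_queries ha
    simp only [List.length_nil] at this
    omega) (by
    intro a ha
    rw [Set.mem_ofPred_eq] at ha
    exact hw a (by omega))
  refine ⟨h2.1, h2.2, ?_⟩
  unfold G
  cases h3 : out (orc w) M [] [] z (p.eval z.length) with
  | none =>
    simp only [Option.getD_none, List.length_nil]
    omega
  | some o =>
    have := LCG_out_length h3
    simp only [List.length_nil] at this
    simp only [Option.getD_some]
    omega

end Pool.RO
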