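import Pool.Agent.Work.MP_cb380d_ro.Interface

set_option autoImplicit false

open MeasureTheory Classical Finset
open scoped ENNReal

namespace Pool.RO

open Pool.IC

theorem LOC_queries {B B' : Set Str} {M : Cmd} {p y z : Str} {n : ℕ}
    (h : ∀ q ∈ queries B M p y z n, (q ∈ B ↔ q ∈ B')) :
    queries B' M p y z n = queries B M p y z n := by
  unfold queries
  refine Finset.biUnion_congr rfl fun j hj => ?_
  rw [Finset.mem_range] at hj
  have h1 : (step B)^[j] ([M], init p y z) = (step B')^[j] ([M], init p y z) := by
    refine iterate_congr fun i hi q hq => h q ?_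
    unfold queries
    rw [Finset.mem_biUnion]
    exact ⟨i, Finset.mem_range.2 (hi.trans hj), by simp [hq]⟩
  rw [h1]

theorem p_LOC : Stmt_LOC := by
  intro w w' M p z S hS hw
  have h : ∀ q ∈ queries (orc w) M [] [] z (p.eval z.length), (q ∈ orc w ↔ q ∈ orc w') := by
    intro q hq
    have h2 := hw q (hS q hq)
    simp only [orc, Set.mem_ofPred_eq, h2]
  refine ⟨?_, LOC_queries h⟩
  unfold G
  rw [out_congr le_rfl h]

end Pool.RO
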