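import Pool.Agent.Work.MP_cb380d_ro.Interface

/-! # Block MEA (helper43) -/

set_option autoImplicit false

open MeasureTheory Classical Finset
open scoped ENNReal

namespace Pool.RO

open Pool.IC

theorem p_MEA : Stmt_MEA := by
  intro S A hA
  have h1 : A = (fun (w : Om) (a : S) => w a) ⁻¹' ((fun (w : Om) (a : S) => w a) '' A) := by
    ext w
    constructor
    · intro hw
      exact ⟨w, hw, rfl⟩
    · rintro ⟨w', hw', he⟩
      exact (hA w' w (fun a ha => congrFun he ⟨a, ha⟩)).1 hw'
  rw [h1]
  apply MeasurableSet.preimage (Set.toFinite _).measurableSet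
  exact measurable_pi_iff.2 (fun a => measurable_pi_apply _)

end Pool.RO
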