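import Pool.Agent.Work.MP_cb380d_ro.Interface

set_option autoImplicit false

open MeasureTheory Classical Finset
open scoped ENNReal

namespace Pool.RO

open Pool.IC

theorem PAT_ad_inj (i j : ℕ) (x y : Str) (h : ad i x = ad j y) : i = j ∧ x = y := by
  have := rep_inj false i j x y (by simpa [ad] using h)
  exact this

theorem PAT_ad_len (i : ℕ) (x : Str) : (ad i x).length = i + 1 + x.length := by
  simp only [ad, List.length_append, List.length_replicate, List.length_cons]
  omega

theorem PAT_off (w : Om) (x : Str) : ∀ (v a : Str), (∀ i < v.length, a ≠ ad i x) →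
    pat w x v a = w a
  | [], a, _ => rfl
  | b :: v, a, h => by
    have h1 : a ≠ ad v.length x := h v.length (by simp)
    simp only [pat]
    rw [Function.update_of_ne h1]
    exact PAT_off w x v a fun i hi => h i (by simp only [List.length_cons]; omega)

theorem PAT_rd_len (w : Om) (x : Str) : ∀ k, (rd w x k).length = k
  | 0 => rfl
  | k + 1 => by
    simp only [rd, List.length_cons, PAT_rd_len w x k]

theorem PAT_rd_congr (w w' : Om) (x : Str) : ∀ k, (∀ i < k, w (ad i x) = w' (ad i x)) →
    rd w x k = rd w' x k
  | 0, _ => rfl
  | k + 1, h => by
    simp only [rd]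
    rw [h k (Nat.lt_succ_self k), PAT_rd_congr w w' x k fun i hi => h i (by omega)]

theorem PAT_rd_pat (w : Om) (x : Str) : ∀ v : Str, rd (pat w x v) x v.length = v
  | [] => rfl
  | b :: v => by
    simp only [List.length_cons, rd]
    have h1 : pat w x (b :: v) (ad v.length x) = b := by
      simp only [pat, Function.update_self]
    have h2 : rd (pat w x (b :: v)) x v.length = rd (pat w x v) x v.length := by
      refine PAT_rd_congr _ _ x v.length fun i hi => ?_
      have h3 : ad i x ≠ ad v.length x := fun h => by
        have := (PAT_ad_inj _ _ _ _ h).1
        omega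
      simp only [pat]
      rw [Function.update_of_ne h3]
    rw [h1, h2, PAT_rd_pat w x v]

theorem PAT_meas (x : Str) : ∀ v : Str, Measurable fun w : Om => pat w x v
  | [] => by
    simp only [pat]
    exact measurable_id
  | b :: v => by
    have h := PAT_meas x v
    refine measurable_pi_iff.2 fun a => ?_
    by_cases ha : a = ad v.length x
    · have : (fun w : Om => pat w x (b :: v) a) = fun _ => b := by
        funext w
        simp only [pat, ha, Function.update_self]
      rw [this]
      exact measurable_const
    · have : (fun w : Om => pat w x (b :: v) a) = fun w => pat w x v a := by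
        funext w
        simp only [pat]
        rw [Function.update_of_ne ha]
      rw [this]
      exact (measurable_pi_apply a).comp h

theorem p_PAT : Stmt_PAT :=
  ⟨PAT_ad_inj, PAT_ad_len, PAT_rd_pat, PAT_off, PAT_rd_len, PAT_rd_congr, PAT_meas⟩

end Pool.RO
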