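import Pool.Agent.Work.MP_cb380d_ro.Stage
import Pool.Agent.Work.OracleCmd_h91.Growth

/-! PFU: the new reduction is computable in polynomial time. -/

set_option autoImplicit false

open Classical

namespace Pool.RO

open Pool.IC

/-- Run a program after a preparation. -/
theorem out_tail {B : Set Str} {c M : Cmd} {p y z p' y' z' o : Str} {n m N : ℕ}
    (h : ExecLe B c (init p y z) n (init p' y' z')) (hM : out B M p' y' z' m = some o)
    (hN : n + 1 + m ≤ N) : out B (Cmd.seq c M) p y z N = some o := by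
  obtain ⟨n', hn', h⟩ := h
  have h1 : (step B)^[n' + 1] ([Cmd.seq c M], init p y z) = ([M], init p' y' z') := by
    rw [Function.iterate_succ_apply]
    exact h [M]
  have h2 : out B (Cmd.seq c M) p y z (m + (n' + 1)) = some o := by
    unfold out at hM ⊢
    rw [Function.iterate_add_apply, h1]
    exact hM
  exact out_mono h2 (by omega)

/-- An explicit store. -/
def sto (a0 a1 a2 a4 a5 a6 a8 a9 : Str) : Store
  | 0 => a0
  | 1 => a1
  | 2 => a2
  | 4 => a4
  | 5 => a5
  | 6 => a6
  | 8 => a8
  | 9 => a9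
  | _ => []

theorem init_sto (z : Str) : init [] [] z = sto [] [] z [] [] [] [] [] := by
  funext k
  rcases k with _ | _ | _ | _ | _ | _ | _ | _ | _ | _ | k <;> simp [init, sto]

theorem us_sto (t a : ℕ) (a2 a8 : Str) :
    us (sto [] [] a2 [] [] [] a8 []) t a 0 0 0 = sto (un t) (un a) a2 [] [] [] a8 [] := by
  funext k
  rcases k with _ | _ | _ | _ | _ | _ | _ | _ | _ | _ | k <;> rfl

/-- Push `c` times `true` on stack 0. -/
def push0 : ℕ → Cmd
  | 0 => Cmd.skip
  | c + 1 => Cmd.seq (Cmd.push 0 true) (push0 c)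

theorem push0_run (B : Set Str) (a2 : Str) (c : ℕ) : ∀ t : ℕ,
    ExecLe B (push0 c) (sto (un t) [] a2 [] [] [] [] []) (2 * c + 1)
      (sto (un (t + c)) [] a2 [] [] [] [] []) := by
  induction c with
  | zero => intro t; exact le_skip B _
  | succ c ih =>
    intro t
    have h1 : ExecLe B (Cmd.push 0 true) (sto (un t) [] a2 [] [] [] [] []) 1
        (sto (un (t + 1)) [] a2 [] [] [] [] []) := by
      refine le_push _ _ _ _ _ rfl ?_
      intro k hk
      rcases k with _ | _ | _ | _ | _ | _ | _ | _ | _ | _ | k <;> first | rfl | (exfalso; omega)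
    have h2 := h1.seq (ih (t + 1))
    rw [Nat.add_right_comm t 1 c] at h2
    exact h2.mono (by omega)

/-- The program up to the instance. -/
def pfu (κ c : ℕ) : Cmd :=
  Cmd.seq (mv 2 5) (Cmd.seq (dp 5 2 6) (Cmd.seq (on 6 0) (Cmd.seq (push0 c)
  (Cmd.seq (Cmd.push 1 true) (Cmd.seq (Cmd.push 1 true) (Cmd.seq (stP κ) (Cmd.seq (sqN κ)
  (Cmd.seq (mv 1 5) (Cmd.seq (dp 5 1 8) (Cmd.seq (sqN κ) (Cmd.seq (mv 2 5) (Cmd.seq (dp 5 2 4)
  (Cmd.seq (Cmd.push 4 false) (Cmd.seq (mv 1 4) (Cmd.seq (Cmd.push 4 true) (Cmd.seq (rdl 8 9)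
  (Cmd.seq (clr 4) (Cmd.seq (mv 9 4) (Cmd.seq (Cmd.push 4 false) (Cmd.seq (mv 2 5)
  (Cmd.seq (mk 5 4) (Cmd.seq (Cmd.push 4 false) (Cmd.seq (Cmd.push 4 false)
  (hidP 2))))))))))))))))))))))))

theorem pfu_run (hJ : Stmt_JJF) (w : Om) (κ c : ℕ) (hκ : 1 ≤ κ) (u : Str) :
    ExecLe (orc w) (pfu κ c) (init [] [] u)
      (1000 * (κ + 2) * (ns (2 ^ κ) (jj (2 ^ κ) (u.length + c) + 2) + u.length + c + 3) ^ 3)
      (init [] [] (hid w (ns (2 ^ κ) (jj (2 ^ κ) (u.length + c) + 1))
        (ns (2 ^ κ) (jj (2 ^ κ) (u.length + c) + 2)) u)) := by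
  set K := 2 ^ κ with hK
  set j := jj K (u.length + c) with hj
  set n := ns K j with hn
  set N := ns K (j + 1) with hN
  set Nf := ns K (j + 2) with hNf
  have hnN : n ^ 2 ^ κ = N := by rw [hn, hN, ns_succ, hK]
  have hNNf : N ^ 2 ^ κ = Nf := by rw [hN, hNf, ← hK]; exact (ns_succ K (j + 1)).symm
  have hK1 : 1 ≤ K := Nat.one_le_two_pow
  have hle1 : n ≤ Nf := ns_mono hK1 (by omega)
  have hle2 : N ≤ Nf := ns_mono hK1 (by omega)
  set B := orc w with hB
  have e1 : ExecLe B (mv 2 5) (sto [] [] u [] [] [] [] []) (5 * u.length + 1)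
      (sto [] [] [] [] u.reverse [] [] []) :=
    mv_run B (by norm_num) _ _ rfl (by simp [sto]) (by
        intro k; intros
        rcases k with _ | _ | _ | _ | _ | _ | _ | _ | _ | _ | k <;> first | rfl | (exfalso; omega))
  have e2 : ExecLe B (dp 5 2 6) (sto [] [] [] [] u.reverse [] [] []) (7 * u.length + 1)
      (sto [] [] u [] [] u [] []) := by
    have := dp_run B (i := 5) (j := 2) (k := 6) (by norm_num) (by norm_num) (by norm_num)
      (sto [] [] [] [] u.reverse [] [] []) (sto [] [] u [] [] u [] []) rfl (by simp [sto])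
      (by simp [sto]) (by
        intro k; intros
        rcases k with _ | _ | _ | _ | _ | _ | _ | _ | _ | _ | k <;> first | rfl | (exfalso; omega))
    refine this.mono ?_
    show 7 * u.reverse.length + 1 ≤ _
    simp
  have e3 : ExecLe B (on 6 0) (sto [] [] u [] [] u [] []) (5 * u.length + 1)
      (sto (un u.length) [] u [] [] [] [] []) :=
    on_run B (by norm_num) _ _ rfl (by simp [sto]) (by
        intro k; intros
        rcases k with _ | _ | _ | _ | _ | _ | _ | _ | _ | _ | k <;> first | rfl | (exfalso; omega))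
  have e4 := push0_run B u c u.length
  have e5 : ExecLe B (Cmd.push 1 true) (sto (un (u.length + c)) [] u [] [] [] [] []) 1
      (sto (un (u.length + c)) (un 1) u [] [] [] [] []) :=
    le_push _ _ _ _ _ rfl (by
        intro k; intros
        rcases k with _ | _ | _ | _ | _ | _ | _ | _ | _ | _ | k <;> first | rfl | (exfalso; omega))
  have e6 : ExecLe B (Cmd.push 1 true) (sto (un (u.length + c)) (un 1) u [] [] [] [] []) 1
      (sto (un (u.length + c)) (un 2) u [] [] [] [] []) :=
    le_push _ _ _ _ _ rfl (by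
        intro k; intros
        rcases k with _ | _ | _ | _ | _ | _ | _ | _ | _ | _ | k <;> first | rfl | (exfalso; omega))
  have e7 : ExecLe B (stP κ) (sto (un (u.length + c)) (un 2) u [] [] [] [] [])
      (100 * (κ + 2) * (n + 1) ^ 3) (sto [] (un n) u [] [] [] [] []) := by
    have := stP_run hJ B (sto [] [] u [] [] [] [] []) (u.length + c) κ hκ
    rw [us_sto, us_sto] at this
    exact this
  have e8 : ExecLe B (sqN κ) (sto [] (un n) u [] [] [] [] [])
      (61 * (κ + 1) * (N + 1) ^ 2) (sto [] (un N) u [] [] [] [] []) := by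
    have := sqN_run B (sto [] [] u [] [] [] [] []) 0 κ n
    rw [hnN, us_sto, us_sto] at this
    exact this
  have e9 : ExecLe B (mv 1 5) (sto [] (un N) u [] [] [] [] []) (5 * N + 1)
      (sto [] [] u [] (un N) [] [] []) := by
    have := mv_run B (i := 1) (j := 5) (by norm_num) (sto [] (un N) u [] [] [] [] [])
      (sto [] [] u [] (un N) [] [] []) rfl (by simp [sto]) (by
        intro k; intros
        rcases k with _ | _ | _ | _ | _ | _ | _ | _ | _ | _ | k <;> first | rfl | (exfalso; omega))
    refine this.mono ?_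
    show 5 * (un N).length + 1 ≤ _
    rw [un_len]
  have e10 : ExecLe B (dp 5 1 8) (sto [] [] u [] (un N) [] [] []) (7 * N + 1)
      (sto [] (un N) u [] [] [] (un N) []) := by
    have := dp_run B (i := 5) (j := 1) (k := 8) (by norm_num) (by norm_num) (by norm_num)
      (sto [] [] u [] (un N) [] [] []) (sto [] (un N) u [] [] [] (un N) []) rfl (by simp [sto])
      (by simp [sto]) (by
        intro k; intros
        rcases k with _ | _ | _ | _ | _ | _ | _ | _ | _ | _ | k <;> first | rfl | (exfalso; omega))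
    refine this.mono ?_
    show 7 * (un N).length + 1 ≤ _
    rw [un_len]
  have e11 : ExecLe B (sqN κ) (sto [] (un N) u [] [] [] (un N) [])
      (61 * (κ + 1) * (Nf + 1) ^ 2) (sto [] (un Nf) u [] [] [] (un N) []) := by
    have := sqN_run B (sto [] [] u [] [] [] (un N) []) 0 κ N
    rw [hNNf, us_sto, us_sto] at this
    exact this
  have e12 : ExecLe B (mv 2 5) (sto [] (un Nf) u [] [] [] (un N) []) (5 * u.length + 1)
      (sto [] (un Nf) [] [] u.reverse [] (un N) []) :=
    mv_run B (by norm_num) _ _ rfl (by simp [sto]) (by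
        intro k; intros
        rcases k with _ | _ | _ | _ | _ | _ | _ | _ | _ | _ | k <;> first | rfl | (exfalso; omega))
  have e13 : ExecLe B (dp 5 2 4) (sto [] (un Nf) [] [] u.reverse [] (un N) [])
      (7 * u.length + 1) (sto [] (un Nf) u u [] [] (un N) []) := by
    have := dp_run B (i := 5) (j := 2) (k := 4) (by norm_num) (by norm_num) (by norm_num)
      (sto [] (un Nf) [] [] u.reverse [] (un N) []) (sto [] (un Nf) u u [] [] (un N) []) rfl
      (by simp [sto]) (by simp [sto]) (by
        intro k; intros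
        rcases k with _ | _ | _ | _ | _ | _ | _ | _ | _ | _ | k <;> first | rfl | (exfalso; omega))
    refine this.mono ?_
    show 7 * u.reverse.length + 1 ≤ _
    simp
  have e14 : ExecLe B (Cmd.push 4 false) (sto [] (un Nf) u u [] [] (un N) []) 1
      (sto [] (un Nf) u (false :: u) [] [] (un N) []) :=
    le_push _ _ _ _ _ rfl (by
        intro k; intros
        rcases k with _ | _ | _ | _ | _ | _ | _ | _ | _ | _ | k <;> first | rfl | (exfalso; omega))
  have e15 : ExecLe B (mv 1 4) (sto [] (un Nf) u (false :: u) [] [] (un N) []) (5 * Nf + 1)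
      (sto [] [] u (yu Nf u) [] [] (un N) []) := by
    have := mv_run B (i := 1) (j := 4) (by norm_num)
      (sto [] (un Nf) u (false :: u) [] [] (un N) []) (sto [] [] u (yu Nf u) [] [] (un N) [])
      rfl (by simp [sto, yu]) (by
        intro k; intros
        rcases k with _ | _ | _ | _ | _ | _ | _ | _ | _ | _ | k <;> first | rfl | (exfalso; omega))
    refine this.mono ?_
    show 5 * (un Nf).length + 1 ≤ _
    rw [un_len]
  have e16 : ExecLe B (Cmd.push 4 true) (sto [] [] u (yu Nf u) [] [] (un N) []) 1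
      (sto [] [] u (true :: yu Nf u) [] [] (un N) []) :=
    le_push _ _ _ _ _ rfl (by
        intro k; intros
        rcases k with _ | _ | _ | _ | _ | _ | _ | _ | _ | _ | k <;> first | rfl | (exfalso; omega))
  have e17 : ExecLe B (rdl 8 9) (sto [] [] u (true :: yu Nf u) [] [] (un N) []) (7 * N + 1)
      (sto [] [] u (ad N (yu Nf u)) [] [] [] (rd w (yu Nf u) N)) := by
    have := rdl_run w (c := 8) (k := 9) (by norm_num) (by norm_num) (by norm_num)
      (sto [] [] u (true :: yu Nf u) [] [] (un N) [])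
      (sto [] [] u (ad N (yu Nf u)) [] [] [] (rd w (yu Nf u) N)) (yu Nf u) rfl rfl rfl
      (by simp [sto]) (by simp [sto]) (by
        intro k; intros
        rcases k with _ | _ | _ | _ | _ | _ | _ | _ | _ | _ | k <;> first | rfl | (exfalso; omega))
    refine this.mono ?_
    show 7 * (un N).length + 1 ≤ _
    rw [un_len]
  have e18 : ExecLe B (clr 4) (sto [] [] u (ad N (yu Nf u)) [] [] [] (rd w (yu Nf u) N))
      (2 * (N + Nf + u.length + 2) + 1) (sto [] [] u [] [] [] [] (rd w (yu Nf u) N)) := by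
    have := clr_run B (i := 4) (sto [] [] u (ad N (yu Nf u)) [] [] [] (rd w (yu Nf u) N))
      (sto [] [] u [] [] [] [] (rd w (yu Nf u) N)) rfl (by
        intro k; intros
        rcases k with _ | _ | _ | _ | _ | _ | _ | _ | _ | _ | k <;> first | rfl | (exfalso; omega))
    refine this.mono ?_
    show 2 * (ad N (yu Nf u)).length + 1 ≤ _
    simp only [ad, yu, List.length_append, List.length_replicate, List.length_cons]
    omega
  have hrd : (rd w (yu Nf u) N).length = N := by
    have : ∀ k, (rd w (yu Nf u) k).length = k := by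
      intro k
      induction k with
      | zero => rfl
      | succ k ih => rw [rd, List.length_cons, ih]
    exact this N
  have e19 : ExecLe B (mv 9 4) (sto [] [] u [] [] [] [] (rd w (yu Nf u) N)) (5 * N + 1)
      (sto [] [] u (seed w N Nf u) [] [] [] []) := by
    have := mv_run B (i := 9) (j := 4) (by norm_num)
      (sto [] [] u [] [] [] [] (rd w (yu Nf u) N)) (sto [] [] u (seed w N Nf u) [] [] [] [])
      rfl (by simp [sto, seed]) (by
        intro k; intros
        rcases k with _ | _ | _ | _ | _ | _ | _ | _ | _ | _ | k <;> first | rfl | (exfalso; omega))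
    refine this.mono ?_
    show 5 * (rd w (yu Nf u) N).length + 1 ≤ _
    rw [hrd]
  have e20 : ExecLe B (Cmd.push 4 false) (sto [] [] u (seed w N Nf u) [] [] [] []) 1
      (sto [] [] u (false :: seed w N Nf u) [] [] [] []) :=
    le_push _ _ _ _ _ rfl (by
        intro k; intros
        rcases k with _ | _ | _ | _ | _ | _ | _ | _ | _ | _ | k <;> first | rfl | (exfalso; omega))
  have e21 : ExecLe B (mv 2 5) (sto [] [] u (false :: seed w N Nf u) [] [] [] [])
      (5 * u.length + 1) (sto [] [] [] (false :: seed w N Nf u) u.reverse [] [] []) :=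
    mv_run B (by norm_num) _ _ rfl (by simp [sto]) (by
        intro k; intros
        rcases k with _ | _ | _ | _ | _ | _ | _ | _ | _ | _ | k <;> first | rfl | (exfalso; omega))
  have e22 : ExecLe B (mk 5 4) (sto [] [] [] (false :: seed w N Nf u) u.reverse [] [] [])
      (7 * u.length + 1) (sto [] [] [] (mark u ++ false :: seed w N Nf u) [] [] [] []) := by
    have := mk_run B (i := 5) (j := 4) (by norm_num)
      (sto [] [] [] (false :: seed w N Nf u) u.reverse [] [] [])
      (sto [] [] [] (mark u ++ false :: seed w N Nf u) [] [] [] []) rfl (by simp [sto])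
      (by
        intro k; intros
        rcases k with _ | _ | _ | _ | _ | _ | _ | _ | _ | _ | k <;> first | rfl | (exfalso; omega))
    refine this.mono ?_
    show 7 * u.reverse.length + 1 ≤ _
    simp
  have e23 : ExecLe B (Cmd.push 4 false)
      (sto [] [] [] (mark u ++ false :: seed w N Nf u) [] [] [] []) 1
      (sto [] [] [] (false :: (mark u ++ false :: seed w N Nf u)) [] [] [] []) :=
    le_push _ _ _ _ _ rfl (by
        intro k; intros
        rcases k with _ | _ | _ | _ | _ | _ | _ | _ | _ | _ | k <;> first | rfl | (exfalso; omega))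
  have e24 : ExecLe B (Cmd.push 4 false)
      (sto [] [] [] (false :: (mark u ++ false :: seed w N Nf u)) [] [] [] []) 1
      (sto [] [] [] (false :: false :: (mark u ++ false :: seed w N Nf u)) [] [] [] []) :=
    le_push _ _ _ _ _ rfl (by
        intro k; intros
        rcases k with _ | _ | _ | _ | _ | _ | _ | _ | _ | _ | k <;> first | rfl | (exfalso; omega))
  have e25 : ExecLe B (hidP 2)
      (sto [] [] [] (false :: false :: (mark u ++ false :: seed w N Nf u)) [] [] [] [])
      (40 * (N + 2 * u.length + 3) + 20) (sto [] [] (hid w N Nf u) [] [] [] [] []) := by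
    have := hidP_run w (k := 2) (by norm_num) (by norm_num)
      (sto [] [] [] (false :: false :: (mark u ++ false :: seed w N Nf u)) [] [] [] [])
      (sto [] [] (hid w N Nf u) [] [] [] [] []) rfl rfl rfl rfl rfl (by
        intro k; intros
        rcases k with _ | _ | _ | _ | _ | _ | _ | _ | _ | _ | k <;> first | rfl | (exfalso; omega))
    refine this.mono ?_
    show 40 * (false :: false :: (mark u ++ false :: seed w N Nf u)).length + 20 ≤ _
    simp only [List.length_cons, List.length_append, length_mark, seed, List.length_reverse, hrd]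
    omega
  rw [init_sto, init_sto]
  have hall := e1.seq (e2.seq (e3.seq (e4.seq (e5.seq (e6.seq (e7.seq (e8.seq (e9.seq (e10.seq
    (e11.seq (e12.seq (e13.seq (e14.seq (e15.seq (e16.seq (e17.seq (e18.seq (e19.seq (e20.seq
    (e21.seq (e22.seq (e23.seq (e24.seq e25)))))))))))))))))))))))
  refine hall.mono ?_
  set L := Nf + u.length + c + 3 with hL
  have g1 : (n + 1) ^ 3 ≤ L ^ 3 := Nat.pow_le_pow_left (by omega) 3
  have g2 : (N + 1) ^ 2 ≤ L ^ 2 := Nat.pow_le_pow_left (by omega) 2
  have g3 : (Nf + 1) ^ 2 ≤ L ^ 2 := Nat.pow_le_pow_left (by omega) 2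
  have g4 : L ^ 2 ≤ L ^ 3 := Nat.pow_le_pow_right (by omega) (by norm_num)
  have g5 : L ≤ L ^ 3 := Nat.le_self_pow (by norm_num) _
  have g6 : 100 * (κ + 2) * (n + 1) ^ 3 ≤ 100 * (κ + 2) * L ^ 3 := Nat.mul_le_mul_left _ g1
  have g7 : 61 * (κ + 1) * (N + 1) ^ 2 ≤ 61 * (κ + 1) * L ^ 3 :=
    Nat.mul_le_mul_left _ (g2.trans g4)
  have g8 : 61 * (κ + 1) * (Nf + 1) ^ 2 ≤ 61 * (κ + 1) * L ^ 3 :=
    Nat.mul_le_mul_left _ (g3.trans g4)
  have g9 : L ≤ (κ + 2) * L ^ 3 := by nlinarith
  have g10 : 100 * (κ + 2) * L ^ 3 + 61 * (κ + 1) * L ^ 3 + 61 * (κ + 1) * L ^ 3 ≤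
      222 * ((κ + 2) * L ^ 3) := by nlinarith
  have g11 : 1000 * (κ + 2) * L ^ 3 = 1000 * ((κ + 2) * L ^ 3) := by ring
  rw [g11]
  omega

theorem p_PFU (hJ : Stmt_JJF) : Stmt_PFU := by
  intro w M p κ c hκ hM
  have hK : 2 ≤ 2 ^ κ := by
    calc 2 = 2 ^ 1 := rfl
      _ ≤ 2 ^ κ := Nat.pow_le_pow_right (by norm_num) hκ
  set K := 2 ^ κ with hKdef
  refine ⟨Cmd.seq (pfu κ c) M,
    Polynomial.C (1000 * (κ + 2)) *
      ((Polynomial.X + Polynomial.C (c + 2)) ^ (K ^ 2 * K ^ 2) + Polynomial.X +
        Polynomial.C (c + 3)) ^ 3 + 1 +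
      p.comp (Polynomial.C 3 * ((Polynomial.X + Polynomial.C (c + 2)) ^ (K ^ 2 * K ^ 2) +
        Polynomial.C 2 * Polynomial.X + Polynomial.C 3)), ?_⟩
  intro u
  have h1 := pfu_run hJ w κ c hκ u
  rw [← hKdef] at h1
  refine out_tail h1 (hM _) ?_
  obtain ⟨-, -, -, h2, -, -⟩ := hJ K (u.length + c) hK
  set j := jj K (u.length + c) with hj
  have hN2 : ns K (j + 2) ≤ (u.length + (c + 2)) ^ (K ^ 2 * K ^ 2) := by
    have e : ns K (j + 2) = ns K j ^ K ^ 2 := by
      rw [show j + 2 = j + 1 + 1 from rfl, ns_succ, ns_succ, ← pow_mul, pow_two]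
    rw [e, pow_mul]
    refine (Nat.pow_le_pow_left h2 _).trans ?_
    rw [Nat.add_assoc]
  have hN1 : ns K (j + 1) ≤ ns K (j + 2) := ns_mono (by omega) (by omega)
  have hlen : (hid w (ns K (j + 1)) (ns K (j + 2)) u).length =
      3 * (ns K (j + 1) + 2 * u.length + 3) := by
    have hr : ∀ (x : Str) (k : ℕ), (rd w x k).length = k := by
      intro x k
      induction k with
      | zero => rfl
      | succ k ih => rw [rd, List.length_cons, ih]
    simp only [hid, Fh, hr, List.length_cons, List.length_append, length_mark, seed,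
      List.length_reverse]
    ring
  rw [hlen]
  simp only [Polynomial.eval_add, Polynomial.eval_mul, Polynomial.eval_C, Polynomial.eval_X,
    Polynomial.eval_pow, Polynomial.eval_one, Polynomial.eval_comp]
  refine Nat.add_le_add (Nat.add_le_add_right (Nat.mul_le_mul_left _
    (Nat.pow_le_pow_left (by omega) 3)) 1) (eval_mono p (by omega))

end Pool.RO
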