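import Pool.Agent.Work.MP_cb380d_ro.Verif
import Pool.Agent.Work.MP_cb380d_ro.B_PFU
import Pool.Agent.Work.OracleCmd_h91.Growth

/-! PNP: the language of the images of the good strings is in NP. -/

set_option autoImplicit false

open Classical

namespace Pool.RO

open Pool.IC

/-- Acceptance of the witness `W` for `z`. -/
def acc (w : Om) (V : Set (Str × Str)) : Str → Str → Prop
  | [], _ => False
  | true :: x, z => Fh w (true :: x) = z
  | false :: W, z =>
      Fh w (false :: false :: (mark (dec W).1 ++ false :: (dec (dec W).2).2)) = z ∧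
        ((dec (dec W).2).1, (dec W).1) ∈ V

/-- The verifier. -/
def vF (M : Cmd) : Cmd :=
  Cmd.seq (Cmd.seq (Cmd.pop 1) (Cmd.seq (prs 5) (Cmd.seq (prs 10) (Cmd.seq (mv 1 7)
    (Cmd.seq (mv 7 4) (Cmd.seq (Cmd.push 4 false) (Cmd.seq (mv 5 6) (Cmd.seq (dp 6 5 11)
      (Cmd.seq (mk 5 4) (Cmd.seq (Cmd.push 4 false) (Cmd.seq (Cmd.push 4 false)
        (Cmd.seq (hidP 8) cmp))))))))))))
    (Cmd.branch 9 (Cmd.push 3 false) Cmd.skip
      (Cmd.seq (Cmd.seq (Cmd.pop 9) (Cmd.seq (mv 10 1) (mv 11 2))) M))

def vT : Cmd :=
  Cmd.seq (mv 1 5) (Cmd.seq (mv 5 4) (Cmd.seq (hidP 8) (Cmd.seq cmp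
    (Cmd.branch 9 (Cmd.push 3 false) Cmd.skip (Cmd.push 3 true)))))

def vP (M : Cmd) : Cmd := Cmd.branch 1 (Cmd.push 3 false) (vF M) vT

theorem Fh_len (w : Om) (x : Str) : (Fh w x).length = 3 * x.length := by
  have : ∀ k, (rd w x k).length = k := by
    intro k
    induction k with
    | zero => rfl
    | succ k ih => rw [rd, List.length_cons, ih]
  exact this _

theorem vT_out (w : Om) (M : Cmd) (x z : Str) (n : ℕ)
    (hn : 200 * ((true :: x).length + z.length + 1) ≤ n) :
    out (orc w) (vP M) [] (true :: x) z n = some [decide (Fh w (true :: x) = z)] := by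
  set B := orc w with hB
  obtain ⟨X, hX⟩ : ∃ X, X = true :: x := ⟨_, rfl⟩
  rw [← hX] at hn ⊢
  have e1 : ExecLe B (mv 1 5) (st2 X z [] [] [] [] [] [] [] [] []) (5 * X.length + 1)
      (st2 [] z [] X.reverse [] [] [] [] [] [] []) :=
    mv_run B (by norm_num) _ _ rfl (by simp [st2]) (by
        intro k; intros
        rcases k with _ | _ | _ | _ | _ | _ | _ | _ | _ | _ | _ | _ | _ | k <;>
          first | rfl | (exfalso; omega))
  have e2 : ExecLe B (mv 5 4) (st2 [] z [] X.reverse [] [] [] [] [] [] []) (5 * X.length + 1)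
      (st2 [] z X [] [] [] [] [] [] [] []) := by
    have := mv_run B (i := 5) (j := 4) (by norm_num)
      (st2 [] z [] X.reverse [] [] [] [] [] [] []) (st2 [] z X [] [] [] [] [] [] [] [])
      rfl (by simp [st2]) (by
        intro k; intros
        rcases k with _ | _ | _ | _ | _ | _ | _ | _ | _ | _ | _ | _ | _ | k <;>
          first | rfl | (exfalso; omega))
    refine this.mono ?_
    show 5 * X.reverse.length + 1 ≤ _
    simp
  have e3 : ExecLe B (hidP 8) (st2 [] z X [] [] [] [] [] [] [] []) (40 * X.length + 20)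
      (st2 [] z [] [] [] [] (Fh w X) [] [] [] []) :=
    hidP_run w (k := 8) (by norm_num) (by norm_num) _ _ rfl rfl rfl rfl rfl (by
        intro k; intros
        rcases k with _ | _ | _ | _ | _ | _ | _ | _ | _ | _ | _ | _ | _ | k <;>
          first | rfl | (exfalso; omega))
  have e4 : ExecLe B cmp (st2 [] z [] [] [] [] (Fh w X) [] [] [] [])
      (10 * z.length + 2 * (3 * X.length) + 10)
      (st2 [] [] [] [] [] [] [] (fl (decide (Fh w X = z))) [] [] []) := by
    have := cmp_run B (st2 [] z [] [] [] [] (Fh w X) [] [] [] [])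
      (st2 [] [] [] [] [] [] [] (fl (decide (Fh w X = z))) [] [] []) rfl rfl rfl rfl (by
        intro k; intros
        rcases k with _ | _ | _ | _ | _ | _ | _ | _ | _ | _ | _ | _ | _ | k <;>
          first | rfl | (exfalso; omega))
    refine this.mono ?_
    show 10 * z.length + 2 * (Fh w X).length + 10 ≤ _
    rw [Fh_len]
  obtain ⟨s', e5, h5⟩ : ∃ s', ExecLe B (Cmd.branch 9 (Cmd.push 3 false) Cmd.skip (Cmd.push 3 true))
      (st2 [] [] [] [] [] [] [] (fl (decide (Fh w X = z))) [] [] []) 2 s' ∧
      s' 3 = [decide (Fh w X = z)] := by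
    by_cases h : Fh w X = z
    · rw [decide_eq_true h]
      refine ⟨_, ExecLe.branch_cons (b := true) (l := []) rfl
        ⟨1, le_rfl, exec_push B 3 true _⟩, ?_⟩
      rw [Function.update_self]; rfl
    · rw [decide_eq_false h]
      refine ⟨_, ExecLe.branch_nil rfl ⟨1, le_rfl, exec_push B 3 false _⟩, ?_⟩
      rw [Function.update_self]; rfl
  have hall := e1.seq (e2.seq (e3.seq (e4.seq e5)))
  have hb : ExecLe B (vP M) (init [] X z) n s' := by
    rw [init_st2]
    refine (ExecLe.branch_cons (b := true) (l := x) (by rw [hX]; rfl) hall).mono ?_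
    omega
  obtain ⟨k, hk, hb⟩ := hb
  rw [out_of_exec hb hk, h5]

/-- A branch at the end of a program. -/
theorem out_branch {B : Set Str} {i : ℕ} {e f t : Cmd} {s : Store} {b : Bool} {l : Str}
    (hi : s i = b :: l) (n : ℕ) :
    (step B)^[n + 1] ([Cmd.branch i e f t], s) = (step B)^[n] ([if b then t else f], s) := by
  rw [Function.iterate_succ_apply]
  cases b <;> simp [step, hi]

theorem vF_out (w : Om) (M : Cmd) (V : Set (Str × Str)) (q : Polynomial ℕ)
    (hV : ∀ y z : Str, out (orc w) M [] y z (q.eval (y.length + z.length)) =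
      some [decide ((y, z) ∈ V)]) (W z : Str) (n : ℕ)
    (hn : 400 * ((false :: W).length + z.length + 1) +
      q.eval (false :: W).length ≤ n) :
    out (orc w) (vP M) [] (false :: W) z n = some [decide (acc w V (false :: W) z)] := by
  set B := orc w with hB
  obtain ⟨u, hu⟩ : ∃ u, u = (dec W).1 := ⟨_, rfl⟩
  obtain ⟨W2, hW2⟩ : ∃ W2, W2 = (dec W).2 := ⟨_, rfl⟩
  obtain ⟨y, hy⟩ : ∃ y, y = (dec W2).1 := ⟨_, rfl⟩
  obtain ⟨ρ, hρ⟩ : ∃ ρ, ρ = (dec W2).2 := ⟨_, rfl⟩
  have hl1 := (dec_len W).2
  have hl2 := (dec_len W2).2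
  rw [← hu, ← hW2] at hl1
  rw [← hy, ← hρ] at hl2
  set X : Str := false :: false :: (mark u ++ false :: ρ) with hX
  have hXl : X.length = 2 * u.length + ρ.length + 3 := by
    simp only [hX, List.length_cons, List.length_append, length_mark]
    omega
  have e0 : ExecLe B (Cmd.pop 1) (st2 (false :: W) z [] [] [] [] [] [] [] [] []) 1
      (st2 W z [] [] [] [] [] [] [] [] []) := le_pop _ _ _ _ rfl (by
        intro k; intros
        rcases k with _ | _ | _ | _ | _ | _ | _ | _ | _ | _ | _ | _ | _ | k <;>
          first | rfl | (exfalso; omega))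
  have e1 : ExecLe B (prs 5) (st2 W z [] [] [] [] [] [] [] [] []) (8 * W.length + 10)
      (st2 W2 z [] u.reverse [] [] [] [] [] [] []) := by
    refine prs_run B (by norm_num) (by norm_num) _ _ rfl ?_ ?_ (by
        intro k; intros
        rcases k with _ | _ | _ | _ | _ | _ | _ | _ | _ | _ | _ | _ | _ | k <;>
          first | rfl | (exfalso; omega))
    · rw [hW2]; rfl
    · rw [hu]; simp [st2]
  have e2 : ExecLe B (prs 10) (st2 W2 z [] u.reverse [] [] [] [] [] [] [])
      (8 * W2.length + 10) (st2 ρ z [] u.reverse [] [] [] [] y.reverse [] []) := by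
    refine prs_run B (by norm_num) (by norm_num) _ _ rfl ?_ ?_ (by
        intro k; intros
        rcases k with _ | _ | _ | _ | _ | _ | _ | _ | _ | _ | _ | _ | _ | k <;>
          first | rfl | (exfalso; omega))
    · rw [hρ]; rfl
    · rw [hy]; simp [st2]
  have e3 : ExecLe B (mv 1 7) (st2 ρ z [] u.reverse [] [] [] [] y.reverse [] [])
      (5 * ρ.length + 1) (st2 [] z [] u.reverse [] ρ.reverse [] [] y.reverse [] []) :=
    mv_run B (by norm_num) _ _ rfl (by simp [st2]) (by
        intro k; intros
        rcases k with _ | _ | _ | _ | _ | _ | _ | _ | _ | _ | _ | _ | _ | k <;>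
          first | rfl | (exfalso; omega))
  have e4 : ExecLe B (mv 7 4) (st2 [] z [] u.reverse [] ρ.reverse [] [] y.reverse [] [])
      (5 * ρ.length + 1) (st2 [] z ρ u.reverse [] [] [] [] y.reverse [] []) := by
    have := mv_run B (i := 7) (j := 4) (by norm_num)
      (st2 [] z [] u.reverse [] ρ.reverse [] [] y.reverse [] [])
      (st2 [] z ρ u.reverse [] [] [] [] y.reverse [] []) rfl (by simp [st2]) (by
        intro k; intros
        rcases k with _ | _ | _ | _ | _ | _ | _ | _ | _ | _ | _ | _ | _ | k <;>
          first | rfl | (exfalso; omega))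
    refine this.mono ?_
    show 5 * ρ.reverse.length + 1 ≤ _
    simp
  have e5 : ExecLe B (Cmd.push 4 false) (st2 [] z ρ u.reverse [] [] [] [] y.reverse [] []) 1
      (st2 [] z (false :: ρ) u.reverse [] [] [] [] y.reverse [] []) :=
    le_push _ _ _ _ _ rfl (by
        intro k; intros
        rcases k with _ | _ | _ | _ | _ | _ | _ | _ | _ | _ | _ | _ | _ | k <;>
          first | rfl | (exfalso; omega))
  have e6 : ExecLe B (mv 5 6) (st2 [] z (false :: ρ) u.reverse [] [] [] [] y.reverse [] [])
      (5 * u.length + 1) (st2 [] z (false :: ρ) [] u [] [] [] y.reverse [] []) := by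
    have := mv_run B (i := 5) (j := 6) (by norm_num)
      (st2 [] z (false :: ρ) u.reverse [] [] [] [] y.reverse [] [])
      (st2 [] z (false :: ρ) [] u [] [] [] y.reverse [] []) rfl (by simp [st2]) (by
        intro k; intros
        rcases k with _ | _ | _ | _ | _ | _ | _ | _ | _ | _ | _ | _ | _ | k <;>
          first | rfl | (exfalso; omega))
    refine this.mono ?_
    show 5 * u.reverse.length + 1 ≤ _
    simp
  have e7 : ExecLe B (dp 6 5 11) (st2 [] z (false :: ρ) [] u [] [] [] y.reverse [] [])
      (7 * u.length + 1) (st2 [] z (false :: ρ) u.reverse [] [] [] [] y.reverse u.reverse []) :=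
    dp_run B (by norm_num) (by norm_num) (by norm_num) _ _ rfl (by simp [st2])
      (by simp [st2]) (by
        intro k; intros
        rcases k with _ | _ | _ | _ | _ | _ | _ | _ | _ | _ | _ | _ | _ | k <;>
          first | rfl | (exfalso; omega))
  have e8 : ExecLe B (mk 5 4) (st2 [] z (false :: ρ) u.reverse [] [] [] [] y.reverse u.reverse [])
      (7 * u.length + 1)
      (st2 [] z (mark u ++ false :: ρ) [] [] [] [] [] y.reverse u.reverse []) := by
    have := mk_run B (i := 5) (j := 4) (by norm_num)
      (st2 [] z (false :: ρ) u.reverse [] [] [] [] y.reverse u.reverse [])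
      (st2 [] z (mark u ++ false :: ρ) [] [] [] [] [] y.reverse u.reverse []) rfl
      (by simp [st2]) (by
        intro k; intros
        rcases k with _ | _ | _ | _ | _ | _ | _ | _ | _ | _ | _ | _ | _ | k <;>
          first | rfl | (exfalso; omega))
    refine this.mono ?_
    show 7 * u.reverse.length + 1 ≤ _
    simp
  have e9 : ExecLe B (Cmd.push 4 false)
      (st2 [] z (mark u ++ false :: ρ) [] [] [] [] [] y.reverse u.reverse []) 1
      (st2 [] z (false :: (mark u ++ false :: ρ)) [] [] [] [] [] y.reverse u.reverse []) :=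
    le_push _ _ _ _ _ rfl (by
        intro k; intros
        rcases k with _ | _ | _ | _ | _ | _ | _ | _ | _ | _ | _ | _ | _ | k <;>
          first | rfl | (exfalso; omega))
  have e10 : ExecLe B (Cmd.push 4 false)
      (st2 [] z (false :: (mark u ++ false :: ρ)) [] [] [] [] [] y.reverse u.reverse []) 1
      (st2 [] z X [] [] [] [] [] y.reverse u.reverse []) :=
    le_push _ _ _ _ _ rfl (by
        intro k; intros
        rcases k with _ | _ | _ | _ | _ | _ | _ | _ | _ | _ | _ | _ | _ | k <;>
          first | rfl | (exfalso; omega))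
  have e11 : ExecLe B (hidP 8) (st2 [] z X [] [] [] [] [] y.reverse u.reverse [])
      (40 * X.length + 20) (st2 [] z [] [] [] [] (Fh w X) [] y.reverse u.reverse []) :=
    hidP_run w (k := 8) (by norm_num) (by norm_num) _ _ rfl rfl rfl rfl rfl (by
        intro k; intros
        rcases k with _ | _ | _ | _ | _ | _ | _ | _ | _ | _ | _ | _ | _ | k <;>
          first | rfl | (exfalso; omega))
  have e12 : ExecLe B cmp (st2 [] z [] [] [] [] (Fh w X) [] y.reverse u.reverse [])
      (10 * z.length + 2 * (3 * X.length) + 10)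
      (st2 [] [] [] [] [] [] [] (fl (decide (Fh w X = z))) y.reverse u.reverse []) := by
    have := cmp_run B (st2 [] z [] [] [] [] (Fh w X) [] y.reverse u.reverse [])
      (st2 [] [] [] [] [] [] [] (fl (decide (Fh w X = z))) y.reverse u.reverse [])
      rfl rfl rfl rfl (by
        intro k; intros
        rcases k with _ | _ | _ | _ | _ | _ | _ | _ | _ | _ | _ | _ | _ | k <;>
          first | rfl | (exfalso; omega))
    refine this.mono ?_
    show 10 * z.length + 2 * (Fh w X).length + 10 ≤ _
    rw [Fh_len]
  have hall := e0.seq (e1.seq (e2.seq (e3.seq (e4.seq (e5.seq (e6.seq (e7.seq (e8.seq (e9.seq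
    (e10.seq (e11.seq e12)))))))))))
  have hacc : acc w V (false :: W) z ↔ Fh w X = z ∧ (y, u) ∈ V := by
    rw [acc, ← hu, ← hW2, ← hy, ← hρ]
  have hlen : (false :: W).length = W.length + 1 := rfl
  have hqle : q.eval (y.length + u.length) ≤ q.eval (false :: W).length :=
    eval_mono q (by omega)
  obtain ⟨k, hk, hall⟩ := hall
  have hk' : k ≤ 300 * ((false :: W).length + z.length + 1) := by
    refine hk.trans ?_
    omega
  have hstart : (step B)^[k + 2] ([vP M], init [] (false :: W) z) =
      ([Cmd.branch 9 (Cmd.push 3 false) Cmd.skip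
        (Cmd.seq (Cmd.seq (Cmd.pop 9) (Cmd.seq (mv 10 1) (mv 11 2))) M)],
        st2 [] [] [] [] [] [] [] (fl (decide (Fh w X = z))) y.reverse u.reverse []) := by
    rw [init_st2]
    have h1 : (step B)^[k + 2] ([vP M], st2 (false :: W) z [] [] [] [] [] [] [] [] []) =
        (step B)^[k + 1] ([vF M], st2 (false :: W) z [] [] [] [] [] [] [] [] []) :=
      out_branch (b := false) (l := W) rfl (k + 1)
    rw [h1, Function.iterate_succ_apply]
    exact hall [_]
  by_cases h : Fh w X = z
  · -- run the verifier of `D`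
    rw [decide_eq_true h] at hstart
    have g1 : ExecLe B (Cmd.pop 9)
        (st2 [] [] [] [] [] [] [] (fl true) y.reverse u.reverse []) 1
        (st2 [] [] [] [] [] [] [] [] y.reverse u.reverse []) := le_pop _ _ _ _ rfl (by
        intro k; intros
        rcases k with _ | _ | _ | _ | _ | _ | _ | _ | _ | _ | _ | _ | _ | k <;>
          first | rfl | (exfalso; omega))
    have g2 : ExecLe B (mv 10 1) (st2 [] [] [] [] [] [] [] [] y.reverse u.reverse [])
        (5 * y.length + 1) (st2 y [] [] [] [] [] [] [] [] u.reverse []) := by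
      have := mv_run B (i := 10) (j := 1) (by norm_num)
        (st2 [] [] [] [] [] [] [] [] y.reverse u.reverse [])
        (st2 y [] [] [] [] [] [] [] [] u.reverse []) rfl (by simp [st2]) (by
        intro k; intros
        rcases k with _ | _ | _ | _ | _ | _ | _ | _ | _ | _ | _ | _ | _ | k <;>
          first | rfl | (exfalso; omega))
      refine this.mono ?_
      show 5 * y.reverse.length + 1 ≤ _
      simp
    have g3 : ExecLe B (mv 11 2) (st2 y [] [] [] [] [] [] [] [] u.reverse [])
        (5 * u.length + 1) (st2 y u [] [] [] [] [] [] [] [] []) := by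
      have := mv_run B (i := 11) (j := 2) (by norm_num)
        (st2 y [] [] [] [] [] [] [] [] u.reverse []) (st2 y u [] [] [] [] [] [] [] [] [])
        rfl (by simp [st2]) (by
        intro k; intros
        rcases k with _ | _ | _ | _ | _ | _ | _ | _ | _ | _ | _ | _ | _ | k <;>
          first | rfl | (exfalso; omega))
      refine this.mono ?_
      show 5 * u.reverse.length + 1 ≤ _
      simp
    obtain ⟨k2, hk2, hg⟩ := g1.seq (g2.seq g3)
    have h2 : (step B)^[k2 + 2] ([Cmd.branch 9 (Cmd.push 3 false) Cmd.skip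
        (Cmd.seq (Cmd.seq (Cmd.pop 9) (Cmd.seq (mv 10 1) (mv 11 2))) M)],
        st2 [] [] [] [] [] [] [] (fl true) y.reverse u.reverse []) =
        ([M], init [] y u) := by
      rw [init_st2]
      have h1 : (step B)^[k2 + 2] ([Cmd.branch 9 (Cmd.push 3 false) Cmd.skip
          (Cmd.seq (Cmd.seq (Cmd.pop 9) (Cmd.seq (mv 10 1) (mv 11 2))) M)],
          st2 [] [] [] [] [] [] [] (fl true) y.reverse u.reverse []) =
          (step B)^[k2 + 1]
            ([Cmd.seq (Cmd.seq (Cmd.pop 9) (Cmd.seq (mv 10 1) (mv 11 2))) M],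
            st2 [] [] [] [] [] [] [] (fl true) y.reverse u.reverse []) :=
        out_branch (b := true) (l := []) rfl (k2 + 1)
      rw [h1, Function.iterate_succ_apply]
      exact hg [M]
    have hM := hV y u
    have h3 : out B (vP M) [] (false :: W) z
        (q.eval (y.length + u.length) + ((k2 + 2) + (k + 2))) =
        some [decide ((y, u) ∈ V)] := by
      unfold out at hM ⊢
      rw [Function.iterate_add_apply, Function.iterate_add_apply, hstart, h2]
      exact hM
    have h4 := out_mono h3 (N := n) (by omega)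
    rw [h4]
    congr 2
    exact decide_eq_decide.2 (by rw [hacc]; exact ⟨fun a => ⟨h, a⟩, fun a => a.2⟩)
  · rw [decide_eq_false h] at hstart
    have h2 : (step B)^[2] ([Cmd.branch 9 (Cmd.push 3 false) Cmd.skip
        (Cmd.seq (Cmd.seq (Cmd.pop 9) (Cmd.seq (mv 10 1) (mv 11 2))) M)],
        st2 [] [] [] [] [] [] [] (fl false) y.reverse u.reverse []) =
        ([], Function.update (st2 [] [] [] [] [] [] [] (fl false) y.reverse u.reverse []) 3
          [false]) := by
      have := exec_branch_nil (B := B) (i := 9) (e := Cmd.push 3 false) (f := Cmd.skip)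
        (t := Cmd.seq (Cmd.seq (Cmd.pop 9) (Cmd.seq (mv 10 1) (mv 11 2))) M)
        (s := st2 [] [] [] [] [] [] [] (fl false) y.reverse u.reverse []) rfl
        (exec_push B 3 false _)
      exact this []
    have h3 : out B (vP M) [] (false :: W) z (2 + (k + 2)) = some [false] := by
      unfold out
      rw [Function.iterate_add_apply, hstart, h2]
      simp
    have h4 := out_mono h3 (N := n) (by omega)
    rw [h4]
    congr 2
    exact (decide_eq_false (by rw [hacc]; exact fun a => h a.1)).symm

theorem vP_out (w : Om) (M : Cmd) (V : Set (Str × Str)) (q : Polynomial ℕ)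
    (hV : ∀ y z : Str, out (orc w) M [] y z (q.eval (y.length + z.length)) =
      some [decide ((y, z) ∈ V)]) (W z : Str) (n : ℕ)
    (hn : 400 * (W.length + z.length + 1) + q.eval W.length ≤ n) :
    out (orc w) (vP M) [] W z n = some [decide (acc w V W z)] := by
  rcases W with _ | ⟨b, W⟩
  · have h1 := exec_branch_nil (B := orc w) (i := 1) (e := Cmd.push 3 false) (f := vF M)
      (t := vT) (s := init [] [] z) (by simp [init]) (exec_push (orc w) 3 false _)
    rw [show vP M = Cmd.branch 1 (Cmd.push 3 false) (vF M) vT from rfl,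
      out_of_exec h1 (by omega)]
    simp [acc, init]
  · cases b
    · exact vF_out w M V q hV W z n hn
    · have h1 : 200 * ((true :: W).length + z.length + 1) ≤ n := by omega
      rw [vT_out w M W z n h1]
      congr 2
      exact decide_eq_decide.2 Iff.rfl

theorem p_PNP : Stmt_PNP := by
  rintro w D ⟨M, q, r, V, h1, h2, h3⟩
  refine ⟨vP M, Polynomial.C 400 * (Polynomial.X + 1) + q, Polynomial.C 3 + Polynomial.X +
    Polynomial.C 2 * r, {a | acc w V a.1 a.2}, ?_, ?_, ?_⟩
  · intro W z
    have := vP_out w M V q h1 W z ((Polynomial.C 400 * (Polynomial.X + 1) + q).eval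
      (W.length + z.length)) (by
        simp only [Polynomial.eval_add, Polynomial.eval_mul, Polynomial.eval_C,
          Polynomial.eval_X, Polynomial.eval_one]
        exact Nat.add_le_add_left (eval_mono q (by omega)) _)
    exact this
  · intro W z hW
    have hW' : acc w V W z := hW
    simp only [Polynomial.eval_add, Polynomial.eval_mul, Polynomial.eval_C,
      Polynomial.eval_X]
    rcases W with _ | ⟨b, W⟩
    · simp
    · cases b
      · obtain ⟨ha, hb⟩ := hW'
        have g1 := (dec_len W).1
        have g2 := (dec_len (dec W).2).1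
        have g3 := h2 _ _ hb
        have g4 : z.length = 3 * (2 * (dec W).1.length + (dec (dec W).2).2.length + 3) := by
          rw [← ha, Fh_len]
          simp only [List.length_cons, List.length_append, length_mark]
          ring
        have g5 : r.eval (dec W).1.length ≤ r.eval z.length := eval_mono r (by omega)
        simp only [List.length_cons]
        omega
      · have ha : Fh w (true :: W) = z := hW'
        have g4 : z.length = 3 * (W.length + 1) := by
          rw [← ha, Fh_len]; rfl
        simp only [List.length_cons]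
        omega
  · intro z
    constructor
    · rintro ⟨x, (⟨t, rfl⟩ | ⟨u, ρ, rfl, hu⟩), hx⟩
      · exact ⟨true :: t, hx⟩
      · obtain ⟨y, hy⟩ := (h3 u).1 hu
        refine ⟨false :: (mark u ++ false :: (mark y ++ false :: ρ)), ?_⟩
        show acc w V (false :: (mark u ++ false :: (mark y ++ false :: ρ))) z
        rw [acc, dec_mark, dec_mark]
        exact ⟨hx, hy⟩
    · rintro ⟨W, hW⟩
      have hW' : acc w V W z := hW
      rcases W with _ | ⟨b, W⟩
      · exact absurd hW' (by simp [acc])
      · cases b
        · obtain ⟨ha, hb⟩ := hW'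
          exact ⟨_, Or.inr ⟨_, _, rfl, (h3 _).2 ⟨_, hb⟩⟩, ha⟩
        · exact ⟨true :: W, Or.inl ⟨W, rfl⟩, hW'⟩

end Pool.RO
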