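import Pool.Agent.Work.MP_cb380d_ro.Interface

/-!
# Block PRM: permutations of the coordinates preserve the measure
-/

set_option autoImplicit false

open MeasureTheory Classical Finset
open scoped ENNReal

namespace Pool.RO

open Pool.IC

theorem p_PRM : Stmt_PRM := by
  intro g hg A hA
  have hmeas : Measurable fun (w : Om) => (fun a => w (g a)) := by
    rw [measurable_pi_iff]
    intro a
    exact measurable_pi_apply (g a)
  have h1 : Measure.map (fun (w : Om) => (fun a => w (g a))) coin = coin := by
    have h2 := Measure.infinitePi_map_piCongrLeft (X := fun _ : Str => Bool)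
      (μ := fun _ : Str => fair) (hg.toPerm g)
    have h3 : (fun (w : Om) => (fun a => w (g a))) =
        ⇑(MeasurableEquiv.piCongrLeft (fun _ : Str => Bool) (hg.toPerm g)) := by
      funext w a
      have e : a = (hg.toPerm g) (g a) := by
        rw [Function.Involutive.coe_toPerm, hg a]
      conv_rhs => rw [e]
      rw [MeasurableEquiv.coe_piCongrLeft, Equiv.piCongrLeft_apply_apply]
    rw [h3]
    exact h2
  calc coin {w | (fun a => w (g a)) ∈ A}
      = Measure.map (fun (w : Om) => (fun a => w (g a))) coin A := by
        rw [Measure.map_apply hmeas hA]
        rfl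
    _ = coin A := by rw [h1]

end Pool.RO
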