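import Pool.Agent.Work.MP_cb380d_ro.Interface

/-!
# Block RES: the bits at the addresses belonging to a string can be resampled (helper63)
-/

set_option autoImplicit false

open MeasureTheory Classical Finset
open scoped ENNReal

namespace Pool.RO

open Pool.IC

theorem RES_strs (k : ℕ) (f : Str → ℝ≥0∞) :
    ∑ v ∈ strs (k + 1), f v = ∑ v ∈ strs k, (f (true :: v) + f (false :: v)) := by
  have h1 : strs (k + 1) = ((strs k).image fun v => true :: v) ∪
      ((strs k).image fun v => false :: v) := by
    ext z
    rw [mem_union, mem_image, mem_image, mem_strs]
    constructor
    · intro h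
      cases z with
      | nil => simp at h
      | cons b v =>
        have hv : v ∈ strs k := mem_strs.2 (by simpa using h)
        cases b
        · exact Or.inr ⟨v, hv, rfl⟩
        · exact Or.inl ⟨v, hv, rfl⟩
    · rintro (⟨v, hv, rfl⟩ | ⟨v, hv, rfl⟩) <;>
      · rw [mem_strs] at hv
        simp [hv]
  have hd : Disjoint ((strs k).image fun v => true :: v) ((strs k).image fun v => false :: v) := by
    rw [Finset.disjoint_left]
    intro z hz hz'
    rw [mem_image] at hz hz'
    obtain ⟨v, -, rfl⟩ := hz
    obtain ⟨v', -, h⟩ := hz'
    simp at h
  rw [h1, sum_union hd, sum_image (fun a _ b _ h => (List.cons.inj h).2),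
    sum_image (fun a _ b _ h => (List.cons.inj h).2), ← sum_add_distrib]

theorem p_RES (h1 : Stmt_UPD) (_h2 : Stmt_PAT) : Stmt_RES := by
  intro x k
  induction k with
  | zero =>
    intro A _
    have h0 : strs 0 = {[]} := by
      ext z
      rw [mem_strs, mem_singleton, List.length_eq_zero_iff]
    rw [h0, sum_singleton, pow_zero, one_mul]
    rfl
  | succ k ih =>
    intro A hA
    have hm : ∀ b : Bool, MeasurableSet {w : Om | Function.update w (ad k x) b ∈ A} := by
      intro b
      have hmeas : Measurable fun w : Om => Function.update w (ad k x) b := by
        refine measurable_pi_iff.2 fun a => ?_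
        by_cases ha : a = ad k x
        · have : (fun w : Om => Function.update w (ad k x) b a) = fun _ => b := by
            funext w
            rw [ha, Function.update_self]
          rw [this]
          exact measurable_const
        · have : (fun w : Om => Function.update w (ad k x) b a) = fun w => w a := by
            funext w
            rw [Function.update_of_ne ha]
          rw [this]
          exact measurable_pi_apply a
      exact hmeas hA
    rw [RES_strs]
    have e : ∀ v ∈ strs k, coin {w | pat w x (true :: v) ∈ A} + coin {w | pat w x (false :: v) ∈ A} =
        coin {w | pat w x v ∈ {w : Om | Function.update w (ad k x) true ∈ A}} +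
          coin {w | pat w x v ∈ {w : Om | Function.update w (ad k x) false ∈ A}} := by
      intro v hv
      rw [mem_strs] at hv
      have e1 : ∀ b : Bool, {w | pat w x (b :: v) ∈ A} =
          {w | pat w x v ∈ {w : Om | Function.update w (ad k x) b ∈ A}} := by
        intro b
        ext w
        simp only [Set.mem_ofPred_eq, pat, hv]
      rw [e1 true, e1 false]
    rw [sum_congr rfl e, sum_add_distrib, ih _ (hm true), ih _ (hm false), ← mul_add,
      h1 (ad k x) A hA, pow_succ, mul_assoc]

end Pool.RO
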