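import Pool.Agent.Work.MP_cb380d_ro.B_COL

set_option autoImplicit false

open MeasureTheory Classical Finset
open scoped ENNReal

namespace Pool.RO

open Pool.IC

/-- Cauchy-Schwarz for the number of collisions. -/
theorem SHO.cs {α β : Type} [DecidableEq β] (X : Finset α) (Y : Finset β) (f : α → β)
    (hf : ∀ x ∈ X, f x ∈ Y) :
    X.card ^ 2 ≤ Y.card * ((X ×ˢ X).filter fun a => f a.1 = f a.2).card := by
  have h1 : X.card = ∑ y ∈ Y, (X.filter fun x => f x = y).card :=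
    card_eq_sum_card_fiberwise hf
  have h2 : ((X ×ˢ X).filter fun a => f a.1 = f a.2).card =
      ∑ y ∈ Y, (X.filter fun x => f x = y).card ^ 2 := by
    have h3 : ∀ a ∈ (X ×ˢ X).filter (fun a => f a.1 = f a.2), f a.1 ∈ Y := by
      intro a ha
      exact hf _ (mem_product.1 (mem_filter.1 ha).1).1
    rw [card_eq_sum_card_fiberwise h3]
    refine sum_congr rfl fun y _ => ?_
    rw [pow_two, ← card_product]
    congr 1
    ext a
    simp only [mem_filter, mem_product]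
    constructor
    · rintro ⟨⟨⟨h4, h5⟩, h6⟩, h7⟩
      exact ⟨⟨h4, h7⟩, h5, by rw [← h6]; exact h7⟩
    · rintro ⟨⟨h4, h5⟩, h6, h7⟩
      exact ⟨⟨⟨h4, h6⟩, by rw [h5, h7]⟩, h5⟩
  rw [h2, h1]
  exact sq_sum_le_card_mul_sum_sq

theorem p_SHO (hMEA : Stmt_MEA) (hRES : Stmt_RES) (hCN2 : Stmt_CN2) (hSLT : Stmt_SLT)
    (hGGL : Stmt_GGL) (hFDE : Stmt_FDE) : Stmt_SHO := by
  intro M p N m s Nf l a u h1 h2 hu hs
  obtain ⟨g1, g2, g3, g4, g5⟩ := hGGL M p N m Nf u h1 hu h2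
  set L := N + Nf + m + 3 with hL
  have hBB : FD (short L) (BB M p N m s) := COL.fd_BB hFDE M p N m s L h1 (by omega) (by omega)
  set A : Set Om := {w | (gg w M p N Nf u).length ≤ l} \ BB M p N m s with hA
  have hAfd : FD (short L) A := by
    refine COL.fd_diff ?_ hBB
    intro w w' hw
    have hw' : ∀ a : Str, a.length < L → w a = w' a := fun a ha => hw a (mem_short.2 ha)
    change (gg w M p N Nf u).length ≤ l ↔ (gg w' M p N Nf u).length ≤ l
    rw [g1 w w' hw']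
  have r1 := hRES (yu Nf u) N A (hMEA _ _ hAfd)
  have hslot : ∀ v : Str, v.length = N → mark u ++ false :: v.reverse ∈ Sl N m := by
    intro v hv
    exact (hSLT.2.1 N m _).2 ⟨u, v.reverse, rfl, hu, by simpa using hv⟩
  have key : ∀ v ∈ strs N, ∀ w : Om, (pat w (yu Nf u) v ∈ A ↔
      (gt w M p (mark u ++ false :: v.reverse)).length ≤ l ∧ w ∉ BB M p N m s) := by
    intro v hv w
    have hv1 : v.length = N := mem_strs.1 hv
    change ((gg (pat w (yu Nf u) v) M p N Nf u).length ≤ l ∧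
      pat w (yu Nf u) v ∉ BB M p N m s) ↔ _
    rw [g2 _ _ hv1, g5 w v u s]
  have hmeas : ∀ v ∈ strs N, MeasurableSet {w | pat w (yu Nf u) v ∈ A} := by
    intro v _
    exact hMEA _ _ (COL.fd_pat hAfd (yu Nf u) v)
  have hcn := hCN2 Str (strs N) (fun v => {w | pat w (yu Nf u) v ∈ A}) ((BB M p N m s)ᶜ)
    (2 ^ N / 2 ^ a) hmeas (hMEA _ _ (COL.fd_compl hBB))
    (fun v hv w hw => ((key v hv w).1 hw).2) ?_
  · rw [r1] at hcn
    have hb : ((2 ^ N / 2 ^ a : ℕ) : ℝ≥0∞) * coin ((BB M p N m s)ᶜ) ≤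
        ((2 ^ N / 2 ^ a : ℕ) : ℝ≥0∞) := by
      calc _ ≤ ((2 ^ N / 2 ^ a : ℕ) : ℝ≥0∞) * 1 := by
            gcongr
            exact prob_le_one
        _ = _ := mul_one _
    have hc : (2 : ℝ≥0∞) ^ a * ((2 ^ N / 2 ^ a : ℕ) : ℝ≥0∞) ≤ 2 ^ N := by
      have h5 : 2 ^ a * (2 ^ N / 2 ^ a) ≤ 2 ^ N := Nat.mul_div_le _ _
      exact_mod_cast h5
    have h6 : (2 : ℝ≥0∞) ^ N * (2 ^ a * coin A) ≤ 2 ^ N * 1 := by
      calc (2 : ℝ≥0∞) ^ N * (2 ^ a * coin A) = 2 ^ a * (2 ^ N * coin A) := by ring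
        _ ≤ 2 ^ a * ((2 ^ N / 2 ^ a : ℕ) : ℝ≥0∞) := by
            gcongr; exact hcn.trans hb
        _ ≤ 2 ^ N := hc
        _ = 2 ^ N * 1 := (mul_one _).symm
    have h7 : (2 : ℝ≥0∞) ^ N ≠ 0 := by positivity
    have h8 : (2 : ℝ≥0∞) ^ N ≠ ⊤ := ENNReal.pow_ne_top (by norm_num)
    exact (ENNReal.mul_le_mul_iff_right h7 h8).1 h6
  · intro w hw
    rw [Nat.le_div_iff_mul_le (by positivity)]
    have hBB' : 2 ^ s * Cl w M p N m < (Sl N m).card ^ 2 := by
      have : ¬ (Sl N m).card ^ 2 ≤ 2 ^ s * Cl w M p N m := hw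
      omega
    set X : Finset Str := (strs N).filter fun v => w ∈ {w | pat w (yu Nf u) v ∈ A} with hX
    have hXm : ∀ v ∈ X, v ∈ strs N ∧ (gt w M p (mark u ++ false :: v.reverse)).length ≤ l := by
      intro v hv
      simp only [hX, mem_filter] at hv
      exact ⟨hv.1, ((key v hv.1 w).1 hv.2).1⟩
    have hcs := SHO.cs X (short (l + 1)) (fun v => gt w M p (mark u ++ false :: v.reverse))
      (fun v hv => mem_short.2 (Nat.lt_succ_of_le (hXm v hv).2))
    have hcl : ((X ×ˢ X).filter fun a : Str × Str => gt w M p (mark u ++ false :: a.1.reverse) =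
        gt w M p (mark u ++ false :: a.2.reverse)).card ≤ Cl w M p N m := by
      unfold Cl
      refine card_le_card_of_injOn (fun a : Str × Str =>
        (mark u ++ false :: a.1.reverse, mark u ++ false :: a.2.reverse)) ?_ ?_
      · intro b hb
        simp only [mem_coe, mem_filter, mem_product] at hb ⊢
        exact ⟨⟨hslot b.1 (mem_strs.1 (hXm _ hb.1.1).1), hslot b.2 (mem_strs.1 (hXm _ hb.1.2).1)⟩,
          hb.2⟩
      · intro b _ c _ hbc
        simp only [Prod.mk.injEq] at hbc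
        have e1 := (hSLT.1 _ _ _ _ hbc.1).2
        have e2 := (hSLT.1 _ _ _ _ hbc.2).2
        ext1
        · exact List.reverse_injective e1
        · exact List.reverse_injective e2
    have hsh : (short (l + 1)).card ≤ 2 ^ (l + 1) := by
      have := card_short (l + 1)
      omega
    have hSl := (hSLT.2.2.2.1 N m).2
    -- conclusion
    have h9 : 2 ^ s * X.card ^ 2 ≤ 2 ^ (l + 1) * (2 ^ (m + 1) * 2 ^ N) ^ 2 := by
      calc 2 ^ s * X.card ^ 2 ≤ 2 ^ s * (2 ^ (l + 1) * Cl w M p N m) := by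
            refine Nat.mul_le_mul_left _ (hcs.trans ?_)
            exact Nat.mul_le_mul hsh hcl
        _ = 2 ^ (l + 1) * (2 ^ s * Cl w M p N m) := by ring
        _ ≤ 2 ^ (l + 1) * (2 ^ (m + 1) * 2 ^ N) ^ 2 := by
            refine Nat.mul_le_mul_left _ (hBB'.le.trans ?_)
            exact Nat.pow_le_pow_left hSl 2
    have h10 : 2 ^ (l + 2 * m + 3) * (2 ^ a * X.card) ^ 2 ≤ 2 ^ (l + 2 * m + 3) * (2 ^ N) ^ 2 := by
      calc 2 ^ (l + 2 * m + 3) * (2 ^ a * X.card) ^ 2 =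
          2 ^ (l + 2 * m + 3 + 2 * a) * X.card ^ 2 := by
            rw [mul_pow, pow_add 2 (l + 2 * m + 3) (2 * a), mul_comm 2 a, pow_mul]; ring
        _ ≤ 2 ^ s * X.card ^ 2 := Nat.mul_le_mul_right _ (Nat.pow_le_pow_right (by norm_num) hs)
        _ ≤ 2 ^ (l + 1) * (2 ^ (m + 1) * 2 ^ N) ^ 2 := h9
        _ = 2 ^ (l + 2 * m + 3) * (2 ^ N) ^ 2 := by
            rw [mul_pow, ← pow_mul, ← mul_assoc, ← pow_add]
            congr 2; ring
    have h11 : (2 ^ a * X.card) ^ 2 ≤ (2 ^ N) ^ 2 := Nat.le_of_mul_le_mul_left h10 (by positivity)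
    have h12 : 2 ^ a * X.card ≤ 2 ^ N := by
      by_contra hcon
      push Not at hcon
      have := Nat.pow_lt_pow_left hcon (n := 2) (by norm_num)
      omega
    rw [mul_comm]
    convert h12

end Pool.RO
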