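import Pool.Agent.Work.MP_cb380d_ro.B_COL

set_option autoImplicit false

open MeasureTheory Classical Finset
open scoped ENNReal

namespace Pool.RO

open Pool.IC

theorem SLF.eval_mono (p : Polynomial ℕ) {a b : ℕ} (h : a ≤ b) : p.eval a ≤ p.eval b := by
  rw [Polynomial.eval_eq_sum, Polynomial.eval_eq_sum]
  exact Finset.sum_le_sum fun i _ => Nat.mul_le_mul_left _ (Nat.pow_le_pow_left h i)

/-- Changing the oracle at the addresses of a slot does not change whether the slot is asked. -/
theorem SLF.iff (hLOC : Stmt_LOC) (hPAT : Stmt_PAT) (M : Cmd) (p : Polynomial ℕ)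
    (S : Finset Str) (w : Om) (t v z : Str) :
    t ∈ Qs (pat w (false :: false :: t) v) M p S z ↔ t ∈ Qs w M p S z := by
  obtain ⟨q1, q2, q3, q4, q5, q6, q7⟩ := hPAT
  set T : Set Str := {a | ∃ (i : ℕ) (b c : Bool), a = ad i (b :: c :: t)} with hT
  have hag : ∀ a, a ∉ T → pat w (false :: false :: t) v a = w a := by
    intro a ha
    apply q4
    intro i _ hai
    exact ha ⟨i, false, false, hai⟩
  have hkey : ∀ w₁ w₂ : Om, (∀ a, a ∉ T → w₁ a = w₂ a) → t ∈ S → t ∉ Qs w₁ M p S z →
      t ∉ Qs w₂ M p S z := by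
    intro w₁ w₂ h12 htS hn hm
    have hno : ∀ a ∈ queries (orc w₁) M [] [] z (p.eval z.length), a ∉ T := by
      intro a ha haT
      obtain ⟨i, b, c, hai⟩ := haT
      apply hn
      unfold Qs
      simp only [mem_filter]
      exact ⟨htS, a, ha, i, b, c, hai⟩
    have h1 := (hLOC w₁ w₂ M p z T hno h12).2
    unfold Qs at hm
    simp only [mem_filter] at hm
    obtain ⟨_, a, ha, i, b, c, hai⟩ := hm
    rw [h1] at ha
    exact hno a ha ⟨i, b, c, hai⟩
  constructor
  · intro h
    have htS : t ∈ S := by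
      unfold Qs at h
      simp only [mem_filter] at h
      exact h.1
    by_contra hn
    exact hkey w _ (fun a ha => (hag a ha).symm) htS hn h
  · intro h
    have htS : t ∈ S := by
      unfold Qs at h
      simp only [mem_filter] at h
      exact h.1
    by_contra hn
    exact hkey _ w hag htS hn h

theorem p_SLF (hMEA : Stmt_MEA) (hRES : Stmt_RES) (hCN1 : Stmt_CN1) (hCN2 : Stmt_CN2)
    (hLOC : Stmt_LOC) (hPAT : Stmt_PAT) (hSLT : Stmt_SLT) (hFDE : Stmt_FDE) : Stmt_SLF := by
  intro M p N m s hN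
  have hPAT' := hPAT
  obtain ⟨q1, q2, q3, q4, q5, q6, q7⟩ := hPAT'
  set L := m + 1 + 6 * N + p.eval (4 * N) with hL
  obtain ⟨_, f2, _, f4, f5⟩ := hFDE M p M 0 0 N m s L hN (by simp; omega) (by omega)
  set A : Str → Set Om := fun t => {w | t ∈ Qs w M p (Sl N m) (Fh w (false :: false :: t))}
    with hA
  -- one slot
  have hone : ∀ t ∈ Sl N m, ∑ v ∈ strs (3 * (t.length + 2)),
      coin {w | t ∈ Qs w M p (Sl N m) v} = 2 ^ (3 * (t.length + 2)) * coin (A t) := by
    intro t ht
    rw [← hRES (false :: false :: t) (3 * (t.length + 2)) (A t) (hMEA _ _ (f4 t ht))]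
    refine sum_congr rfl fun v hv => ?_
    congr 1
    ext w
    have hv1 : v.length = 3 * (t.length + 2) := mem_strs.1 hv
    have hF : Fh (pat w (false :: false :: t) v) (false :: false :: t) = v := by
      unfold Fh
      have h3 := q3 w (false :: false :: t) v
      rw [hv1] at h3
      exact h3
    change t ∈ Qs w M p (Sl N m) v ↔ t ∈ Qs (pat w (false :: false :: t) v) M p (Sl N m)
      (Fh (pat w (false :: false :: t) v) (false :: false :: t))
    rw [hF, SLF.iff hLOC hPAT]
  -- the sum over one length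
  have hlen : ∀ ℓ : ℕ, 3 * (ℓ + 2) ≤ 4 * N →
      ∑ t ∈ (Sl N m).filter (fun t => t.length = ℓ), coin (A t) ≤ (p.eval (4 * N) : ℕ) := by
    intro ℓ hℓ
    set k := 3 * (ℓ + 2) with hk
    have h1 : (2 : ℝ≥0∞) ^ k * ∑ t ∈ (Sl N m).filter (fun t => t.length = ℓ), coin (A t) =
        ∑ v ∈ strs k, ∑ t ∈ (Sl N m).filter (fun t => t.length = ℓ),
          coin {w | t ∈ Qs w M p (Sl N m) v} := by
      rw [sum_comm, mul_sum]
      refine sum_congr rfl fun t ht => ?_
      rw [mem_filter] at ht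
      have h2 := hone t ht.1
      rw [ht.2] at h2
      exact h2.symm
    have h2 : ∀ v ∈ strs k, ∑ t ∈ (Sl N m).filter (fun t => t.length = ℓ),
        coin {w | t ∈ Qs w M p (Sl N m) v} ≤ (p.eval (4 * N) : ℕ) := by
      intro v hv
      have hv1 : v.length = k := mem_strs.1 hv
      have h3 := hCN2 Str ((Sl N m).filter fun t => t.length = ℓ)
        (fun t => {w | t ∈ Qs w M p (Sl N m) v}) Set.univ (p.eval (4 * N))
        (fun t ht => hMEA _ _ (f5 t (mem_filter.1 ht).1 v (by omega))) MeasurableSet.univ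
        (fun t _ => Set.subset_univ _) ?_
      · refine h3.trans (le_of_eq ?_)
        rw [measure_univ, mul_one]
      · intro w _
        calc _ ≤ (Qs w M p (Sl N m) v).card := by
              apply card_le_card
              intro t ht
              simp only [mem_filter] at ht
              exact ht.2
          _ ≤ p.eval v.length := hSLT.2.2.2.2 w M p (Sl N m) v
          _ ≤ p.eval (4 * N) := SLF.eval_mono p (by omega)
    have h4 : (2 : ℝ≥0∞) ^ k * ∑ t ∈ (Sl N m).filter (fun t => t.length = ℓ), coin (A t) ≤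
        2 ^ k * (p.eval (4 * N) : ℕ) := by
      rw [h1]
      refine (sum_le_sum h2).trans (le_of_eq ?_)
      rw [sum_const, card_strs, nsmul_eq_mul]
      push_cast; ring
    have h7 : (2 : ℝ≥0∞) ^ k ≠ 0 := by positivity
    have h8 : (2 : ℝ≥0∞) ^ k ≠ ⊤ := ENNReal.pow_ne_top (by norm_num)
    exact (ENNReal.mul_le_mul_iff_right h7 h8).1 h4
  -- all slots
  have hall : ∑ t ∈ Sl N m, coin (A t) ≤ ((m + 1) * p.eval (4 * N) : ℕ) := by
    set I : Finset ℕ := (range (m + 1)).image fun j => N + 1 + 2 * j with hI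
    have hmap : ∀ t ∈ Sl N m, t.length ∈ I := by
      intro t ht
      obtain ⟨u, r, rfl, hu, hr⟩ := (hSLT.2.1 N m t).1 ht
      rw [hI, mem_image]
      refine ⟨u.length, mem_range.2 (by omega), ?_⟩
      simp [length_mark, hr]; ring
    rw [← sum_fiberwise_of_maps_to hmap]
    calc ∑ ℓ ∈ I, ∑ t ∈ (Sl N m).filter (fun t => t.length = ℓ), coin (A t) ≤
        ∑ ℓ ∈ I, ((p.eval (4 * N) : ℕ) : ℝ≥0∞) := by
          refine sum_le_sum fun ℓ hℓ => hlen ℓ ?_
          rw [hI, mem_image] at hℓ
          obtain ⟨j, hj, rfl⟩ := hℓ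
          rw [mem_range] at hj
          omega
      _ = (I.card : ℝ≥0∞) * (p.eval (4 * N) : ℕ) := by rw [sum_const, nsmul_eq_mul]
      _ ≤ ((m + 1 : ℕ) : ℝ≥0∞) * (p.eval (4 * N) : ℕ) := by
          gcongr
          calc I.card ≤ (range (m + 1)).card := card_image_le
            _ = m + 1 := card_range _
      _ = _ := by push_cast; ring
  -- Markov
  set c : ℕ := 2 ^ N ⌈/⌉ 2 ^ (s + 3) with hc
  have hpos : 0 < 2 ^ (s + 3) := by positivity
  have hc1 : 2 ^ N ≤ 2 ^ (s + 3) * c := by
    have := le_smul_ceilDiv (b := 2 ^ N) hpos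
    simpa using this
  have hcn := hCN1 Str (Sl N m) A (SQ M p N m s) c (fun t ht => hMEA _ _ (f4 t ht))
    (hMEA _ _ f2) ?_
  · calc (2 : ℝ≥0∞) ^ N * coin (SQ M p N m s) ≤
        (2 ^ (s + 3) * (c : ℝ≥0∞)) * coin (SQ M p N m s) := by
          gcongr
          exact_mod_cast hc1
      _ = 2 ^ (s + 3) * ((c : ℝ≥0∞) * coin (SQ M p N m s)) := by ring
      _ ≤ 2 ^ (s + 3) * ((m + 1) * p.eval (4 * N) : ℕ) := by
          gcongr
          exact hcn.trans hall
  · intro w hw
    rw [hc, ceilDiv_le_iff_le_mul hpos]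
    have h1 : (Sl N m).card < 2 ^ (s + 3) * slf w M p N m := hw
    have h2 := (hSLT.2.2.2.1 N m).1
    have h3 : slf w M p N m = ((Sl N m).filter fun i => w ∈ A i).card := by
      unfold slf
      congr 1
    have h4 : 2 ^ N ≤ 2 ^ (s + 3) * slf w M p N m := by omega
    rw [h3] at h4
    refine le_trans h4 (Nat.mul_le_mul_left _ (card_le_card ?_))
    intro t ht
    simp only [mem_filter] at ht ⊢
    exact ht

end Pool.RO
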