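import Pool.Agent.Work.MP_cb380d_ro.Interface

set_option autoImplicit false

open MeasureTheory Classical Finset
open scoped ENNReal

namespace Pool.RO

open Pool.IC

theorem SLT_mem (N m : ℕ) (t : Str) : t ∈ Sl N m ↔ ∃ u r : Str, t = mark u ++ false :: r ∧
    u.length ≤ m ∧ r.length = N := by
  unfold Sl
  rw [Finset.mem_image]
  constructor
  · rintro ⟨⟨u, r⟩, h, rfl⟩
    rw [Finset.mem_product, mem_short, mem_strs] at h
    have h1 : u.length < m + 1 := h.1
    exact ⟨u, r, rfl, by omega, h.2⟩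
  · rintro ⟨u, r, rfl, h1, h2⟩
    refine ⟨(u, r), ?_, rfl⟩
    rw [Finset.mem_product, mem_short, mem_strs]
    have h3 : u.length < m + 1 := by omega
    exact ⟨h3, h2⟩

theorem SLT_len (N m : ℕ) (t : Str) (ht : t ∈ Sl N m) :
    N + 1 ≤ t.length ∧ t.length ≤ N + 2 * m + 1 := by
  rw [SLT_mem] at ht
  obtain ⟨u, r, rfl, h1, h2⟩ := ht
  simp only [List.length_append, List.length_cons, length_mark]
  omega

theorem SLT_card (N m : ℕ) : 2 ^ N ≤ (Sl N m).card ∧ (Sl N m).card ≤ 2 ^ (m + 1) * 2 ^ N := by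
  have hinj : Set.InjOn (fun a : Str × Str => mark a.1 ++ false :: a.2)
      ((short (m + 1) ×ˢ strs N : Finset (Str × Str)) : Set (Str × Str)) := by
    intro a _ b _ h
    have := mark_inj a.1 b.1 a.2 b.2 h
    exact Prod.ext this.1 this.2
  have hc : (Sl N m).card = (short (m + 1)).card * 2 ^ N := by
    unfold Sl
    rw [Finset.card_image_of_injOn hinj, Finset.card_product, card_strs]
  rw [hc]
  constructor
  · have h1 : 1 ≤ (short (m + 1)).card := by
      refine Finset.card_pos.2 ⟨[], ?_⟩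
      rw [mem_short]
      simp
    calc 2 ^ N = 1 * 2 ^ N := (one_mul _).symm
      _ ≤ _ := Nat.mul_le_mul_right _ h1
  · refine Nat.mul_le_mul_right _ ?_
    have := card_short (m + 1)
    omega

theorem SLT_Qs (w : Om) (M : Cmd) (p : Polynomial ℕ) (S : Finset Str) (z : Str) :
    (Qs w M p S z).card ≤ p.eval z.length := by
  refine le_trans ?_ (card_queries (orc w) M [] [] z (p.eval z.length))
  have hex : ∀ t : Str, ∃ a : Str, t ∈ Qs w M p S z →
      a ∈ queries (orc w) M [] [] z (p.eval z.length) ∧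
        ∃ (i : ℕ) (b c : Bool), a = ad i (b :: c :: t) := by
    intro t
    by_cases ht : t ∈ Qs w M p S z
    · unfold Qs at ht
      rw [Finset.mem_filter] at ht
      obtain ⟨_, a, ha, h⟩ := ht
      exact ⟨a, fun _ => ⟨ha, h⟩⟩
    · exact ⟨[], fun h => absurd h ht⟩
  choose f hf using hex
  refine Finset.card_le_card_of_injOn f (fun t ht => (hf t ht).1) ?_
  intro t ht t' ht' h
  obtain ⟨i, b, c, h1⟩ := (hf t ht).2
  obtain ⟨i', b', c', h2⟩ := (hf t' ht').2
  rw [h, h2] at h1
  have h3 : ad i' (b' :: c' :: t') = ad i (b :: c :: t) := h1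
  have h4 := rep_inj false i' i (b' :: c' :: t') (b :: c :: t) (by simpa [ad] using h3)
  have h5 := h4.2
  simp only [List.cons.injEq] at h5
  exact h5.2.2.symm

theorem p_SLT : Stmt_SLT :=
  ⟨fun u r u' r' h => mark_inj u u' r r' h, SLT_mem, SLT_len, SLT_card, SLT_Qs⟩

end Pool.RO
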