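import Pool.Agent.Work.MP_cb380d_ro.Interface

set_option autoImplicit false

open MeasureTheory Classical Finset
open scoped ENNReal

namespace Pool.RO

open Pool.IC

theorem STG_two_inv (k : ℕ) : (2 : ℝ≥0∞) ^ k * (2⁻¹ : ℝ≥0∞) ^ k = 1 := by
  rw [← mul_pow, ENNReal.mul_inv_cancel (by norm_num) (by norm_num), one_pow]

theorem STG_div {k : ℕ} {c B : ℝ≥0∞} (h : 2 ^ k * c ≤ B) : c ≤ B * (2⁻¹ : ℝ≥0∞) ^ k := by
  calc c = (2 ^ k * c) * (2⁻¹ : ℝ≥0∞) ^ k := by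
        rw [mul_right_comm, STG_two_inv, one_mul]
    _ ≤ B * (2⁻¹ : ℝ≥0∞) ^ k := by gcongr

theorem STG_anti {a b : ℕ} (h : a ≤ b) : (2⁻¹ : ℝ≥0∞) ^ b ≤ (2⁻¹ : ℝ≥0∞) ^ a := by
  apply pow_le_pow_right_of_le_one' _ h
  rw [ENNReal.inv_le_one]
  exact one_le_two

theorem STG_mul {a b c : ℕ} (h : a + b ≤ c) :
    (2 : ℝ≥0∞) ^ a * (2⁻¹ : ℝ≥0∞) ^ c ≤ (2⁻¹ : ℝ≥0∞) ^ b := by
  calc (2 : ℝ≥0∞) ^ a * (2⁻¹ : ℝ≥0∞) ^ c ≤ (2 : ℝ≥0∞) ^ a * (2⁻¹ : ℝ≥0∞) ^ (a + b) := by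
        gcongr 2 ^ a * ?_
        exact STG_anti h
    _ = (2⁻¹ : ℝ≥0∞) ^ b := by
        rw [pow_add, ← mul_assoc, STG_two_inv, one_mul]

theorem p_STG (hSWP : Stmt_SWP) (hSLF : Stmt_SLF) (hCOL : Stmt_COL) (hSHO : Stmt_SHO) :
    Stmt_STG := by
  intro M p V q r K n P hc1 hc2 hP
  obtain ⟨h1n, h64, hV, hp⟩ := hc1
  obtain ⟨-, h64', -, -⟩ := hc2
  set m := bb p n with hm
  set N := n ^ K with hN
  have hm6 : 6 * n ≤ m := by rw [hm]; unfold bb; omega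
  have hN64 : 64 * m ≤ N := h64
  have h69 : 6 * m + 9 ≤ N := by omega
  have hNf : 6 * N + p.eval (4 * N) ≤ N ^ K := by
    have : 6 * N + p.eval (4 * N) = bb p N := rfl
    omega
  -- the four bounds
  have hb1 : coin (P ∩ (BB M p N m (8 * m + 8) \ SQ M p N m (8 * m + 8))) ≤
      3 * coin (P ∩ CC M p V q r N m) := by
    apply hSWP M p V q r N m (8 * m + 8) P h69 hV _ hP
    have h1 : 2 * p.eval (4 * N) + 2 ≤ 2 ^ (n + 2) := by
      have : 1 ≤ 2 ^ n := Nat.one_le_two_pow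
      rw [pow_add]; omega
    calc 2 ^ (2 * (8 * m + 8) + 13) * (2 * p.eval (4 * N) + 2)
        ≤ 2 ^ (2 * (8 * m + 8) + 13) * 2 ^ (n + 2) := Nat.mul_le_mul_left _ h1
      _ = 2 ^ (2 * (8 * m + 8) + 13 + (n + 2)) := by rw [← pow_add]
      _ ≤ 2 ^ (N + 1) := Nat.pow_le_pow_right (by norm_num) (by omega)
  have hb2 : coin (SQ M p N m (8 * m + 8)) ≤ (2⁻¹ : ℝ≥0∞) ^ (m + 1) := by
    have h1 := STG_div (hSLF M p N m (8 * m + 8) h69)
    refine h1.trans ?_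
    have h2 : ((m + 1) * p.eval (4 * N) : ℕ) ≤ 2 ^ (m + n) := by
      rw [pow_add]
      exact Nat.mul_le_mul (Nat.lt_two_pow_self (n := m)) hp
    have h3 : (((m + 1) * p.eval (4 * N) : ℕ) : ℝ≥0∞) ≤ 2 ^ (m + n) := by
      exact_mod_cast h2
    calc (2 : ℝ≥0∞) ^ (8 * m + 8 + 3) * (((m + 1) * p.eval (4 * N) : ℕ) : ℝ≥0∞) *
          (2⁻¹ : ℝ≥0∞) ^ N
        ≤ 2 ^ (8 * m + 8 + 3) * 2 ^ (m + n) * (2⁻¹ : ℝ≥0∞) ^ N := by gcongr
      _ = 2 ^ (8 * m + 8 + 3 + (m + n)) * (2⁻¹ : ℝ≥0∞) ^ N := by rw [← pow_add]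
      _ ≤ (2⁻¹ : ℝ≥0∞) ^ (m + 1) := STG_mul (by omega)
  have hcard : (((short (m + 1)).card : ℕ) : ℝ≥0∞) ≤ 2 ^ (m + 1) := by
    have := card_short (m + 1)
    have h2 : (short (m + 1)).card ≤ 2 ^ (m + 1) := by omega
    exact_mod_cast h2
  have hb3 : ∀ u ∈ short (m + 1), ∀ u' ∈ short (m + 1), u ≠ u' →
      coin ({w | gg w M p N (N ^ K) u = gg w M p N (N ^ K) u'} \ BB M p N m (8 * m + 8)) ≤
        4 ^ (m + 1) * (2⁻¹ : ℝ≥0∞) ^ (8 * m + 8) := by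
    intro u hu u' hu' hne
    rw [mem_short] at hu hu'
    exact STG_div (hCOL M p N m (8 * m + 8) (N ^ K) u u' h69 hNf (by omega) (by omega) hne)
  have hb4 : ∀ u ∈ short (m + 1),
      coin ({w | (gg w M p N (N ^ K) u).length ≤ m} \ BB M p N m (8 * m + 8)) ≤
        (2⁻¹ : ℝ≥0∞) ^ (2 * m + 2) := by
    intro u hu
    rw [mem_short] at hu
    have := STG_div (hSHO M p N m (8 * m + 8) (N ^ K) m (2 * m + 2) u h69 hNf (by omega)
      (by omega))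
    rwa [one_mul] at this
  -- the union
  have hsub : P ∩ Fb M p N (N ^ K) m ⊆
      ((P ∩ (BB M p N m (8 * m + 8) \ SQ M p N m (8 * m + 8))) ∪ SQ M p N m (8 * m + 8)) ∪
      ((⋃ a ∈ (short (m + 1) ×ˢ short (m + 1)).filter (fun a => a.1 ≠ a.2),
        {w | gg w M p N (N ^ K) a.1 = gg w M p N (N ^ K) a.2} \ BB M p N m (8 * m + 8)) ∪
      (⋃ u ∈ short (m + 1),
        {w | (gg w M p N (N ^ K) u).length ≤ m} \ BB M p N m (8 * m + 8))) := by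
    rintro w ⟨hwP, hwF⟩
    by_cases hB : w ∈ BB M p N m (8 * m + 8)
    · left
      by_cases hS : w ∈ SQ M p N m (8 * m + 8)
      · exact Or.inr hS
      · exact Or.inl ⟨hwP, hB, hS⟩
    · right
      rcases hwF with ⟨u, u', hu, hu', hne, he⟩ | ⟨u, hu, hl⟩
      · left
        simp only [Set.mem_iUnion]
        refine ⟨(u, u'), ?_, he, hB⟩
        rw [Finset.mem_filter, Finset.mem_product]
        exact ⟨⟨mem_short.2 (by simpa using Nat.lt_succ_of_le hu),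
          mem_short.2 (by simpa using Nat.lt_succ_of_le hu')⟩, hne⟩
      · right
        simp only [Set.mem_iUnion]
        exact ⟨u, mem_short.2 (by omega), hl, hB⟩
  have hU1 : coin (⋃ a ∈ (short (m + 1) ×ˢ short (m + 1)).filter (fun a => a.1 ≠ a.2),
        {w | gg w M p N (N ^ K) a.1 = gg w M p N (N ^ K) a.2} \ BB M p N m (8 * m + 8)) ≤
        (2⁻¹ : ℝ≥0∞) ^ (m + 1) := by
    refine (measure_biUnion_finset_le _ _).trans ?_
    calc ∑ a ∈ (short (m + 1) ×ˢ short (m + 1)).filter (fun a => a.1 ≠ a.2),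
          coin ({w | gg w M p N (N ^ K) a.1 = gg w M p N (N ^ K) a.2} \
            BB M p N m (8 * m + 8))
        ≤ ∑ a ∈ (short (m + 1) ×ˢ short (m + 1)).filter (fun a => a.1 ≠ a.2),
          4 ^ (m + 1) * (2⁻¹ : ℝ≥0∞) ^ (8 * m + 8) := by
          apply Finset.sum_le_sum
          intro a ha
          rw [Finset.mem_filter, Finset.mem_product] at ha
          exact hb3 a.1 ha.1.1 a.2 ha.1.2 ha.2
      _ = (((short (m + 1) ×ˢ short (m + 1)).filter (fun a => a.1 ≠ a.2)).card : ℝ≥0∞) *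
          (4 ^ (m + 1) * (2⁻¹ : ℝ≥0∞) ^ (8 * m + 8)) := by
          rw [Finset.sum_const, nsmul_eq_mul]
      _ ≤ (2 ^ (m + 1) * 2 ^ (m + 1)) * (4 ^ (m + 1) * (2⁻¹ : ℝ≥0∞) ^ (8 * m + 8)) := by
          gcongr
          calc ((((short (m + 1) ×ˢ short (m + 1)).filter (fun a => a.1 ≠ a.2)).card : ℕ) :
                ℝ≥0∞) ≤ (((short (m + 1) ×ˢ short (m + 1)).card : ℕ) : ℝ≥0∞) := by
                exact_mod_cast Finset.card_filter_le _ _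
            _ = ((short (m + 1)).card : ℝ≥0∞) * ((short (m + 1)).card : ℝ≥0∞) := by
                rw [Finset.card_product, Nat.cast_mul]
            _ ≤ 2 ^ (m + 1) * 2 ^ (m + 1) := by gcongr
      _ = 2 ^ (4 * (m + 1)) * (2⁻¹ : ℝ≥0∞) ^ (8 * m + 8) := by
          have h4 : (4 : ℝ≥0∞) ^ (m + 1) = 2 ^ (2 * (m + 1)) := by
            rw [pow_mul]; norm_num
          rw [h4, ← pow_add, ← mul_assoc, ← pow_add]
          congr 2
          ring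
      _ ≤ (2⁻¹ : ℝ≥0∞) ^ (m + 1) := STG_mul (by omega)
  have hU2 : coin (⋃ u ∈ short (m + 1),
        {w | (gg w M p N (N ^ K) u).length ≤ m} \ BB M p N m (8 * m + 8)) ≤
        (2⁻¹ : ℝ≥0∞) ^ (m + 1) := by
    refine (measure_biUnion_finset_le _ _).trans ?_
    calc ∑ u ∈ short (m + 1),
          coin ({w | (gg w M p N (N ^ K) u).length ≤ m} \ BB M p N m (8 * m + 8))
        ≤ ∑ u ∈ short (m + 1), (2⁻¹ : ℝ≥0∞) ^ (2 * m + 2) :=
          Finset.sum_le_sum hb4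
      _ = ((short (m + 1)).card : ℝ≥0∞) * (2⁻¹ : ℝ≥0∞) ^ (2 * m + 2) := by
          rw [Finset.sum_const, nsmul_eq_mul]
      _ ≤ 2 ^ (m + 1) * (2⁻¹ : ℝ≥0∞) ^ (2 * m + 2) := by gcongr
      _ ≤ (2⁻¹ : ℝ≥0∞) ^ (m + 1) := STG_mul (by omega)
  calc coin (P ∩ Fb M p N (N ^ K) m) ≤ _ := measure_mono hsub
    _ ≤ (3 * coin (P ∩ CC M p V q r N m) + (2⁻¹ : ℝ≥0∞) ^ (m + 1)) +
        ((2⁻¹ : ℝ≥0∞) ^ (m + 1) + (2⁻¹ : ℝ≥0∞) ^ (m + 1)) := by
        refine (measure_union_le _ _).trans (add_le_add ?_ ?_)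
        · exact (measure_union_le _ _).trans (add_le_add hb1 hb2)
        · exact (measure_union_le _ _).trans (add_le_add hU1 hU2)
    _ ≤ 3 * coin (P ∩ CC M p V q r N m) + 2 * (2⁻¹ : ℝ≥0∞) ^ m := by
        rw [add_assoc]
        gcongr 3 * coin (P ∩ CC M p V q r N m) + ?_
        have h2 : (2 : ℝ≥0∞) * (2⁻¹ : ℝ≥0∞) ^ m = 4 * (2⁻¹ : ℝ≥0∞) ^ (m + 1) := by
          rw [pow_succ, ← mul_assoc, mul_right_comm]
          congr 1
          rw [show (4 : ℝ≥0∞) = 2 * 2 by norm_num, mul_assoc,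
            ENNReal.mul_inv_cancel (by norm_num) (by norm_num), mul_one]
        rw [h2]
        calc (2⁻¹ : ℝ≥0∞) ^ (m + 1) + ((2⁻¹ : ℝ≥0∞) ^ (m + 1) + (2⁻¹ : ℝ≥0∞) ^ (m + 1))
            = 3 * (2⁻¹ : ℝ≥0∞) ^ (m + 1) := by ring
          _ ≤ 4 * (2⁻¹ : ℝ≥0∞) ^ (m + 1) := by
              gcongr
              norm_num

end Pool.RO
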