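import Pool.Agent.Work.MP_cb380d_ro.Interface

set_option autoImplicit false

open MeasureTheory Classical Finset
open scoped ENNReal

namespace Pool.RO

open Pool.IC

theorem SWP_inter {S : Finset Str} {A B : Set Om} (hA : FD S A) (hB : FD S B) :
    FD S (A ∩ B) := fun w w' h => and_congr (hA w w' h) (hB w w' h)

theorem SWP_diff {S : Finset Str} {A B : Set Om} (hA : FD S A) (hB : FD S B) :
    FD S (A \ B) := fun w w' h => and_congr (hA w w' h) (not_congr (hB w w' h))

theorem SWP_mono {S T : Finset Str} {A : Set Om} (hST : S ⊆ T) (hA : FD S A) : FD T A :=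
  fun w w' h => hA w w' fun a ha => h a (hST ha)

/-- The combinatorial part, for one oracle. -/
theorem SWP_comb (hCMB : Stmt_CMB) (hTOG : Stmt_TOG) (hSWS : Stmt_SWS) (hSLT : Stmt_SLT)
    (M : Cmd) (p : Polynomial ℕ) (V : Cmd) (q r : Polynomial ℕ) (N m s : ℕ) (P : Set Om)
    (hN : 6 * m + 9 ≤ N) (hm : m + r.eval m + q.eval (m + r.eval m) < N)
    (hs : 2 ^ (2 * s + 13) * (2 * p.eval (4 * N) + 2) ≤ 2 ^ (N + 1)) (hP : FD (short N) P)
    (w : Om) (hwP : w ∈ P) (hwB : w ∈ BB M p N m s) (hwS : w ∉ SQ M p N m s)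
    (hwC : w ∉ CC M p V q r N m) :
    (2 * (Sl N m).card) ^ (2 ^ (s + 1 + 4)) ≤
      2 * ((Fintype.piFinset fun _ : Fin (2 ^ (s + 1 + 4)) =>
        (Sl N m ×ˢ (Finset.univ : Finset Bool))).filter fun τ =>
        (fun a => w (lf (tgm {t | ∃ i, τ i = (t, true)} {t | ∃ i, τ i = (t, false)}) a)) ∈
          P ∩ CC M p V q r N m).card := by
  set S : Finset Str := Sl N m with hS
  set X : Finset (Str × Bool) := S ×ˢ (Finset.univ : Finset Bool) with hX
  have hXc : X.card = 2 * S.card := by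
    rw [hX, card_product, card_univ, Fintype.card_bool, mul_comm]
  -- the sets of questions
  let Qt : Str → Finset Str := fun t => Qs w M p S (Fh w (false :: false :: t))
  let Q : Str × Bool → Finset (Str × Bool) := fun a =>
    (Qt a.1 ×ˢ (Finset.univ : Finset Bool)) ∪ {(a.1, !a.2)}
  let Q' : Str × Bool → Finset (Str × Bool) := fun a =>
    (insert a.1 (Qt a.1)) ×ˢ (Finset.univ : Finset Bool)
  obtain ⟨E, hEdef⟩ : ∃ E : Str × Bool → Str × Bool → Prop, ∀ a b, E a b ↔
    (gt w M p a.1 = gt w M p b.1 ∧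
      (a.2 = true ↔ ¬ good (Ds w V q r) (false :: false :: a.1))) := ⟨_, fun _ _ => Iff.rfl⟩
  have hmono : ∀ a b : ℕ, a ≤ b → p.eval a ≤ p.eval b := by
    intro a b hab
    rw [Polynomial.eval_eq_sum_range, Polynomial.eval_eq_sum_range]
    exact Finset.sum_le_sum fun i _ => Nat.mul_le_mul_left _ (Nat.pow_le_pow_left hab i)
  have hrdlen : ∀ (x : Str) (k : ℕ), (rd w x k).length = k := by
    intro x k
    induction k with
    | zero => rfl
    | succ k ih => simp [rd, ih]
  have hQt : ∀ t ∈ S, (Qt t).card ≤ p.eval (4 * N) := by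
    intro t ht
    refine (hSLT.2.2.2.2 w M p S _).trans (hmono _ _ ?_)
    have h1 := (hSLT.2.2.1 N m t ht).2
    unfold Fh
    rw [hrdlen]
    simp only [List.length_cons]
    omega
  have h1 : ∀ a ∈ X, (Q a).card ≤ 2 * p.eval (4 * N) + 2 := by
    intro a ha
    have ha1 : a.1 ∈ S := (mem_product.1 ha).1
    calc (Q a).card ≤ (Qt a.1 ×ˢ (Finset.univ : Finset Bool)).card + 1 := by
          refine (card_union_le _ _).trans ?_
          rw [card_singleton]
      _ = (Qt a.1).card * 2 + 1 := by rw [card_product, card_univ, Fintype.card_bool]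
      _ ≤ _ := by have := hQt a.1 ha1; omega
  have h2 : ∀ a ∈ X, (Q' a).card ≤ 2 * p.eval (4 * N) + 2 := by
    intro a ha
    have ha1 : a.1 ∈ S := (mem_product.1 ha).1
    have h3 := card_insert_le a.1 (Qt a.1)
    have h4 := hQt a.1 ha1
    calc (Q' a).card = (insert a.1 (Qt a.1)).card * 2 := by
          rw [card_product, card_univ, Fintype.card_bool]
      _ ≤ _ := by omega
  -- the number of pairs
  have h3 : X.card ^ 2 ≤ 2 ^ (s + 1) * ((X ×ˢ X).filter fun z => E z.1 z.2).card := by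
    have hB : S.card ^ 2 ≤ 2 ^ s * Cl w M p N m := hwB
    have hinj : Cl w M p N m * 2 ≤ ((X ×ˢ X).filter fun z => E z.1 z.2).card := by
      let e : Str → Bool := fun t => decide (¬ good (Ds w V q r) (false :: false :: t))
      let F : (Str × Str) × Bool → (Str × Bool) × (Str × Bool) := fun z =>
        ((z.1.1, e z.1.1), (z.1.2, z.2))
      have hc : (((S ×ˢ S).filter fun a => gt w M p a.1 = gt w M p a.2) ×ˢ
          (Finset.univ : Finset Bool)).card = Cl w M p N m * 2 := by
        rw [card_product, card_univ, Fintype.card_bool]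
        rfl
      rw [← hc]
      apply Finset.card_le_card_of_injOn F
      · intro z hz
        rw [mem_coe, mem_product, mem_filter, mem_product] at hz
        rw [mem_coe, mem_filter, mem_product, hX, mem_product, mem_product]
        refine ⟨⟨⟨hz.1.1.1, mem_univ _⟩, ⟨hz.1.1.2, mem_univ _⟩⟩, (hEdef _ _).2 ⟨hz.1.2, ?_⟩⟩
        simp only [F, e, decide_eq_true_eq]
      · intro z _ z' _ h
        simp only [F, Prod.mk.injEq] at h
        obtain ⟨⟨ha, _⟩, hb, hc⟩ := h
        exact Prod.ext (Prod.ext ha hb) hc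
    rw [hXc]
    calc (2 * S.card) ^ 2 = 4 * S.card ^ 2 := by ring
      _ ≤ 4 * (2 ^ s * Cl w M p N m) := Nat.mul_le_mul_left _ hB
      _ = 2 ^ (s + 1) * (Cl w M p N m * 2) := by ring
      _ ≤ _ := Nat.mul_le_mul_left _ hinj
  have h4 : 2 ^ (s + 1 + 2) * (X.filter fun a => a ∈ Q a).card ≤ X.card := by
    have hQ : (X.filter fun a => a ∈ Q a).card ≤ slf w M p N m * 2 := by
      have hc : ((S.filter fun t => t ∈ Qt t) ×ˢ (Finset.univ : Finset Bool)).card =
          slf w M p N m * 2 := by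
        rw [card_product, card_univ, Fintype.card_bool]
        rfl
      rw [← hc]
      apply Finset.card_le_card
      intro a ha
      rw [mem_filter] at ha
      rw [mem_product, mem_filter]
      refine ⟨⟨(mem_product.1 ha.1).1, ?_⟩, mem_univ _⟩
      have ha2 := ha.2
      simp only [Q, mem_union, mem_singleton, mem_product] at ha2
      rcases ha2 with h | h
      · exact h.1
      · exfalso
        have := congrArg Prod.snd h
        simp at this
    have hSQ : 2 ^ (s + 3) * slf w M p N m ≤ S.card := not_lt.1 hwS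
    rw [hXc]
    calc 2 ^ (s + 1 + 2) * (X.filter fun a => a ∈ Q a).card
        ≤ 2 ^ (s + 1 + 2) * (slf w M p N m * 2) := Nat.mul_le_mul_left _ hQ
      _ = 2 * (2 ^ (s + 3) * slf w M p N m) := by ring
      _ ≤ _ := Nat.mul_le_mul_left _ hSQ
  have h5 : 2 ^ (2 * (s + 1) + 11) * (2 * p.eval (4 * N) + 2) ≤ X.card := by
    rw [hXc]
    have h6 := (hSLT.2.2.2.1 N m).1
    calc 2 ^ (2 * (s + 1) + 11) * (2 * p.eval (4 * N) + 2)
        = 2 ^ (2 * s + 13) * (2 * p.eval (4 * N) + 2) := by ring_nf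
      _ ≤ 2 ^ (N + 1) := hs
      _ = 2 * 2 ^ N := by ring
      _ ≤ _ := Nat.mul_le_mul_left _ h6
  have hmain := hCMB (Str × Bool) X Q Q' E (2 * p.eval (4 * N) + 2) (s + 1) h1 h2 h3 h4 h5
  rw [hXc] at hmain
  refine hmain.trans (Nat.mul_le_mul_left _ (card_le_card ?_))
  intro τ hτ
  rw [mem_filter] at hτ ⊢
  obtain ⟨hτX, i, a, haX, hE, hQ1, hQ2⟩ := hτ
  rw [hEdef] at hE
  refine ⟨hτX, ?_⟩
  have hτS : ∀ k, (τ k).1 ∈ S := fun k => (mem_product.1 (Fintype.mem_piFinset.1 hτX k)).1
  -- the toggled sets as finsets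
  set A : Finset Str := S.filter fun t => ∃ i, τ i = (t, true) with hA
  set B : Finset Str := S.filter fun t => ∃ i, τ i = (t, false) with hB
  have hA' : (A : Set Str) = {t | ∃ i, τ i = (t, true)} := by
    ext t
    simp only [hA, coe_filter, Set.mem_ofPred_eq, and_iff_right_iff_imp]
    rintro ⟨k, hk⟩
    have := hτS k
    rw [hk] at this
    exact this
  have hB' : (B : Set Str) = {t | ∃ i, τ i = (t, false)} := by
    ext t
    simp only [hB, coe_filter, Set.mem_ofPred_eq, and_iff_right_iff_imp]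
    rintro ⟨k, hk⟩
    have := hτS k
    rw [hk] at this
    exact this
  rw [← hA', ← hB']
  have hmemA : ∀ t, t ∈ A ↔ ∃ i, τ i = (t, true) := fun t => by
    rw [← mem_coe, hA']; rfl
  have hmemB : ∀ t, t ∈ B ↔ ∃ i, τ i = (t, false) := fun t => by
    rw [← mem_coe, hB']; rfl
  constructor
  · -- `P`
    refine (hP w _ fun a ha => ?_).1 hwP
    by_contra hne
    have h6 : lf (tgm (A : Set Str) (B : Set Str)) a ≠ a := fun h => hne (by rw [h])
    obtain ⟨j, b, c, t, rfl, ht⟩ := hTOG.2.2.1 _ _ a h6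
    have htS : t ∈ S := by
      rcases ht with ht | ht
      · exact (mem_filter.1 (mem_coe.1 ht)).1
      · exact (mem_filter.1 (mem_coe.1 ht)).1
    have h7 := (hSLT.2.2.1 N m t htS).1
    have h8 := mem_short.1 ha
    simp only [ad, List.length_append, List.length_replicate, List.length_cons] at h8
    omega
  · -- `CC`
    refine hSWS w M p V q r N m hN hm hwC A B (filter_subset _ _) (filter_subset _ _)
      (τ i).1 (hτS i) a.1 (mem_product.1 haX).1 hE.1 ?_ ?_ ?_ ?_ ?_
    · split_ifs with hg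
      · have h6 : (τ i).2 = false := by
          by_contra h
          exact (hE.2.1 (by simpa using h)) hg
        refine ⟨(hmemB _).2 ⟨i, Prod.ext rfl h6⟩, fun h => ?_⟩
        obtain ⟨k, hk⟩ := (hmemA _).1 h
        refine hQ1 k (mem_union_right _ (mem_singleton.2 ?_))
        rw [hk, h6]
        rfl
      · exact (hmemA _).2 ⟨i, Prod.ext rfl (hE.2.2 hg)⟩
    · intro h
      obtain ⟨k, hk⟩ := (hmemA _).1 h
      exact hQ2 k (by rw [hk]; exact mem_product.2 ⟨mem_insert_self _ _, mem_univ _⟩)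
    · intro h
      obtain ⟨k, hk⟩ := (hmemB _).1 h
      exact hQ2 k (by rw [hk]; exact mem_product.2 ⟨mem_insert_self _ _, mem_univ _⟩)
    · intro t'' ht''
      constructor
      · intro h
        obtain ⟨k, hk⟩ := (hmemA _).1 h
        exact hQ1 k (by rw [hk]; exact mem_union_left _ (mem_product.2 ⟨ht'', mem_univ _⟩))
      · intro h
        obtain ⟨k, hk⟩ := (hmemB _).1 h
        exact hQ1 k (by rw [hk]; exact mem_union_left _ (mem_product.2 ⟨ht'', mem_univ _⟩))
    · intro t'' ht''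
      constructor
      · intro h
        obtain ⟨k, hk⟩ := (hmemA _).1 h
        exact hQ2 k (by rw [hk]; exact mem_product.2 ⟨mem_insert_of_mem ht'', mem_univ _⟩)
      · intro h
        obtain ⟨k, hk⟩ := (hmemB _).1 h
        exact hQ2 k (by rw [hk]; exact mem_product.2 ⟨mem_insert_of_mem ht'', mem_univ _⟩)

theorem p_SWP (hMEA : Stmt_MEA) (hPRM : Stmt_PRM) (hCN1 : Stmt_CN1) (hCMB : Stmt_CMB)
    (hTOG : Stmt_TOG) (hSWS : Stmt_SWS) (hFDE : Stmt_FDE) (hSLT : Stmt_SLT) : Stmt_SWP := by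
  intro M p V q r N m s P hN hm hs hP
  set L : ℕ := 6 * N + p.eval (4 * N) + N with hL
  obtain ⟨hBB, hSQ, hCC, -, -⟩ := hFDE M p V q r N m s L hN (by omega) (by omega)
  have hPL : FD (short L) P := SWP_mono (fun a ha => by
    rw [mem_short] at ha ⊢
    omega) hP
  have mPC : MeasurableSet (P ∩ CC M p V q r N m) := hMEA _ _ (SWP_inter hPL hCC)
  set A₀ : Set Om := (P ∩ (BB M p N m s \ SQ M p N m s)) \ (P ∩ CC M p V q r N m) with hA₀
  have mA : MeasurableSet A₀ :=
    hMEA _ _ (SWP_diff (SWP_inter hPL (SWP_diff hBB hSQ)) (SWP_inter hPL hCC))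
  set T : Finset (Fin (2 ^ (s + 1 + 4)) → Str × Bool) :=
    Fintype.piFinset fun _ : Fin (2 ^ (s + 1 + 4)) =>
      (Sl N m ×ˢ (Finset.univ : Finset Bool)) with hT
  have hTc : T.card = (2 * (Sl N m).card) ^ (2 ^ (s + 1 + 4)) := by
    rw [hT, Fintype.card_piFinset, prod_const, card_univ, Fintype.card_fin, card_product,
      card_univ, Fintype.card_bool, mul_comm]
  set Bt : (Fin (2 ^ (s + 1 + 4)) → Str × Bool) → Set Om := fun τ =>
    {w | (fun a => w (lf (tgm {t | ∃ i, τ i = (t, true)} {t | ∃ i, τ i = (t, false)}) a)) ∈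
      P ∩ CC M p V q r N m} with hBt
  have mB : ∀ τ, MeasurableSet (Bt τ) := by
    intro τ
    refine measurableSet_preimage ?_ mPC
    exact measurable_pi_iff.2 fun a => measurable_pi_apply _
  have cB : ∀ τ, coin (Bt τ) = coin (P ∩ CC M p V q r N m) := fun τ =>
    hPRM _ (hTOG.1 _ _) _ mPC
  set c : ℕ := (T.card + 1) / 2 with hc
  have hcount : ∀ w ∈ A₀, c ≤ (T.filter fun τ => w ∈ Bt τ).card := by
    intro w hw
    have hw1 : w ∈ P := hw.1.1
    have hw2 : w ∉ CC M p V q r N m := fun h => hw.2 ⟨hw1, h⟩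
    have h1 := SWP_comb hCMB hTOG hSWS hSLT M p V q r N m s P hN hm hs hP w hw1 hw.1.2.1 hw.1.2.2 hw2
    rw [← hTc] at h1
    have h2 : T.card ≤ 2 * (T.filter fun τ => w ∈ Bt τ).card := h1
    omega
  have h1 := hCN1 _ T Bt A₀ c (fun τ _ => mB τ) mA (fun w hw => by convert hcount w hw)
  rw [sum_congr rfl (fun τ _ => cB τ), sum_const, nsmul_eq_mul] at h1
  have hTpos : 0 < T.card := by
    rw [hTc]
    have h2 := (hSLT.2.2.2.1 N m).1
    have h3 : 0 < 2 ^ N := by positivity
    exact pow_pos (by omega) _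
  have hc0 : c ≠ 0 := by omega
  have h2 : (c : ℝ≥0∞) * coin A₀ ≤ (c : ℝ≥0∞) * (2 * coin (P ∩ CC M p V q r N m)) := by
    refine h1.trans ?_
    rw [← mul_assoc]
    gcongr
    have : T.card ≤ c * 2 := by omega
    exact_mod_cast this
  have h3 : coin A₀ ≤ 2 * coin (P ∩ CC M p V q r N m) :=
    (ENNReal.mul_le_mul_iff_right (by exact_mod_cast hc0) (ENNReal.natCast_ne_top c)).1 h2
  calc coin (P ∩ (BB M p N m s \ SQ M p N m s))
      ≤ coin (A₀ ∪ (P ∩ CC M p V q r N m)) := by
        apply measure_mono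
        intro w hw
        by_cases h : w ∈ P ∩ CC M p V q r N m
        · exact Or.inr h
        · exact Or.inl ⟨hw, h⟩
    _ ≤ coin A₀ + coin (P ∩ CC M p V q r N m) := measure_union_le _ _
    _ ≤ 2 * coin (P ∩ CC M p V q r N m) + coin (P ∩ CC M p V q r N m) := by gcongr
    _ = 3 * coin (P ∩ CC M p V q r N m) := by ring

end Pool.RO
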