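import Pool.Agent.Work.MP_cb380d_ro.Interface

set_option autoImplicit false

open MeasureTheory Classical Finset
open scoped ENNReal

namespace Pool.RO

open Pool.IC

/-- Strings of length less than `N` are not changed. -/
theorem SWS_agree (h2 : Stmt_SLT) (h3 : Stmt_TOG) (h5 : Stmt_PAT) (N m : ℕ) (A B : Finset Str)
    (hA : A ⊆ Sl N m) (hB : B ⊆ Sl N m) (w : Om) (a : Str) (ha : a.length < N) :
    w a = (fun a => w (lf (tgm (A : Set Str) (B : Set Str)) a)) a := by
  have e : lf (tgm (A : Set Str) (B : Set Str)) a = a := by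
    by_contra hne
    obtain ⟨i, b, c, t, hat, ht⟩ := h3.2.2.1 (A : Set Str) (B : Set Str) a hne
    have htS : t ∈ Sl N m := by
      rcases ht with ht | ht
      · exact hA (by simpa using ht)
      · exact hB (by simpa using ht)
    have hl := (h2.2.2.1 N m t htS).1
    have hla := h5.2.1 i (b :: c :: t)
    rw [← hat] at hla
    simp only [List.length_cons] at hla
    omega
  show w a = w (lf (tgm (A : Set Str) (B : Set Str)) a)
  rw [e]

/-- Goodness of the strings over the slots does not change. -/
theorem SWS_good (h1 : Stmt_LCD) (h2 : Stmt_SLT) (w w' : Om) (V : Cmd) (q r : Polynomial ℕ)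
    (N m : ℕ) (hN : m + r.eval m + q.eval (m + r.eval m) < N)
    (hw : ∀ a : Str, a.length < N → w a = w' a) (t : Str) (ht : t ∈ Sl N m) (b c : Bool) :
    good (Ds w V q r) (b :: c :: t) ↔ good (Ds w' V q r) (b :: c :: t) := by
  obtain ⟨u₀, r₀, ht0, hu0, hr0⟩ := (h2.2.1 N m t).1 ht
  have key := h1 w w' V q r u₀ m N hu0 hN hw
  have step : ∀ D D' : Set Str, (u₀ ∈ D → u₀ ∈ D') → good D (b :: c :: t) →
      good D' (b :: c :: t) := by
    intro D D' hD hg
    rcases hg with ⟨s, hs⟩ | ⟨u, r', hs, hu⟩
    · exact Or.inl ⟨s, hs⟩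
    · right
      refine ⟨u, r', hs, ?_⟩
      have hs2 : t = mark u ++ false :: r' := by
        injection hs with h1' h2'
        injection h2' with h3' h4'
      have := (h2.1 u r' u₀ r₀ (by rw [← hs2, ← ht0])).1
      subst this
      exact hD hu
  exact ⟨step _ _ key.1, step _ _ key.2⟩

/-- The computations on the images of the two slots do not change. -/
theorem SWS_loc (h3 : Stmt_TOG) (h4 : Stmt_LOC) (N m : ℕ) (A B : Finset Str)
    (hA : A ⊆ Sl N m) (hB : B ⊆ Sl N m) (w : Om) (M : Cmd) (p : Polynomial ℕ) (z : Str)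
    (hQ : ∀ t'' ∈ Qs w M p (Sl N m) z, t'' ∉ A ∧ t'' ∉ B) :
    G w M p z = G (fun a => w (lf (tgm (A : Set Str) (B : Set Str)) a)) M p z := by
  refine (h4 w _ M p z {a | lf (tgm (A : Set Str) (B : Set Str)) a ≠ a} ?_ ?_).1
  · intro a ha hne
    obtain ⟨i, b, c, t, hat, ht⟩ := h3.2.2.1 (A : Set Str) (B : Set Str) a hne
    have htS : t ∈ Sl N m := by
      rcases ht with ht | ht
      · exact hA (by simpa using ht)
      · exact hB (by simpa using ht)
    have hq : t ∈ Qs w M p (Sl N m) z := by
      unfold Qs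
      rw [Finset.mem_filter]
      exact ⟨htS, a, ha, i, b, c, hat⟩
    have := hQ t hq
    rcases ht with ht | ht
    · exact this.1 (by simpa using ht)
    · exact this.2 (by simpa using ht)
  · intro a ha
    have e : lf (tgm (A : Set Str) (B : Set Str)) a = a := by
      by_contra hne
      exact ha hne
    show w a = w (lf (tgm (A : Set Str) (B : Set Str)) a)
    rw [e]

theorem p_SWS (h1 : Stmt_LCD) (h2 : Stmt_SLT) (h3 : Stmt_TOG) (h4 : Stmt_LOC) (h5 : Stmt_PAT) :
    Stmt_SWS := by
  intro w M p V q r N m hN6 hN hCC A B hA hB t ht t' ht' hgt hcase htA' htB' hQ hQ'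
  set w' : Om := fun a => w (lf (tgm (A : Set Str) (B : Set Str)) a) with hw'
  have hag : ∀ a : Str, a.length < N → w a = w' a := fun a ha =>
    SWS_agree h2 h3 h5 N m A B hA hB w a ha
  have hgood := SWS_good h1 h2 w w' V q r N m hN hag
  have hF : ∀ x, Fh w' x = Fh w (tgm (A : Set Str) (B : Set Str) x) := fun x =>
    h3.2.2.2 (A : Set Str) (B : Set Str) w x
  have hL := SWS_loc h3 h4 N m A B hA hB w M p (Fh w (false :: false :: t)) hQ
  have hL' := SWS_loc h3 h4 N m A B hA hB w M p (Fh w (false :: false :: t')) hQ'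
  rw [← hw'] at hL hL'
  have ht'00 : tgm (A : Set Str) (B : Set Str) (false :: false :: t') = false :: false :: t' := by
    simp only [tgm]
    rw [if_neg (by simpa using htA'), if_neg (by simpa using htB')]
  have hF' : Fh w' (false :: false :: t') = Fh w (false :: false :: t') := by rw [hF, ht'00]
  unfold gt at hgt
  by_cases hg : good (Ds w V q r) (false :: false :: t)
  · rw [if_pos hg] at hcase
    obtain ⟨hB1, hA1⟩ := hcase
    have hg' : good (Ds w V q r) (false :: false :: t') := by
      by_contra hng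
      exact hCC ⟨t, ht, t', ht', false, false, false, false, hg, hng, hgt⟩
    have e01 : tgm (A : Set Str) (B : Set Str) (false :: true :: t) = false :: false :: t := by
      simp only [tgm]
      rw [if_neg (by simpa using hA1), if_pos (by simpa using hB1)]
      rfl
    refine ⟨t', ht', t, ht, false, false, false, true, (hgood t' ht' _ _).1 hg', ?_, ?_⟩
    · intro hx
      rcases hx with ⟨s, hs⟩ | ⟨u, r', hs, hu⟩
      · simp at hs
      · simp at hs
    · rw [hF', hF, e01, ← hL, ← hL', hgt]
  · rw [if_neg hg] at hcase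
    have hg' : ¬ good (Ds w V q r) (false :: false :: t') := by
      intro hg1
      exact hCC ⟨t', ht', t, ht, false, false, false, false, hg1, hg, hgt.symm⟩
    have e10 : tgm (A : Set Str) (B : Set Str) (true :: false :: t) = false :: false :: t := by
      simp only [tgm]
      rw [if_pos (by simpa using hcase)]
      rfl
    refine ⟨t, ht, t', ht', true, false, false, false, Or.inl ⟨_, rfl⟩, ?_, ?_⟩
    · intro hx
      exact hg' ((hgood t' ht' _ _).2 hx)
    · rw [hF', hF, e10, ← hL, ← hL', hgt]

end Pool.RO
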