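import Pool.Agent.Work.MP_cb380d_ro.Interface

/-! # Block TOG (helper53): toggling -/

set_option autoImplicit false

open MeasureTheory Classical

namespace Pool.RO

open Pool.IC

theorem TOG_tgm_inv (A B : Set Str) : Function.Involutive (tgm A B) := by
  intro x
  match x with
  | [] => rfl
  | [b] => rfl
  | b :: c :: t =>
    by_cases hA : t ∈ A
    · simp [tgm, hA]
    · by_cases hB : t ∈ B
      · simp [tgm, hA, hB]
      · simp [tgm, hA, hB]

theorem TOG_len (A B : Set Str) (x : Str) : (tgm A B x).length = x.length := by
  match x with
  | [] => rfl
  | [b] => rfl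
  | b :: c :: t =>
    by_cases hA : t ∈ A
    · simp [tgm, hA]
    · by_cases hB : t ∈ B
      · simp [tgm, hA, hB]
      · simp [tgm, hA, hB]

theorem TOG_lf_inv (g : Str → Str) (hg : Function.Involutive g) : Function.Involutive (lf g) := by
  intro a
  induction a with
  | nil => rfl
  | cons b s ih =>
    cases b with
    | false =>
      show false :: lf g (lf g s) = false :: s
      rw [ih]
    | true =>
      show true :: g (g s) = true :: s
      rw [hg s]

theorem TOG_ad (g : Str → Str) (i : ℕ) (x : Str) : lf g (ad i x) = ad i (g x) := by
  induction i with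
  | zero => rfl
  | succ i ih =>
    have e : ∀ y, ad (i + 1) y = false :: ad i y := fun y => rfl
    rw [e, e, ← ih]
    rfl

theorem TOG_rd (g : Str → Str) (w : Om) (x : Str) (k : ℕ) :
    rd (fun a => w (lf g a)) x k = rd w (g x) k := by
  induction k with
  | zero => rfl
  | succ k ih =>
    show w (lf g (ad k x)) :: rd (fun a => w (lf g a)) x k = w (ad k (g x)) :: rd w (g x) k
    rw [ih, TOG_ad]

theorem p_TOG : Stmt_TOG := by
  refine ⟨fun A B => TOG_lf_inv _ (TOG_tgm_inv A B), TOG_ad, ?_, ?_⟩
  · intro A B a
    induction a with
    | nil =>
      intro h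
      exact absurd rfl h
    | cons b s ih =>
      intro h
      cases b with
      | false =>
        have h1 : lf (tgm A B) s ≠ s := by
          intro h2
          apply h
          show false :: lf (tgm A B) s = false :: s
          rw [h2]
        obtain ⟨i, b, c, t, h3, h4⟩ := ih h1
        exact ⟨i + 1, b, c, t, by rw [h3]; rfl, h4⟩
      | true =>
        have h1 : tgm A B s ≠ s := by
          intro h2
          apply h
          show true :: tgm A B s = true :: s
          rw [h2]
        match s, h1 with
        | [], h1 => exact absurd rfl h1
        | [b], h1 => exact absurd rfl h1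
        | b :: c :: t, h1 =>
          refine ⟨0, b, c, t, rfl, ?_⟩
          by_contra hc
          push Not at hc
          exact h1 (by simp [tgm, hc.1, hc.2])
  · intro A B w x
    unfold Fh
    rw [TOG_rd, TOG_len]

end Pool.RO
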