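import Pool.Agent.Work.MP_cb380d_ro.Interface

/-!
# Block UPD: a coordinate can be resampled
-/

set_option autoImplicit false

open MeasureTheory Classical Finset
open scoped ENNReal

namespace Pool.RO

open Pool.IC

theorem UPD_fair : Measure.map Bool.not fair = fair := by
  have hm : Measurable Bool.not := measurable_from_top
  unfold fair
  rw [Measure.map_add _ _ hm, Measure.map_smul, Measure.map_smul]
  have h1 : Measure.map Bool.not (Measure.dirac true) = Measure.dirac false := by
    rw [Measure.map_dirac' hm]
    rfl
  have h2 : Measure.map Bool.not (Measure.dirac false) = Measure.dirac true := by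
    rw [Measure.map_dirac' hm]
    rfl
  rw [h1, h2, add_comm]

/-- the flip of the bit at `a` -/
def UPD_flip (a : Str) (w : Om) : Om := fun b => (if b = a then Bool.not else id) (w b)

theorem UPD_meas (a : Str) : Measurable (UPD_flip a) := by
  rw [measurable_pi_iff]
  intro b
  have h1 : Measurable ((if b = a then Bool.not else id) : Bool → Bool) := measurable_from_top
  exact h1.comp (measurable_pi_apply b)

theorem UPD_map (a : Str) : Measure.map (UPD_flip a) coin = coin := by
  have h1 := Measure.infinitePi_map_pi (μ := fun _ : Str => fair)
    (f := fun b : Str => ((if b = a then Bool.not else id) : Bool → Bool))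
    (fun b => measurable_from_top)
  have h2 : (fun b : Str => Measure.map ((if b = a then Bool.not else id) : Bool → Bool) fair) =
      fun _ => fair := by
    funext b
    split_ifs
    · exact UPD_fair
    · exact Measure.map_id
  rw [h2] at h1
  exact h1

theorem UPD_half (a : Str) (c : Bool) (A : Set Om) (hA : MeasurableSet A) :
    coin {w | Function.update w a c ∈ A} = 2 * coin (A ∩ {w | w a = c}) := by
  have hc : MeasurableSet {w : Om | w a = c} :=
    measurableSet_eq_fun (measurable_pi_apply a) measurable_const
  have hAc : MeasurableSet (A ∩ {w | w a = c}) := hA.inter hc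
  have h1 : {w : Om | Function.update w a c ∈ A} =
      (A ∩ {w | w a = c}) ∪ (UPD_flip a) ⁻¹' (A ∩ {w | w a = c}) := by
    ext w
    simp only [Set.mem_ofPred_eq, Set.mem_union, Set.mem_inter_iff, Set.mem_preimage]
    by_cases hw : w a = c
    · have e1 : Function.update w a c = w := by
        rw [← hw]
        exact Function.update_eq_self a w
      rw [e1]
      constructor
      · intro h
        exact Or.inl ⟨h, hw⟩
      · rintro (h | h)
        · exact h.1
        · exfalso
          have h3 := h.2
          simp only [UPD_flip, if_true] at h3
          rw [hw] at h3
          cases c <;> simp at h3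
    · have e1 : Function.update w a c = UPD_flip a w := by
        funext b
        by_cases hb : b = a
        · subst hb
          simp only [UPD_flip, Function.update_self, if_true]
          revert hw
          cases w b <;> cases c <;> simp
        · simp only [UPD_flip, Function.update_of_ne hb, if_neg hb, id]
      rw [e1]
      constructor
      · intro h
        refine Or.inr ⟨h, ?_⟩
        rw [← e1, Function.update_self]
      · rintro (h | h)
        · exact absurd h.2 hw
        · exact h.1
  have hdisj : Disjoint (A ∩ {w | w a = c}) ((UPD_flip a) ⁻¹' (A ∩ {w | w a = c})) := by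
    rw [Set.disjoint_left]
    intro w hw hw'
    have h3 : w a = c := hw.2
    have h4 : UPD_flip a w a = c := hw'.2
    simp only [UPD_flip, if_true] at h4
    rw [h3] at h4
    cases c <;> simp at h4
  rw [h1, measure_union hdisj ((UPD_meas a) hAc), ← Measure.map_apply (UPD_meas a) hAc, UPD_map,
    two_mul]

theorem p_UPD : Stmt_UPD := by
  intro a A hA
  rw [UPD_half a true A hA, UPD_half a false A hA, ← mul_add]
  congr 1
  have hc : MeasurableSet {w : Om | w a = true} :=
    measurableSet_eq_fun (measurable_pi_apply a) measurable_const
  have h1 : A ∩ {w : Om | w a = false} = A \ {w | w a = true} := by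
    ext w
    simp only [Set.mem_inter_iff, Set.mem_ofPred_eq, Set.mem_sdiff]
    cases w a <;> simp
  rw [h1]
  exact measure_inter_add_sdiff A hc

end Pool.RO
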