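import Pool.Agent.Work.OracleCmd_h91.Cmd
import Mathlib

/-!
# Random oracles
-/

set_option autoImplicit false

open MeasureTheory
open scoped ENNReal

namespace Pool.RO

open Pool.IC

/-! ## The measure -/

/-- The fair coin. -/
noncomputable def fair : Measure Bool :=
  (2⁻¹ : ℝ≥0∞) • Measure.dirac true + (2⁻¹ : ℝ≥0∞) • Measure.dirac false

instance instFair : IsProbabilityMeasure fair := by
  constructor
  simp only [fair, Measure.coe_add, Measure.coe_smul, Pi.add_apply, Pi.smul_apply,
    measure_univ, smul_eq_mul, mul_one]
  exact ENNReal.inv_two_add_inv_two

/-- The set of all oracles, given by characteristic functions. -/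
abbrev Om := Str → Bool

/-- The random oracle: the strings are put into the oracle by independent fair coins. -/
noncomputable def coin : Measure Om := Measure.infinitePi fun _ : Str => fair

instance instCoin : IsProbabilityMeasure coin := by
  unfold coin; infer_instance

/-- The oracle with characteristic function `w`. -/
def orc (w : Om) : Set Str := {x | w x = true}

end Pool.RO
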