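import Pool.Agent.Work.MP_cb380d_ro.Base
import Pool.Agent.Work.MP_cb380d_h91.Model
import Pool.Agent.Work.OracleCmd_h91.Progs
import Pool.Agent.Work.OracleCmd_h91.Strings
import Mathlib

/-!
# NP-complete sets relative to a random oracle (MP_cb380d_lc)

Definitions for the theorem: for almost every oracle `w`, every set that is hard for NP relative
to `w` under Karp reductions is hard under one-one length-increasing Karp reductions.
-/

set_option autoImplicit false

open MeasureTheory Classical
open scoped ENNReal

namespace Pool.RO

open Pool.IC

/-! ## The hiding function -/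

/-- The `i`-th address belonging to the string `x`. -/
def ad (i : ℕ) (x : Str) : Str := List.replicate i false ++ true :: x

/-- The oracle bits at the first `k` addresses belonging to `x` (last bit first). -/
def rd (w : Om) (x : Str) : ℕ → Str
  | 0 => []
  | k + 1 => w (ad k x) :: rd w x k

/-- The hiding function. -/
def Fh (w : Om) (x : Str) : Str := rd w x (3 * x.length)

/-- The hidden strings of members: `true :: t`, and `false :: false :: t` where `t` is the code of
`(u, r)` with `u` in `D`. -/
def good (D : Set Str) (x : Str) : Prop :=
  (∃ t, x = true :: t) ∨ ∃ u r, x = false :: false :: (mark u ++ false :: r) ∧ u ∈ D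

/-- The language of the images of the good strings. -/
def Lng (w : Om) (D : Set Str) : Set Str := {z | ∃ x, good D x ∧ Fh w x = z}

/-- The set in NP given by the verifier `V` with time bound `q` and witness bound `r`. -/
def Ds (w : Om) (V : Cmd) (q r : Polynomial ℕ) : Set Str :=
  {u | ∃ y : Str, y.length ≤ r.eval u.length ∧
    out (orc w) V [] y u (q.eval (y.length + u.length)) = some [true]}

/-- The function computed by the program `M` in time `p`. -/
noncomputable def G (w : Om) (M : Cmd) (p : Polynomial ℕ) (z : Str) : Str :=
  (out (orc w) M [] [] z (p.eval z.length)).getD []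

/-- The stages. -/
def ns (K j : ℕ) : ℕ := 2 ^ (K ^ j)

/-- The string whose addresses give the random string for `u`. -/
def yu (n : ℕ) (u : Str) : Str := List.replicate n true ++ false :: u

/-- The random string (length `N`) for `u`, read at addresses of length more than `Nf`. -/
def seed (w : Om) (N Nf : ℕ) (u : Str) : Str := (rd w (yu Nf u) N).reverse

/-- The hidden instance for `u`. -/
def hid (w : Om) (N Nf : ℕ) (u : Str) : Str :=
  Fh w (false :: false :: (mark u ++ false :: seed w N Nf u))

/-- The new reduction at a stage. -/
noncomputable def gg (w : Om) (M : Cmd) (p : Polynomial ℕ) (N Nf : ℕ) (u : Str) : Str :=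
  G w M p (hid w N Nf u)

/-! ## Slots -/

/-- The slots: the codes of the pairs `(u, r)` with `u` of length at most `m` and `r` of
length `N`. -/
noncomputable def Sl (N m : ℕ) : Finset Str :=
  (short (m + 1) ×ˢ strs N).image fun a => mark a.1 ++ false :: a.2

/-- The value of the old reduction at the image of the slot `t`. -/
noncomputable def gt (w : Om) (M : Cmd) (p : Polynomial ℕ) (t : Str) : Str :=
  G w M p (Fh w (false :: false :: t))

/-- The slots in `S` which are asked by the computation on `z`. -/
noncomputable def Qs (w : Om) (M : Cmd) (p : Polynomial ℕ) (S : Finset Str) (z : Str) :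
    Finset Str :=
  S.filter fun t => ∃ a ∈ queries (orc w) M [] [] z (p.eval z.length),
    ∃ (i : ℕ) (b c : Bool), a = ad i (b :: c :: t)

/-- The number of collisions. -/
noncomputable def Cl (w : Om) (M : Cmd) (p : Polynomial ℕ) (N m : ℕ) : ℕ :=
  ((Sl N m ×ˢ Sl N m).filter fun a => gt w M p a.1 = gt w M p a.2).card

/-- The number of slots asked by the computation on their own image. -/
noncomputable def slf (w : Om) (M : Cmd) (p : Polynomial ℕ) (N m : ℕ) : ℕ :=
  ((Sl N m).filter fun t => t ∈ Qs w M p (Sl N m) (Fh w (false :: false :: t))).card

/-- Many collisions. -/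
def BB (M : Cmd) (p : Polynomial ℕ) (N m s : ℕ) : Set Om :=
  {w | (Sl N m).card ^ 2 ≤ 2 ^ s * Cl w M p N m}

/-- Many slots asked by the computation on their own image. -/
def SQ (M : Cmd) (p : Polynomial ℕ) (N m s : ℕ) : Set Om :=
  {w | (Sl N m).card < 2 ^ (s + 3) * slf w M p N m}

/-- The old reduction makes a mistake at the slots. -/
def CC (M : Cmd) (p : Polynomial ℕ) (V : Cmd) (q r : Polynomial ℕ) (N m : ℕ) : Set Om :=
  {w | ∃ t ∈ Sl N m, ∃ t' ∈ Sl N m, ∃ b c b' c' : Bool, good (Ds w V q r) (b :: c :: t) ∧
    ¬ good (Ds w V q r) (b' :: c' :: t') ∧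
    G w M p (Fh w (b :: c :: t)) = G w M p (Fh w (b' :: c' :: t'))}

/-- `A` depends only on the coordinates in `S`. -/
def FD (S : Finset Str) (A : Set Om) : Prop :=
  ∀ w w' : Om, (∀ a ∈ S, w a = w' a) → (w ∈ A ↔ w' ∈ A)

/-- Set the bits at the addresses belonging to `x` to `v`. -/
noncomputable def pat (w : Om) (x : Str) : Str → Om
  | [] => w
  | b :: v => Function.update (pat w x v) (ad v.length x) b

/-- Toggle the first bit if the rest is in `A`, the second bit if the rest is in `B`. -/
noncomputable def tgm (A B : Set Str) : Str → Str
  | b :: c :: t => if t ∈ A then (!b) :: c :: t else if t ∈ B then b :: (!c) :: t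
      else b :: c :: t
  | x => x

/-- Action on the addresses of an action on the strings. -/
def lf (g : Str → Str) : Str → Str
  | [] => []
  | true :: x => true :: g x
  | false :: s => false :: lf g s

end Pool.RO
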