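import Pool.Agent.Work.MP_cb380d_ro.B_MEA
import Pool.Agent.Work.MP_cb380d_ro.B_PRM
import Pool.Agent.Work.MP_cb380d_ro.B_UPD
import Pool.Agent.Work.MP_cb380d_ro.B_PAT
import Pool.Agent.Work.MP_cb380d_ro.B_RES
import Pool.Agent.Work.MP_cb380d_ro.B_CN1
import Pool.Agent.Work.MP_cb380d_ro.B_CN2
import Pool.Agent.Work.MP_cb380d_ro.B_LOC
import Pool.Agent.Work.MP_cb380d_ro.B_LCG
import Pool.Agent.Work.MP_cb380d_ro.B_LCD
import Pool.Agent.Work.MP_cb380d_ro.B_SLT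
import Pool.Agent.Work.MP_cb380d_ro.B_CMB
import Pool.Agent.Work.MP_cb380d_ro.B_TOG
import Pool.Agent.Work.MP_cb380d_ro.B_SWS
import Pool.Agent.Work.MP_cb380d_ro.B_FDE
import Pool.Agent.Work.MP_cb380d_ro.B_SWP
import Pool.Agent.Work.MP_cb380d_ro.B_SLF
import Pool.Agent.Work.MP_cb380d_ro.B_GGL
import Pool.Agent.Work.MP_cb380d_ro.B_COL
import Pool.Agent.Work.MP_cb380d_ro.B_SHO
import Pool.Agent.Work.MP_cb380d_ro.B_GRW
import Pool.Agent.Work.MP_cb380d_ro.B_STG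
import Pool.Agent.Work.MP_cb380d_ro.B_BCA
import Pool.Agent.Work.MP_cb380d_ro.B_INJ
import Pool.Agent.Work.MP_cb380d_ro.B_JJF
import Pool.Agent.Work.MP_cb380d_ro.B_CNT
import Pool.Agent.Work.MP_cb380d_ro.B_PFU
import Pool.Agent.Work.MP_cb380d_ro.B_PNP
import Pool.Agent.Work.MP_cb380d_ro.B_FIN

set_option autoImplicit false

namespace Pool.RO

theorem fin : Stmt_FIN := by
  have hMEA := p_MEA
  have hPRM := p_PRM
  have hUPD := p_UPD
  have hPAT := p_PAT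
  have hRES := p_RES hUPD hPAT
  have hCN1 := p_CN1
  have hCN2 := p_CN2
  have hLOC := p_LOC
  have hLCG := p_LCG hLOC
  have hLCD := p_LCD
  have hSLT := p_SLT
  have hCMB := p_CMB
  have hTOG := p_TOG
  have hSWS := p_SWS hLCD hSLT hTOG hLOC hPAT
  have hFDE := p_FDE hPAT hLCG hLCD hSLT
  have hSWP := p_SWP hMEA hPRM hCN1 hCMB hTOG hSWS hFDE hSLT
  have hSLF := p_SLF hMEA hRES hCN1 hCN2 hLOC hPAT hSLT hFDE
  have hGGL := p_GGL hPAT hLCG hSLT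
  have hCOL := p_COL hMEA hRES hCN2 hSLT hGGL hFDE
  have hSHO := p_SHO hMEA hRES hCN2 hSLT hGGL hFDE
  have hSTG := p_STG hSWP hSLF hCOL hSHO
  have hBCA := p_BCA hMEA hFDE hSTG
  have hINJ := p_INJ hMEA hRES hCN2 hPAT
  have hJJF := p_JJF
  exact p_FIN hLCG hSLT p_CNT hBCA hINJ hJJF p_GRW (p_PFU hJJF) p_PNP

end Pool.RO
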