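import Pool.Agent.Work.MP_cb380d_ro.Defs

/-!
# Random oracle theorem: statements of the blocks

Block `X` lives in `B_X.lean` (import this file, namespace `Pool.RO`) and proves
`theorem p_X : Stmt_X`, or `theorem p_X (h1 : Stmt_Y) ... : Stmt_X` with the statements of the
column `uses` as hypotheses, in that order.
-/

set_option autoImplicit false

open MeasureTheory Classical Finset
open scoped ENNReal

namespace Pool.RO

open Pool.IC

/-! ## Part 1: measure -/

/-- MEA: sets which depend on finitely many coordinates are measurable. -/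
def Stmt_MEA : Prop := ∀ (S : Finset Str) (A : Set Om), FD S A → MeasurableSet A

/-- PRM: permutations of the coordinates preserve the measure. -/
def Stmt_PRM : Prop := ∀ g : Str → Str, Function.Involutive g → ∀ A : Set Om, MeasurableSet A →
  coin {w | (fun a => w (g a)) ∈ A} = coin A

/-- UPD: a coordinate can be resampled. -/
def Stmt_UPD : Prop := ∀ (a : Str) (A : Set Om), MeasurableSet A →
  coin {w | Function.update w a true ∈ A} + coin {w | Function.update w a false ∈ A} = 2 * coin A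

/-- RES: the bits at the first `k` addresses belonging to `x` can be resampled. -/
def Stmt_RES : Prop := ∀ (x : Str) (k : ℕ) (A : Set Om), MeasurableSet A →
  ∑ v ∈ strs k, coin {w | pat w x v ∈ A} = 2 ^ k * coin A

/-- PAT: facts about `ad`, `rd` and `pat`. -/
def Stmt_PAT : Prop :=
  (∀ i j x y, ad i x = ad j y → i = j ∧ x = y) ∧ (∀ i x, (ad i x).length = i + 1 + x.length) ∧
  (∀ (w : Om) x v, rd (pat w x v) x v.length = v) ∧
  (∀ (w : Om) x v a, (∀ i < v.length, a ≠ ad i x) → pat w x v a = w a) ∧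
  (∀ (w : Om) x k, (rd w x k).length = k) ∧
  (∀ (w w' : Om) x k, (∀ i < k, w (ad i x) = w' (ad i x)) → rd w x k = rd w' x k) ∧
  ∀ (x v : Str), Measurable fun w : Om => pat w x v

/-- CN1: counting, lower bound. -/
def Stmt_CN1 : Prop := ∀ (ι : Type) (I : Finset ι) (B : ι → Set Om) (A : Set Om) (c : ℕ),
  (∀ i ∈ I, MeasurableSet (B i)) → MeasurableSet A →
  (∀ w ∈ A, c ≤ (I.filter fun i => w ∈ B i).card) → (c : ℝ≥0∞) * coin A ≤ ∑ i ∈ I, coin (B i)

/-- CN2: counting, upper bound. -/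
def Stmt_CN2 : Prop := ∀ (ι : Type) (I : Finset ι) (B : ι → Set Om) (A : Set Om) (c : ℕ),
  (∀ i ∈ I, MeasurableSet (B i)) → MeasurableSet A → (∀ i ∈ I, B i ⊆ A) →
  (∀ w ∈ A, (I.filter fun i => w ∈ B i).card ≤ c) → ∑ i ∈ I, coin (B i) ≤ (c : ℝ≥0∞) * coin A

/-! ## Part 2: locality -/

/-- LOC: the computation is not changed if the oracle is changed at strings not asked. -/
def Stmt_LOC : Prop := ∀ (w w' : Om) (M : Cmd) (p : Polynomial ℕ) (z : Str) (S : Set Str),
  (∀ a ∈ queries (orc w) M [] [] z (p.eval z.length), a ∉ S) → (∀ a, a ∉ S → w a = w' a) →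
  G w M p z = G w' M p z ∧
  queries (orc w') M [] [] z (p.eval z.length) = queries (orc w) M [] [] z (p.eval z.length)

/-- LCG: the value and the questions depend on short strings only; the value is short. -/
def Stmt_LCG : Prop := ∀ (w w' : Om) (M : Cmd) (p : Polynomial ℕ) (z : Str) (L : ℕ),
  z.length + p.eval z.length < L → (∀ a : Str, a.length < L → w a = w' a) →
  G w M p z = G w' M p z ∧
  queries (orc w') M [] [] z (p.eval z.length) = queries (orc w) M [] [] z (p.eval z.length) ∧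
  (G w M p z).length < L

/-- LCD: membership in `Ds` depends on short strings only. -/
def Stmt_LCD : Prop := ∀ (w w' : Om) (V : Cmd) (q r : Polynomial ℕ) (u : Str) (m L : ℕ),
  u.length ≤ m → m + r.eval m + q.eval (m + r.eval m) < L →
  (∀ a : Str, a.length < L → w a = w' a) → (u ∈ Ds w V q r ↔ u ∈ Ds w' V q r)

/-- SLT: facts about slots. -/
def Stmt_SLT : Prop :=
  (∀ u r u' r' : Str, mark u ++ false :: r = mark u' ++ false :: r' → u = u' ∧ r = r') ∧
  (∀ (N m : ℕ) (t : Str), t ∈ Sl N m ↔ ∃ u r : Str, t = mark u ++ false :: r ∧ u.length ≤ m ∧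
    r.length = N) ∧
  (∀ (N m : ℕ), ∀ t ∈ Sl N m, N + 1 ≤ t.length ∧ t.length ≤ N + 2 * m + 1) ∧
  (∀ N m : ℕ, 2 ^ N ≤ (Sl N m).card ∧ (Sl N m).card ≤ 2 ^ (m + 1) * 2 ^ N) ∧
  (∀ (w : Om) (M : Cmd) (p : Polynomial ℕ) (S : Finset Str) (z : Str),
    (Qs w M p S z).card ≤ p.eval z.length)

/-! ## Part 3: the stages -/

/-- CMB: the combinatorial lemma on random tuples. -/
def Stmt_CMB : Prop :=
  ∀ (α : Type) [DecidableEq α] (X : Finset α) (Q Q' : α → Finset α) (E : α → α → Prop) (q s : ℕ),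
    (∀ a ∈ X, (Q a).card ≤ q) → (∀ a ∈ X, (Q' a).card ≤ q) →
    X.card ^ 2 ≤ 2 ^ s * ((X ×ˢ X).filter fun z => E z.1 z.2).card →
    2 ^ (s + 2) * (X.filter fun a => a ∈ Q a).card ≤ X.card →
    2 ^ (2 * s + 11) * q ≤ X.card →
    X.card ^ (2 ^ (s + 4)) ≤
      2 * ((Fintype.piFinset fun _ : Fin (2 ^ (s + 4)) => X).filter fun τ =>
        ∃ i, ∃ a ∈ X, E (τ i) a ∧ (∀ k, τ k ∉ Q (τ i)) ∧ ∀ k, τ k ∉ Q' a).card

/-- TOG: toggling. -/
def Stmt_TOG : Prop :=
  (∀ A B : Set Str, Function.Involutive (lf (tgm A B))) ∧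
  (∀ (g : Str → Str) (i : ℕ) (x : Str), lf g (ad i x) = ad i (g x)) ∧
  (∀ (A B : Set Str) (a : Str), lf (tgm A B) a ≠ a →
    ∃ (i : ℕ) (b c : Bool) (t : Str), a = ad i (b :: c :: t) ∧ (t ∈ A ∨ t ∈ B)) ∧
  ∀ (A B : Set Str) (w : Om) (x : Str), Fh (fun a => w (lf (tgm A B) a)) x = Fh w (tgm A B x)

/-- SWS: a successful tuple gives a mistake (`A`, `B` are the sets of slots whose first, second
bit is toggled). -/
def Stmt_SWS : Prop :=
  ∀ (w : Om) (M : Cmd) (p : Polynomial ℕ) (V : Cmd) (q r : Polynomial ℕ) (N m : ℕ),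
    6 * m + 9 ≤ N → m + r.eval m + q.eval (m + r.eval m) < N → w ∉ CC M p V q r N m →
    ∀ (A B : Finset Str), A ⊆ Sl N m → B ⊆ Sl N m → ∀ t ∈ Sl N m, ∀ t' ∈ Sl N m,
    gt w M p t = gt w M p t' →
    (if good (Ds w V q r) (false :: false :: t) then t ∈ B ∧ t ∉ A else t ∈ A) →
    t' ∉ A → t' ∉ B →
    (∀ t'' ∈ Qs w M p (Sl N m) (Fh w (false :: false :: t)), t'' ∉ A ∧ t'' ∉ B) →
    (∀ t'' ∈ Qs w M p (Sl N m) (Fh w (false :: false :: t')), t'' ∉ A ∧ t'' ∉ B) →
    (fun a => w (lf (tgm (A : Set Str) (B : Set Str)) a)) ∈ CC M p V q r N m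

/-- FDE: the events of a stage depend on strings of length less than `L`. -/
def Stmt_FDE : Prop :=
  ∀ (M : Cmd) (p : Polynomial ℕ) (V : Cmd) (q r : Polynomial ℕ) (N m s L : ℕ),
    6 * m + 9 ≤ N → m + r.eval m + q.eval (m + r.eval m) < L → 6 * N + p.eval (4 * N) ≤ L →
    FD (short L) (BB M p N m s) ∧ FD (short L) (SQ M p N m s) ∧
    FD (short L) (CC M p V q r N m) ∧
    (∀ t ∈ Sl N m, FD (short L) {w | t ∈ Qs w M p (Sl N m) (Fh w (false :: false :: t))}) ∧
    ∀ t ∈ Sl N m, ∀ z : Str, z.length ≤ 4 * N → FD (short L) {w | t ∈ Qs w M p (Sl N m) z}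

/-- SWP: many collisions are at most three times as probable as a mistake. -/
def Stmt_SWP : Prop :=
  ∀ (M : Cmd) (p : Polynomial ℕ) (V : Cmd) (q r : Polynomial ℕ) (N m s : ℕ) (P : Set Om),
    6 * m + 9 ≤ N → m + r.eval m + q.eval (m + r.eval m) < N →
    2 ^ (2 * s + 13) * (2 * p.eval (4 * N) + 2) ≤ 2 ^ (N + 1) → FD (short N) P →
    coin (P ∩ (BB M p N m s \ SQ M p N m s)) ≤ 3 * coin (P ∩ CC M p V q r N m)

/-- SLF: few slots are asked by the computation on their own image. -/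
def Stmt_SLF : Prop :=
  ∀ (M : Cmd) (p : Polynomial ℕ) (N m s : ℕ), 6 * m + 9 ≤ N →
    2 ^ N * coin (SQ M p N m s) ≤ 2 ^ (s + 3) * ((m + 1) * p.eval (4 * N) : ℕ)

/-- GGL: locality of the new reduction; effect of resampling the random strings. -/
def Stmt_GGL : Prop :=
  ∀ (M : Cmd) (p : Polynomial ℕ) (N m Nf : ℕ) (u : Str), 6 * m + 9 ≤ N → u.length ≤ m →
    6 * N + p.eval (4 * N) ≤ Nf →
    (∀ w w' : Om, (∀ a : Str, a.length < N + Nf + m + 3 → w a = w' a) →
      gg w M p N Nf u = gg w' M p N Nf u) ∧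
    (∀ (w : Om) (v : Str), v.length = N →
      gg (pat w (yu Nf u) v) M p N Nf u = gt w M p (mark u ++ false :: v.reverse)) ∧
    (∀ (w : Om) (v u' : Str), u' ≠ u →
      gg (pat w (yu Nf u') v) M p N Nf u = gg w M p N Nf u) ∧
    (∀ (w : Om) (v u' : Str), ∀ t ∈ Sl N m, gt (pat w (yu Nf u') v) M p t = gt w M p t) ∧
    ∀ (w : Om) (v u' : Str) (s : ℕ), pat w (yu Nf u') v ∈ BB M p N m s ↔ w ∈ BB M p N m s

/-- COL: the new reduction is one-one at a stage with few collisions. -/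
def Stmt_COL : Prop :=
  ∀ (M : Cmd) (p : Polynomial ℕ) (N m s Nf : ℕ) (u u' : Str), 6 * m + 9 ≤ N →
    6 * N + p.eval (4 * N) ≤ Nf → u.length ≤ m → u'.length ≤ m → u ≠ u' →
    2 ^ s * coin ({w | gg w M p N Nf u = gg w M p N Nf u'} \ BB M p N m s) ≤ 4 ^ (m + 1)

/-- SHO: the new reduction has long values at a stage with few collisions. -/
def Stmt_SHO : Prop :=
  ∀ (M : Cmd) (p : Polynomial ℕ) (N m s Nf l a : ℕ) (u : Str), 6 * m + 9 ≤ N →
    6 * N + p.eval (4 * N) ≤ Nf → u.length ≤ m → l + 2 * m + 3 + 2 * a ≤ s →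
    2 ^ a * coin ({w | (gg w M p N Nf u).length ≤ l} \ BB M p N m s) ≤ 1

/-- The bound for the lengths at the next stage. -/
def bb (p : Polynomial ℕ) (n : ℕ) : ℕ := 6 * n + p.eval (4 * n)

/-- The conditions for a stage. -/
def Cond (p q r : Polynomial ℕ) (K n : ℕ) : Prop :=
  1 ≤ n ∧ 64 * bb p n ≤ n ^ K ∧
  bb p n + r.eval (bb p n) + q.eval (bb p n + r.eval (bb p n)) < n ^ K ∧
  p.eval (4 * n ^ K) ≤ 2 ^ n

/-- GRW: the conditions hold for large `n`. -/
def Stmt_GRW : Prop := ∀ p q r : Polynomial ℕ, ∃ κ n₀ : ℕ, 1 ≤ κ ∧ ∀ n ≥ n₀,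
  Cond p q r (2 ^ κ) n

/-- The new reduction fails to be one-one and length-increasing at a stage. -/
def Fb (M : Cmd) (p : Polynomial ℕ) (N Nf m : ℕ) : Set Om :=
  {w | (∃ u u' : Str, u.length ≤ m ∧ u'.length ≤ m ∧ u ≠ u' ∧
      gg w M p N Nf u = gg w M p N Nf u') ∨ ∃ u : Str, u.length ≤ m ∧
      (gg w M p N Nf u).length ≤ m}

/-- STG: the probability of failure at a stage. -/
def Stmt_STG : Prop :=
  ∀ (M : Cmd) (p : Polynomial ℕ) (V : Cmd) (q r : Polynomial ℕ) (K n : ℕ) (P : Set Om),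
    Cond p q r K n → Cond p q r K (n ^ K) → FD (short (n ^ K)) P →
    coin (P ∩ Fb M p (n ^ K) ((n ^ K) ^ K) (bb p n)) ≤
      3 * coin (P ∩ CC M p V q r (n ^ K) (bb p n)) + 2 * (2⁻¹ : ℝ≥0∞) ^ (bb p n)

/-- BCA: almost surely, if the old reduction makes no mistake from some stage on, then the new
reduction is one-one and length-increasing from some stage on. -/
def Stmt_BCA : Prop :=
  ∀ (M : Cmd) (p : Polynomial ℕ) (V : Cmd) (q r : Polynomial ℕ) (K n₀ : ℕ), 2 ≤ K →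
    (∀ n ≥ n₀, Cond p q r K n) → ∀ᵐ w ∂coin, ∀ J : ℕ, n₀ ≤ ns K J →
    (∀ j ≥ J, w ∉ CC M p V q r (ns K (j + 1)) (bb p (ns K j))) →
    ∃ j₁, ∀ j ≥ j₁, w ∉ Fb M p (ns K (j + 1)) (ns K (j + 2)) (bb p (ns K j))

/-- INJ: almost surely, the hiding function is one-one on the strings of length `n` for all
large `n`. -/
def Stmt_INJ : Prop := ∀ᵐ w ∂coin, ∃ n₀ : ℕ, ∀ x x' : Str, n₀ ≤ x.length →
  Fh w x = Fh w x' → x = x'

/-- The stage of a string with `t` = length plus a constant. -/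
noncomputable def jj (K t : ℕ) : ℕ := sInf {j : ℕ | t ≤ ∑ i ∈ range j, ns K i}

/-- JJF: facts about the stage function. -/
def Stmt_JJF : Prop := ∀ K t : ℕ, 2 ≤ K →
  (t ≤ ∑ i ∈ range (jj K t), ns K i) ∧ (∀ j, j < jj K t → ∑ i ∈ range j, ns K i < t) ∧
  t ≤ ns K (jj K t) ∧ ns K (jj K t) ≤ (t + 2) ^ K ^ 2 ∧ (∀ t', t ≤ t' → jj K t ≤ jj K t') ∧
  ∀ j, ns K j < t → j < jj K t

/-! ## Part 4: the programs -/

/-- PFU: the new reduction is computable in polynomial time. -/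
def Stmt_PFU : Prop :=
  ∀ (w : Om) (M : Cmd) (p : Polynomial ℕ) (κ c : ℕ), 1 ≤ κ →
    (∀ z : Str, out (orc w) M [] [] z (p.eval z.length) = some (G w M p z)) →
    PolyFun (orc w) fun u => gg w M p (ns (2 ^ κ) (jj (2 ^ κ) (u.length + c) + 1))
      (ns (2 ^ κ) (jj (2 ^ κ) (u.length + c) + 2)) u

/-- PNP: the language of the images of the good strings is in NP. -/
def Stmt_PNP : Prop := ∀ (w : Om) (D : Set Str), InNP (orc w) D → InNP (orc w) (Lng w D)

/-- CNT: there are countably many programs and polynomials. -/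
def Stmt_CNT : Prop := Countable Cmd ∧ Countable (Polynomial ℕ)

/-! ## Part 5: the theorem -/

/-- FIN: relative to almost every oracle, the sets that are hard for NP under Karp reductions are
hard under one-one length-increasing Karp reductions. -/
def Stmt_FIN : Prop := ∀ᵐ w ∂coin, ∀ A : Set Str,
  (∀ L : Set Str, InNP (orc w) L → ∃ f, Karp (orc w) L A f) →
  ∀ K : Set Str, InNP (orc w) K →
    ∃ f : Str → Str, Karp (orc w) K A f ∧ Function.Injective f ∧ ∀ x, x.length < (f x).length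

end Pool.RO
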