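import Pool.Agent.Work.MP_cb380d_ro.Interface

/-! Primitive programs on arbitrary stacks, with pointwise specifications. -/

set_option autoImplicit false

open Classical

namespace Pool.RO

open Pool.IC

theorem le_push (B : Set Str) (i : ℕ) (b : Bool) (s s' : Store) (h1 : s' i = b :: s i)
    (h2 : ∀ k, k ≠ i → s' k = s k) : ExecLe B (Cmd.push i b) s 1 s' := by
  have : s' = Function.update s i (b :: s i) := by
    funext k
    by_cases h : k = i
    · rw [h, h1, Function.update_self]
    · rw [Function.update_of_ne h, h2 k h]
  rw [this]
  exact ⟨1, le_rfl, exec_push B i b s⟩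

theorem le_pop (B : Set Str) (i : ℕ) (s s' : Store) (h1 : s' i = (s i).tail)
    (h2 : ∀ k, k ≠ i → s' k = s k) : ExecLe B (Cmd.pop i) s 1 s' := by
  have : s' = Function.update s i (s i).tail := by
    funext k
    by_cases h : k = i
    · rw [h, h1, Function.update_self]
    · rw [Function.update_of_ne h, h2 k h]
  rw [this]
  exact ⟨1, le_rfl, exec_pop B i s⟩

/-- A loop which runs exactly `N` times. -/
theorem loop_run {B : Set Str} {i : ℕ} {c : Cmd} (S : ℕ → Store) (N T : ℕ)
    (h : ∀ k < N, S k i ≠ [] ∧ ExecLe B c (S k) T (S (k + 1))) (hN : S N i = []) :
    ExecLe B (Cmd.loop i c) (S 0) (N * (T + 1) + 1) (S N) := by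
  have key : ∀ d a, a + d = N → ExecLe B (Cmd.loop i c) (S a) (d * (T + 1) + 1) (S N) := by
    intro d
    induction d with
    | zero =>
      intro a ha
      rw [Nat.add_zero] at ha
      rw [ha]
      exact (ExecLe.loop_nil hN).mono (by omega)
    | succ d ih =>
      intro a ha
      obtain ⟨h1, h2⟩ := h a (by omega)
      exact (ExecLe.loop_step h1 h2 (ih (a + 1) (by omega))).mono (by ring_nf; omega)
  exact key N 0 (by omega)

/-- Move stack `i` to stack `j` (reversed). -/
theorem mv_run (B : Set Str) {i j : ℕ} (hij : i ≠ j) (s s' : Store) (h1 : s' i = [])
    (h2 : s' j = (s i).reverse ++ s j) (h3 : ∀ k, k ≠ i → k ≠ j → s' k = s k) :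
    ExecLe B (mv i j) s (5 * (s i).length + 1) s' := by
  have key : ∀ (l : Str) (s : Store), s i = l → ExecLe B (mv i j) s (5 * l.length + 1)
      (fun k => if k = i then [] else if k = j then l.reverse ++ s j else s k) := by
    intro l
    induction l with
    | nil =>
      intro s hs
      have : (fun k => if k = i then [] else if k = j then ([] : Str).reverse ++ s j else s k)
          = s := by
        funext k
        split_ifs with ha hb
        · rw [ha, hs]
        · rw [hb]; simp
        · rfl
      rw [this]
      exact ExecLe.loop_nil hs
    | cons x l ih =>
      intro s hs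
      set s1 : Store := fun k => if k = i then l else if k = j then x :: s j else s k with hs1
      have e1 : ExecLe B (Cmd.branch i Cmd.skip (Cmd.seq (Cmd.pop i) (Cmd.push j false))
          (Cmd.seq (Cmd.pop i) (Cmd.push j true))) s 4 s1 := by
        refine ExecLe.branch_cons (b := x) (l := l) hs ?_
        have f1 : ExecLe B (Cmd.pop i) s 1 (fun k => if k = i then l else s k) :=
          le_pop B i s _ (by simp [hs]) (fun k hk => by simp [hk])
        have f2 : ExecLe B (Cmd.push j x) (fun k => if k = i then l else s k) 1 s1 := by
          refine le_push B j x _ _ ?_ fun k hk => ?_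
          · simp [hs1, hij.symm]
          · simp [hs1, hk]
        cases x
        · exact f1.seq f2
        · exact f1.seq f2
      have e2 := ih s1 (by simp [hs1])
      have e3 := ExecLe.loop_step (i := i) (by rw [hs]; simp) e1 e2
      have e4 : (fun k => if k = i then [] else if k = j then l.reverse ++ s1 j else s1 k) =
          (fun k => if k = i then [] else if k = j then (x :: l).reverse ++ s j else s k) := by
        funext k
        split_ifs with ha hb
        · rfl
        · simp [hs1, hij.symm]
        · simp [hs1, ha, hb]
      rw [e4] at e3
      exact e3.mono (by simp only [List.length_cons]; omega)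
  have h0 := key (s i) s rfl
  have : s' = (fun k => if k = i then [] else if k = j then (s i).reverse ++ s j else s k) := by
    funext k
    split_ifs with ha hb
    · rw [ha, h1]
    · rw [hb, h2]
    · exact h3 k ha hb
  rw [this]
  exact h0

/-- Clear stack `i`. -/
def clr (i : ℕ) : Cmd := Cmd.loop i (Cmd.pop i)

theorem clr_run (B : Set Str) {i : ℕ} (s s' : Store) (h1 : s' i = [])
    (h3 : ∀ k, k ≠ i → s' k = s k) :
    ExecLe B (clr i) s (2 * (s i).length + 1) s' := by
  have key : ∀ (l : Str) (s : Store), s i = l → ExecLe B (clr i) s (2 * l.length + 1)
      (fun k => if k = i then [] else s k) := by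
    intro l
    induction l with
    | nil =>
      intro s hs
      have : (fun k => if k = i then [] else s k) = s := by
        funext k
        split_ifs with ha
        · rw [ha, hs]
        · rfl
      rw [this]
      exact ExecLe.loop_nil hs
    | cons x l ih =>
      intro s hs
      have f1 : ExecLe B (Cmd.pop i) s 1 (fun k => if k = i then l else s k) :=
        le_pop B i s _ (by simp [hs]) (fun k hk => by simp [hk])
      have e2 := ih (fun k => if k = i then l else s k) (by simp)
      have e3 := ExecLe.loop_step (i := i) (by rw [hs]; simp) f1 e2
      have e4 : (fun k => if k = i then [] else (fun k => if k = i then l else s k) k) =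
          (fun k => if k = i then [] else s k) := by
        funext k
        by_cases hk : k = i
        · simp [hk]
        · simp [hk]
      simp only [] at e4
      rw [e4] at e3
      exact e3.mono (by simp only [List.length_cons]; omega)
  have h0 := key (s i) s rfl
  have : s' = (fun k => if k = i then [] else s k) := by
    funext k
    split_ifs with ha
    · rw [ha, h1]
    · exact h3 k ha
  rw [this]
  exact h0

/-- Move stack `i` to the stacks `j` and `k` (reversed). -/
def dp (i j k : ℕ) : Cmd :=
  Cmd.loop i (Cmd.branch i Cmd.skip
    (Cmd.seq (Cmd.pop i) (Cmd.seq (Cmd.push j false) (Cmd.push k false)))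
    (Cmd.seq (Cmd.pop i) (Cmd.seq (Cmd.push j true) (Cmd.push k true))))

theorem dp_run (B : Set Str) {i j k : ℕ} (hij : i ≠ j) (hik : i ≠ k) (hjk : j ≠ k)
    (s s' : Store) (h1 : s' i = [])
    (h2 : s' j = (s i).reverse ++ s j) (h2' : s' k = (s i).reverse ++ s k)
    (h3 : ∀ a, a ≠ i → a ≠ j → a ≠ k → s' a = s a) :
    ExecLe B (dp i j k) s (7 * (s i).length + 1) s' := by
  have key : ∀ (l : Str) (s : Store), s i = l → ExecLe B (dp i j k) s (7 * l.length + 1)
      (fun a => if a = i then [] else if a = j then l.reverse ++ s j else
        if a = k then l.reverse ++ s k else s a) := by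
    intro l
    induction l with
    | nil =>
      intro s hs
      have : (fun a => if a = i then [] else if a = j then ([] : Str).reverse ++ s j else
        if a = k then ([] : Str).reverse ++ s k else s a) = s := by
        funext a
        split_ifs with ha hb hc
        · rw [ha, hs]
        · rw [hb]; simp
        · rw [hc]; simp
        · rfl
      rw [this]
      exact ExecLe.loop_nil hs
    | cons x l ih =>
      intro s hs
      set s1 : Store := fun a => if a = i then l else if a = j then x :: s j else
        if a = k then x :: s k else s a with hs1
      have e1 : ExecLe B (Cmd.branch i Cmd.skip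
          (Cmd.seq (Cmd.pop i) (Cmd.seq (Cmd.push j false) (Cmd.push k false)))
          (Cmd.seq (Cmd.pop i) (Cmd.seq (Cmd.push j true) (Cmd.push k true)))) s 6 s1 := by
        refine ExecLe.branch_cons (b := x) (l := l) hs ?_
        have f1 : ExecLe B (Cmd.pop i) s 1 (fun a => if a = i then l else s a) :=
          le_pop B i s _ (by simp [hs]) (fun k hk => by simp [hk])
        have f2 : ExecLe B (Cmd.push j x) (fun a => if a = i then l else s a) 1
            (fun a => if a = i then l else if a = j then x :: s j else s a) := by
          refine le_push B j x _ _ ?_ fun k hk => ?_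
          · simp [hij.symm]
          · simp [hk]
        have f3 : ExecLe B (Cmd.push k x)
            (fun a => if a = i then l else if a = j then x :: s j else s a) 1 s1 := by
          refine le_push B k x _ _ ?_ fun a ha => ?_
          · simp [hs1, hik.symm, hjk.symm]
          · simp [hs1, ha]
        cases x
        · exact f1.seq (f2.seq f3)
        · exact f1.seq (f2.seq f3)
      have e2 := ih s1 (by simp [hs1])
      have e3 := ExecLe.loop_step (i := i) (by rw [hs]; simp) e1 e2
      have e4 : (fun a => if a = i then [] else if a = j then l.reverse ++ s1 j else
          if a = k then l.reverse ++ s1 k else s1 a) =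
          (fun a => if a = i then [] else if a = j then (x :: l).reverse ++ s j else
          if a = k then (x :: l).reverse ++ s k else s a) := by
        funext a
        split_ifs with ha hb hc
        · rfl
        · simp [hs1, hij.symm]
        · simp [hs1, hik.symm, hjk.symm]
        · simp [hs1, ha, hb, hc]
      rw [e4] at e3
      exact e3.mono (by simp only [List.length_cons]; omega)
  have h0 := key (s i) s rfl
  have : s' = (fun a => if a = i then [] else if a = j then (s i).reverse ++ s j else
        if a = k then (s i).reverse ++ s k else s a) := by
    funext a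
    split_ifs with ha hb hc
    · rw [ha, h1]
    · rw [hb, h2]
    · rw [hc, h2']
    · exact h3 a ha hb hc
  rw [this]
  exact h0

/-- Unary numbers. -/
abbrev un (n : ℕ) : Str := List.replicate n true

theorem un_succ' (n : ℕ) (l : Str) : un n ++ true :: l = un (n + 1) ++ l := by
  have : un (n + 1) = un n ++ [true] := List.replicate_succ'
  rw [this, List.append_assoc]
  rfl

/-- Move the length of stack `i` to stack `j`. -/
def on (i j : ℕ) : Cmd := Cmd.loop i (Cmd.seq (Cmd.pop i) (Cmd.push j true))

theorem on_run (B : Set Str) {i j : ℕ} (hij : i ≠ j) (s s' : Store) (h1 : s' i = [])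
    (h2 : s' j = un (s i).length ++ s j) (h3 : ∀ k, k ≠ i → k ≠ j → s' k = s k) :
    ExecLe B (on i j) s (5 * (s i).length + 1) s' := by
  have key : ∀ (l : Str) (s : Store), s i = l → ExecLe B (on i j) s (5 * l.length + 1)
      (fun k => if k = i then [] else if k = j then un l.length ++ s j else s k) := by
    intro l
    induction l with
    | nil =>
      intro s hs
      have : (fun k => if k = i then [] else if k = j then un ([] : Str).length ++ s j else s k)
          = s := by
        funext k
        split_ifs with ha hb
        · rw [ha, hs]
        · rw [hb]; simp
        · rfl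
      rw [this]
      exact ExecLe.loop_nil hs
    | cons x l ih =>
      intro s hs
      set s1 : Store := fun k => if k = i then l else if k = j then true :: s j else s k with hs1
      have e1 : ExecLe B (Cmd.seq (Cmd.pop i) (Cmd.push j true)) s 3 s1 := by
        have f1 : ExecLe B (Cmd.pop i) s 1 (fun k => if k = i then l else s k) :=
          le_pop B i s _ (by simp [hs]) (fun k hk => by simp [hk])
        have f2 : ExecLe B (Cmd.push j true) (fun k => if k = i then l else s k) 1 s1 := by
          refine le_push B j true _ _ ?_ fun k hk => ?_
          · simp [hs1, hij.symm]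
          · simp [hs1, hk]
        exact f1.seq f2
      have e2 := ih s1 (by simp [hs1])
      have e3 := ExecLe.loop_step (i := i) (by rw [hs]; simp) e1 e2
      have e4 : (fun k => if k = i then [] else if k = j then un l.length ++ s1 j else s1 k) =
          (fun k => if k = i then [] else if k = j then un (x :: l).length ++ s j else s k) := by
        funext k
        split_ifs with ha hb
        · rfl
        · simp only [hs1, if_neg hij.symm, if_true, List.length_cons]
          exact un_succ' _ _
        · simp [hs1, ha, hb]
      rw [e4] at e3
      exact e3.mono (by simp only [List.length_cons]; omega)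
  have h0 := key (s i) s rfl
  have : s' = (fun k => if k = i then [] else if k = j then un (s i).length ++ s j else s k) := by
    funext k
    split_ifs with ha hb
    · rw [ha, h1]
    · rw [hb, h2]
    · exact h3 k ha hb
  rw [this]
  exact h0

/-- Move stack `i` to stack `j` (reversed), every bit followed by a mark `true`. -/
def mk (i j : ℕ) : Cmd :=
  Cmd.loop i (Cmd.branch i Cmd.skip
    (Cmd.seq (Cmd.pop i) (Cmd.seq (Cmd.push j false) (Cmd.push j true)))
    (Cmd.seq (Cmd.pop i) (Cmd.seq (Cmd.push j true) (Cmd.push j true))))

theorem mk_run (B : Set Str) {i j : ℕ} (hij : i ≠ j) (s s' : Store) (h1 : s' i = [])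
    (h2 : s' j = mark (s i).reverse ++ s j) (h3 : ∀ k, k ≠ i → k ≠ j → s' k = s k) :
    ExecLe B (mk i j) s (7 * (s i).length + 1) s' := by
  have key : ∀ (l : Str) (s : Store), s i = l → ExecLe B (mk i j) s (7 * l.length + 1)
      (fun k => if k = i then [] else if k = j then mark l.reverse ++ s j else s k) := by
    intro l
    induction l with
    | nil =>
      intro s hs
      have : (fun k => if k = i then [] else if k = j then mark ([] : Str).reverse ++ s j else s k)
          = s := by
        funext k
        split_ifs with ha hb
        · rw [ha, hs]
        · rw [hb]; simp [mark]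
        · rfl
      rw [this]
      exact ExecLe.loop_nil hs
    | cons x l ih =>
      intro s hs
      set s1 : Store := fun k => if k = i then l else if k = j then true :: x :: s j else s k
        with hs1
      have e1 : ExecLe B (Cmd.branch i Cmd.skip
          (Cmd.seq (Cmd.pop i) (Cmd.seq (Cmd.push j false) (Cmd.push j true)))
          (Cmd.seq (Cmd.pop i) (Cmd.seq (Cmd.push j true) (Cmd.push j true)))) s 6 s1 := by
        refine ExecLe.branch_cons (b := x) (l := l) hs ?_
        have f1 : ExecLe B (Cmd.pop i) s 1 (fun k => if k = i then l else s k) :=
          le_pop B i s _ (by simp [hs]) (fun k hk => by simp [hk])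
        have f2 : ExecLe B (Cmd.push j x) (fun k => if k = i then l else s k) 1
            (fun k => if k = i then l else if k = j then x :: s j else s k) := by
          refine le_push B j x _ _ ?_ fun k hk => ?_
          · simp [hij.symm]
          · simp [hk]
        have f3 : ExecLe B (Cmd.push j true)
            (fun k => if k = i then l else if k = j then x :: s j else s k) 1 s1 := by
          refine le_push B j true _ _ ?_ fun k hk => ?_
          · simp [hs1, hij.symm]
          · simp [hs1, hk]
        cases x
        · exact f1.seq (f2.seq f3)
        · exact f1.seq (f2.seq f3)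
      have e2 := ih s1 (by simp [hs1])
      have e3 := ExecLe.loop_step (i := i) (by rw [hs]; simp) e1 e2
      have e4 : (fun k => if k = i then [] else if k = j then mark l.reverse ++ s1 j else s1 k) =
          (fun k => if k = i then [] else if k = j then mark (x :: l).reverse ++ s j else s k) := by
        funext k
        split_ifs with ha hb
        · rfl
        · simp [hs1, hij.symm, mark]
        · simp [hs1, ha, hb]
      rw [e4] at e3
      exact e3.mono (by simp only [List.length_cons]; omega)
  have h0 := key (s i) s rfl
  have : s' = (fun k => if k = i then [] else if k = j then mark (s i).reverse ++ s j else s k) := by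
    funext k
    split_ifs with ha hb
    · rw [ha, h1]
    · rw [hb, h2]
    · exact h3 k ha hb
  rw [this]
  exact h0

end Pool.RO
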