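import Pool.Agent.Work.MP_cb380d_ro.Prim

/-! Programs which read oracle bits. -/

set_option autoImplicit false

open Classical

namespace Pool.RO

open Pool.IC

theorem ad_succ (i : ℕ) (x : Str) : ad (i + 1) x = false :: ad i x := rfl

theorem ad_zero (x : Str) : ad 0 x = true :: x := rfl

/-- Read one bit: ask stack 4, push the answer on stack `k`, push `false` on stack 4. -/
def rb (k : ℕ) : Cmd :=
  Cmd.seq (Cmd.ask 4 (Cmd.push k true) (Cmd.push k false)) (Cmd.push 4 false)

/-- The store with stack 4 and stack `k` changed. -/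
def put2 (s : Store) (k : ℕ) (a b : Str) : Store := fun j =>
  if j = 4 then a else if j = k then b else s j

theorem put2_4 (s : Store) (k : ℕ) (a b : Str) : put2 s k a b 4 = a := by simp [put2]

theorem put2_k (s : Store) {k : ℕ} (hk : k ≠ 4) (a b : Str) : put2 s k a b k = b := by
  simp [put2, hk]

theorem rb_run (w : Om) {k : ℕ} (hk : k ≠ 4) (s : Store) (x : Str) (a : ℕ) :
    ExecLe (orc w) (rb k) (put2 s k (ad a x) (rd w x a)) 4
      (put2 s k (ad (a + 1) x) (rd w x (a + 1))) := by
  have h2 : ExecLe (orc w) (Cmd.push 4 false) (put2 s k (ad a x) (rd w x (a + 1))) 1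
      (put2 s k (ad (a + 1) x) (rd w x (a + 1))) := by
    refine le_push _ _ _ _ _ ?_ fun j hj => ?_
    · rw [put2_4, put2_4, ad_succ]
    · simp [put2, hj]
  have h1 : ∀ b : Bool, w (ad a x) = b → ExecLe (orc w) (Cmd.push k b)
      (put2 s k (ad a x) (rd w x a)) 1 (put2 s k (ad a x) (rd w x (a + 1))) := by
    intro b hb
    refine le_push _ _ _ _ _ ?_ fun j hj => ?_
    · rw [put2_k s hk, put2_k s hk, rd, hb]
    · simp [put2, hj]
  have h3 : ExecLe (orc w) (Cmd.ask 4 (Cmd.push k true) (Cmd.push k false))
      (put2 s k (ad a x) (rd w x a)) 2 (put2 s k (ad a x) (rd w x (a + 1))) := by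
    by_cases h : w (ad a x) = true
    · exact ExecLe.ask_yes (by rw [put2_4]; exact h) (h1 true h)
    · refine ExecLe.ask_no (by rw [put2_4]; exact h) (h1 false ?_)
      simpa using h
  exact (h3.seq h2)

/-- Read as many bits as stack `c` has. -/
def rdl (c k : ℕ) : Cmd := Cmd.loop c (Cmd.seq (Cmd.pop c) (rb k))

/-- Read three times as many bits as stack `c` has. -/
def rdl3 (c k : ℕ) : Cmd :=
  Cmd.loop c (Cmd.seq (Cmd.pop c) (Cmd.seq (rb k) (Cmd.seq (rb k) (rb k))))

theorem rdl_run (w : Om) {c k : ℕ} (hk : k ≠ 4) (hc : c ≠ 4) (hck : c ≠ k) (s s' : Store) (x : Str)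
    (h4 : s 4 = true :: x) (hk0 : s k = []) (h1 : s' c = [])
    (h2 : s' 4 = ad (s c).length x) (h3 : s' k = rd w x (s c).length)
    (h5 : ∀ j, j ≠ c → j ≠ 4 → j ≠ k → s' j = s j) :
    ExecLe (orc w) (rdl c k) s (7 * (s c).length + 1) s' := by
  set S : ℕ → Store := fun a => put2 (fun j => if j = c then (s c).drop a else s j) k (ad a x)
    (rd w x a) with hS
  have e0 : S 0 = s := by
    funext j
    simp only [hS, put2]
    by_cases a1 : j = 4
    · rw [if_pos a1, a1, h4, ad_zero]
    · rw [if_neg a1]
      by_cases a2 : j = k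
      · rw [if_pos a2, a2, hk0]; rfl
      · rw [if_neg a2]
        by_cases a3 : j = c
        · rw [if_pos a3, a3]; rfl
        · rw [if_neg a3]
  have e1 : S (s c).length = s' := by
    funext j
    simp only [hS, put2]
    by_cases a1 : j = 4
    · rw [if_pos a1, a1, h2]
    · rw [if_neg a1]
      by_cases a2 : j = k
      · rw [if_pos a2, a2, h3]
      · rw [if_neg a2]
        by_cases a3 : j = c
        · rw [if_pos a3, a3, h1, List.drop_length]
        · rw [if_neg a3, h5 j a3 a1 a2]
  have e2 : ∀ a < (s c).length, S a c ≠ [] ∧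
      ExecLe (orc w) (Cmd.seq (Cmd.pop c) (rb k)) (S a) 6 (S (a + 1)) := by
    intro a ha
    have hSc : ∀ a, S a c = (s c).drop a := by
      intro a
      simp [hS, put2, hc, hck]
    refine ⟨?_, ?_⟩
    · rw [hSc]
      intro h
      have := congrArg List.length h
      simp only [List.length_drop, List.length_nil] at this
      omega
    · have f1 : ExecLe (orc w) (Cmd.pop c) (S a) 1
          (put2 (fun j => if j = c then (s c).drop (a + 1) else s j) k (ad a x) (rd w x a)) := by
        refine le_pop _ _ _ _ ?_ fun j hj => ?_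
        · rw [hSc, List.tail_drop]
          simp [put2, hc, hck]
        · simp [hS, put2, hj]
      exact f1.seq (rb_run w hk _ x a)
  have := loop_run S (s c).length 6 e2 (by rw [e1]; exact h1)
  rw [e0, e1] at this
  exact this.mono (by omega)

theorem rdl3_run (w : Om) {c k : ℕ} (hk : k ≠ 4) (hc : c ≠ 4) (hck : c ≠ k) (s s' : Store)
    (x : Str) (h4 : s 4 = true :: x) (hk0 : s k = []) (h1 : s' c = [])
    (h2 : s' 4 = ad (3 * (s c).length) x) (h3 : s' k = rd w x (3 * (s c).length))
    (h5 : ∀ j, j ≠ c → j ≠ 4 → j ≠ k → s' j = s j) :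
    ExecLe (orc w) (rdl3 c k) s (17 * (s c).length + 1) s' := by
  set S : ℕ → Store := fun a => put2 (fun j => if j = c then (s c).drop a else s j) k
    (ad (3 * a) x) (rd w x (3 * a)) with hS
  have e0 : S 0 = s := by
    funext j
    simp only [hS, put2]
    by_cases a1 : j = 4
    · rw [if_pos a1, a1, h4, Nat.mul_zero, ad_zero]
    · rw [if_neg a1]
      by_cases a2 : j = k
      · rw [if_pos a2, a2, hk0]; rfl
      · rw [if_neg a2]
        by_cases a3 : j = c
        · rw [if_pos a3, a3]; rfl
        · rw [if_neg a3]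
  have e1 : S (s c).length = s' := by
    funext j
    simp only [hS, put2]
    by_cases a1 : j = 4
    · rw [if_pos a1, a1, h2]
    · rw [if_neg a1]
      by_cases a2 : j = k
      · rw [if_pos a2, a2, h3]
      · rw [if_neg a2]
        by_cases a3 : j = c
        · rw [if_pos a3, a3, h1, List.drop_length]
        · rw [if_neg a3, h5 j a3 a1 a2]
  have e2 : ∀ a < (s c).length, S a c ≠ [] ∧
      ExecLe (orc w) (Cmd.seq (Cmd.pop c) (Cmd.seq (rb k) (Cmd.seq (rb k) (rb k)))) (S a) 16
        (S (a + 1)) := by
    intro a ha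
    have hSc : ∀ a, S a c = (s c).drop a := by
      intro a
      simp [hS, put2, hc, hck]
    refine ⟨?_, ?_⟩
    · rw [hSc]
      intro h
      have := congrArg List.length h
      simp only [List.length_drop, List.length_nil] at this
      omega
    · have f1 : ExecLe (orc w) (Cmd.pop c) (S a) 1
          (put2 (fun j => if j = c then (s c).drop (a + 1) else s j) k (ad (3 * a) x)
            (rd w x (3 * a))) := by
        refine le_pop _ _ _ _ ?_ fun j hj => ?_
        · rw [hSc, List.tail_drop]
          simp [put2, hc, hck]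
        · simp [hS, put2, hj]
      have := f1.seq ((rb_run w hk _ x (3 * a)).seq ((rb_run w hk _ x (3 * a + 1)).seq
        (rb_run w hk _ x (3 * a + 1 + 1))))
      exact this
  have := loop_run S (s c).length 16 e2 (by rw [e1]; exact h1)
  rw [e0, e1] at this
  exact this.mono (by omega)

/-- The hiding function: from `x` on stack 4 compute `Fh w x` on stack `k`, clear stack 4
(stacks 5 and 6 are used). -/
def hidP (k : ℕ) : Cmd :=
  Cmd.seq (mv 4 5) (Cmd.seq (dp 5 4 6) (Cmd.seq (Cmd.push 4 true) (Cmd.seq (rdl3 6 k) (clr 4))))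

theorem hidP_run (w : Om) {k : ℕ} (hk4 : k ≠ 4) (hk6 : k ≠ 6) (s s' : Store)
    (hk0 : s k = []) (h05 : s 5 = []) (h06 : s 6 = [])
    (h4 : s' 4 = []) (h5 : s' k = Fh w (s 4)) (h6 : ∀ j, j ≠ 4 → j ≠ k → s' j = s j) :
    ExecLe (orc w) (hidP k) s (40 * (s 4).length + 20) s' := by
  obtain ⟨x, hx⟩ : ∃ x, s 4 = x := ⟨_, rfl⟩
  have e1 : ExecLe (orc w) (mv 4 5) s (5 * (s 4).length + 1)
      (fun j => if j = 4 then [] else if j = 5 then x.reverse else s j) := by
    refine mv_run _ (by norm_num) _ _ (by simp) ?_ fun j h1 h2 => by simp [h1, h2]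
    simp [h05, hx]
  have e2 : ExecLe (orc w) (dp 5 4 6)
      (fun j => if j = 4 then [] else if j = 5 then x.reverse else s j) (7 * x.length + 1)
      (fun j => if j = 4 then x else if j = 6 then x else s j) := by
    have := dp_run (orc w) (i := 5) (j := 4) (k := 6) (by norm_num) (by norm_num) (by norm_num)
      (fun j => if j = 4 then [] else if j = 5 then x.reverse else s j)
      (fun j => if j = 4 then x else if j = 6 then x else s j) (by simp [h05]) (by simp)
      (by simp [h06]) (fun j h1 h2 h3 => by simp [h1, h2, h3])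
    simpa using this
  have e3 : ExecLe (orc w) (Cmd.push 4 true)
      (fun j => if j = 4 then x else if j = 6 then x else s j) 1
      (fun j => if j = 4 then true :: x else if j = 6 then x else s j) :=
    le_push _ _ _ _ _ (by simp) fun j h1 => by simp [h1]
  have e4 : ExecLe (orc w) (rdl3 6 k)
      (fun j => if j = 4 then true :: x else if j = 6 then x else s j) (17 * x.length + 1)
      (fun j => if j = 4 then ad (3 * x.length) x else if j = k then rd w x (3 * x.length)
        else s j) := by
    have := rdl3_run w (c := 6) (k := k) hk4 (by norm_num) hk6.symm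
      (fun j => if j = 4 then true :: x else if j = 6 then x else s j)
      (fun j => if j = 4 then ad (3 * x.length) x else if j = k then rd w x (3 * x.length)
        else s j) x (by simp) (by simp [hk4, hk6, hk0]) (by simp [h06, hk6.symm])
      (by simp) (by simp [hk4]) (fun j h1 h2 h3 => by simp [h1, h2, h3])
    simpa using this
  have e5 : ExecLe (orc w) (clr 4)
      (fun j => if j = 4 then ad (3 * x.length) x else if j = k then rd w x (3 * x.length)
        else s j) (2 * (4 * x.length + 1) + 1) s' := by
    have := clr_run (orc w) (i := 4)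
      (fun j => if j = 4 then ad (3 * x.length) x else if j = k then rd w x (3 * x.length)
        else s j) s' h4 (fun j h1 => by
          by_cases h2 : j = k
          · rw [h2, h5, hx]; simp [hk4, Fh]
          · rw [h6 j h1 h2]; simp [h1, h2])
    refine this.mono ?_
    simp only [if_true, ad, List.length_append, List.length_replicate, List.length_cons]
    omega
  exact (e1.seq (e2.seq (e3.seq (e4.seq e5)))).mono (by rw [hx]; omega)

end Pool.RO
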