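import Pool.Agent.Work.MP_cb380d_ro.Read

/-! Unary arithmetic: squares and the stage function. -/

set_option autoImplicit false

open Classical

namespace Pool.RO

open Pool.IC

theorem un_rev (n : ℕ) : (un n).reverse = un n := List.reverse_replicate ..

theorem un_app (a b : ℕ) : un a ++ un b = un (a + b) := (List.replicate_add ..).symm

theorem un_tail (a : ℕ) : (un a).tail = un (a - 1) := List.tail_replicate ..

theorem un_len (a : ℕ) : (un a).length = a := List.length_replicate ..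

/-- Stacks 0, 1, 5, 6, 7 hold unary numbers. -/
def us (s : Store) (t a b c d : ℕ) : Store := fun j =>
  if j = 0 then un t else if j = 1 then un a else if j = 5 then un b else
  if j = 6 then un c else if j = 7 then un d else s j

theorem us0 (s : Store) (t a b c d : ℕ) : us s t a b c d 0 = un t := by simp [us]
theorem us1 (s : Store) (t a b c d : ℕ) : us s t a b c d 1 = un a := by simp [us]
theorem us5 (s : Store) (t a b c d : ℕ) : us s t a b c d 5 = un b := by simp [us]
theorem us6 (s : Store) (t a b c d : ℕ) : us s t a b c d 6 = un c := by simp [us]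
theorem us7 (s : Store) (t a b c d : ℕ) : us s t a b c d 7 = un d := by simp [us]

/-- The square of the unary number on stack 1. -/
def sqP : Cmd :=
  Cmd.seq (mv 1 5) (Cmd.seq (dp 5 1 6) (Cmd.seq
    (Cmd.loop 6 (Cmd.seq (Cmd.pop 6) (Cmd.seq (dp 1 5 7) (mv 5 1))))
    (Cmd.seq (clr 1) (mv 7 1))))

theorem sqP_run (B : Set Str) (s : Store) (t n : ℕ) :
    ExecLe B sqP (us s t n 0 0 0) (60 * (n + 1) ^ 2) (us s t (n * n) 0 0 0) := by
  have e1 : ExecLe B (mv 1 5) (us s t n 0 0 0) (5 * n + 1) (us s t 0 n 0 0) := by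
    have := mv_run B (i := 1) (j := 5) (by norm_num) (us s t n 0 0 0) (us s t 0 n 0 0)
      (by rw [us1]; rfl) (by rw [us5, us5, us1, un_rev, un_app]; rfl)
      (fun k h1 h2 => by simp [us, h1, h2])
    rwa [us1, un_len] at this
  have e2 : ExecLe B (dp 5 1 6) (us s t 0 n 0 0) (7 * n + 1) (us s t n 0 n 0) := by
    have := dp_run B (i := 5) (j := 1) (k := 6) (by norm_num) (by norm_num) (by norm_num)
      (us s t 0 n 0 0) (us s t n 0 n 0)
      (by rw [us5]; rfl) (by rw [us1, us1, us5, un_rev, un_app]; rfl)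
      (by rw [us6, us6, us5, un_rev, un_app]; rfl)
      (fun k h1 h2 h3 => by simp [us, h1, h2, h3])
    rwa [us5, un_len] at this
  have e3 : ExecLe B (Cmd.loop 6 (Cmd.seq (Cmd.pop 6) (Cmd.seq (dp 1 5 7) (mv 5 1))))
      (us s t n 0 n 0) (n * ((12 * n + 6) + 1) + 1) (us s t n 0 0 (n * n)) := by
    have := loop_run (B := B) (i := 6) (c := Cmd.seq (Cmd.pop 6) (Cmd.seq (dp 1 5 7) (mv 5 1)))
      (fun a => us s t n 0 (n - a) (n * a)) n (12 * n + 6) (fun a ha => ⟨?_, ?_⟩) ?_
    · simpa using this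
    · rw [us6]
      intro h
      have := congrArg List.length h
      rw [un_len, List.length_nil] at this
      omega
    · have f1 : ExecLe B (Cmd.pop 6) (us s t n 0 (n - a) (n * a)) 1
          (us s t n 0 (n - (a + 1)) (n * a)) := by
        refine le_pop _ _ _ _ ?_ fun k hk => ?_
        · rw [us6, us6, un_tail, Nat.sub_sub]
        · simp [us, hk]
      have f2 : ExecLe B (dp 1 5 7) (us s t n 0 (n - (a + 1)) (n * a)) (7 * n + 1)
          (us s t 0 n (n - (a + 1)) (n * (a + 1))) := by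
        have := dp_run B (i := 1) (j := 5) (k := 7) (by norm_num) (by norm_num) (by norm_num)
          (us s t n 0 (n - (a + 1)) (n * a)) (us s t 0 n (n - (a + 1)) (n * (a + 1)))
          (by rw [us1]; rfl) (by rw [us5, us5, us1, un_rev, un_app]; rfl)
          (by rw [us7, us7, us1, un_rev, un_app]; congr 1; ring)
          (fun k h1 h2 h3 => by simp [us, h1, h2, h3])
        rwa [us1, un_len] at this
      have f3 : ExecLe B (mv 5 1) (us s t 0 n (n - (a + 1)) (n * (a + 1))) (5 * n + 1)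
          (us s t n 0 (n - (a + 1)) (n * (a + 1))) := by
        have := mv_run B (i := 5) (j := 1) (by norm_num)
          (us s t 0 n (n - (a + 1)) (n * (a + 1))) (us s t n 0 (n - (a + 1)) (n * (a + 1)))
          (by rw [us5]; rfl) (by rw [us1, us1, us5, un_rev, un_app]; rfl)
          (fun k h1 h2 => by simp [us, h1, h2])
        rwa [us5, un_len] at this
      exact (f1.seq (f2.seq f3)).mono (by omega)
    · rw [us6]
      simp
  have e4 : ExecLe B (clr 1) (us s t n 0 0 (n * n)) (2 * n + 1) (us s t 0 0 0 (n * n)) := by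
    have := clr_run B (i := 1) (us s t n 0 0 (n * n)) (us s t 0 0 0 (n * n))
      (by rw [us1]; rfl) (fun k h1 => by simp [us, h1])
    rwa [us1, un_len] at this
  have e5 : ExecLe B (mv 7 1) (us s t 0 0 0 (n * n)) (5 * (n * n) + 1) (us s t (n * n) 0 0 0) := by
    have := mv_run B (i := 7) (j := 1) (by norm_num) (us s t 0 0 0 (n * n))
      (us s t (n * n) 0 0 0)
      (by rw [us7]; rfl) (by rw [us1, us1, us7, un_rev, un_app]; rfl)
      (fun k h1 h2 => by simp [us, h1, h2])
    rwa [us7, un_len] at this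
  exact (e1.seq (e2.seq (e3.seq (e4.seq e5)))).mono (by nlinarith)

/-- Repeated squares. -/
def sqN : ℕ → Cmd
  | 0 => Cmd.skip
  | k + 1 => Cmd.seq sqP (sqN k)

theorem sqN_run (B : Set Str) (s : Store) (t k : ℕ) : ∀ n : ℕ,
    ExecLe B (sqN k) (us s t n 0 0 0) (61 * (k + 1) * (n ^ 2 ^ k + 1) ^ 2)
      (us s t (n ^ 2 ^ k) 0 0 0) := by
  induction k with
  | zero =>
    intro n
    simp only [pow_zero, pow_one]
    have h1 : 1 ≤ (n + 1) ^ 2 := Nat.one_le_pow _ _ (by omega)
    exact (le_skip B _).mono (by omega)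
  | succ k ih =>
    intro n
    have h1 := (sqP_run B s t n).seq (ih (n * n))
    have h2 : (n * n) ^ 2 ^ k = n ^ 2 ^ (k + 1) := by
      rw [← pow_two, ← pow_mul, pow_succ, Nat.mul_comm 2]
    rw [h2] at h1
    refine h1.mono ?_
    have h3 : n ≤ n ^ 2 ^ (k + 1) := Nat.le_self_pow (by positivity) n
    have h4 : (n + 1) ^ 2 ≤ (n ^ 2 ^ (k + 1) + 1) ^ 2 := Nat.pow_le_pow_left (by omega) 2
    have h5 : 1 ≤ (n ^ 2 ^ (k + 1) + 1) ^ 2 := Nat.one_le_pow _ _ (by omega)
    nlinarith

/-- Subtract the number on stack 1 from the number on stack 0. -/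
def subP : Cmd :=
  Cmd.seq (Cmd.loop 1 (Cmd.seq (Cmd.pop 1) (Cmd.seq (Cmd.pop 0) (Cmd.push 5 true)))) (mv 5 1)

theorem subP_run (B : Set Str) (s : Store) (t n : ℕ) :
    ExecLe B subP (us s t n 0 0 0) (11 * n + 3) (us s (t - n) n 0 0 0) := by
  have e1 : ExecLe B (Cmd.loop 1 (Cmd.seq (Cmd.pop 1) (Cmd.seq (Cmd.pop 0) (Cmd.push 5 true))))
      (us s t n 0 0 0) (n * (5 + 1) + 1) (us s (t - n) 0 n 0 0) := by
    have := loop_run (B := B) (i := 1)
      (c := Cmd.seq (Cmd.pop 1) (Cmd.seq (Cmd.pop 0) (Cmd.push 5 true)))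
      (fun a => us s (t - a) (n - a) a 0 0) n 5 (fun a ha => ⟨?_, ?_⟩) ?_
    · simpa using this
    · rw [us1]
      intro h
      have := congrArg List.length h
      rw [un_len, List.length_nil] at this
      omega
    · have f1 : ExecLe B (Cmd.pop 1) (us s (t - a) (n - a) a 0 0) 1
          (us s (t - a) (n - (a + 1)) a 0 0) := by
        refine le_pop _ _ _ _ ?_ fun k hk => ?_
        · rw [us1, us1, un_tail, Nat.sub_sub]
        · simp [us, hk]
      have f2 : ExecLe B (Cmd.pop 0) (us s (t - a) (n - (a + 1)) a 0 0) 1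
          (us s (t - (a + 1)) (n - (a + 1)) a 0 0) := by
        refine le_pop _ _ _ _ ?_ fun k hk => ?_
        · rw [us0, us0, un_tail, Nat.sub_sub]
        · simp [us, hk]
      have f3 : ExecLe B (Cmd.push 5 true) (us s (t - (a + 1)) (n - (a + 1)) a 0 0) 1
          (us s (t - (a + 1)) (n - (a + 1)) (a + 1) 0 0) := by
        refine le_push _ _ _ _ _ ?_ fun k hk => ?_
        · rw [us5, us5]; rfl
        · simp [us, hk]
      exact f1.seq (f2.seq f3)
    · rw [us1]
      simp
  have e2 : ExecLe B (mv 5 1) (us s (t - n) 0 n 0 0) (5 * n + 1) (us s (t - n) n 0 0 0) := by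
    have := mv_run B (i := 5) (j := 1) (by norm_num)
      (us s (t - n) 0 n 0 0) (us s (t - n) n 0 0 0)
      (by rw [us5]; rfl) (by rw [us1, us1, us5, un_rev, un_app]; rfl)
      (fun k h1 h2 => by simp [us, h1, h2])
    rwa [us5, un_len] at this
  exact (e1.seq e2).mono (by omega)

/-- The stage loop. -/
def stP (κ : ℕ) : Cmd := Cmd.loop 0 (Cmd.seq subP (sqN κ))

theorem ns_zero (K : ℕ) : ns K 0 = 2 := by simp [ns]

theorem ns_succ (K j : ℕ) : ns K (j + 1) = ns K j ^ K := by
  unfold ns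
  rw [← pow_mul, pow_succ]

theorem ns_mono {K : ℕ} (hK : 1 ≤ K) {i j : ℕ} (h : i ≤ j) : ns K i ≤ ns K j :=
  Nat.pow_le_pow_right (by norm_num) (Nat.pow_le_pow_right hK h)

theorem stP_run (hJ : Stmt_JJF) (B : Set Str) (s : Store) (t κ : ℕ) (hκ : 1 ≤ κ) :
    ExecLe B (stP κ) (us s t 2 0 0 0)
      (100 * (κ + 2) * (ns (2 ^ κ) (jj (2 ^ κ) t) + 1) ^ 3)
      (us s 0 (ns (2 ^ κ) (jj (2 ^ κ) t)) 0 0 0) := by
  have hK : 2 ≤ 2 ^ κ := by
    calc 2 = 2 ^ 1 := rfl
      _ ≤ 2 ^ κ := Nat.pow_le_pow_right (by norm_num) hκ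
  obtain ⟨h1, h2, -, -, -, -⟩ := hJ (2 ^ κ) t hK
  set K := 2 ^ κ with hKdef
  set J := jj K t with hJdef
  set X := ns K J with hX
  have hX1 : J + 1 ≤ X := by
    have : J < ns K J := by
      unfold ns
      calc J < K ^ J := Nat.lt_pow_self (by omega)
        _ < 2 ^ K ^ J := Nat.lt_two_pow_self
    exact this
  have hbody : ∀ a < J, us s (t - ∑ i ∈ Finset.range a, ns K i) (ns K a) 0 0 0 0 ≠ [] ∧
      ExecLe B (Cmd.seq subP (sqN κ)) (us s (t - ∑ i ∈ Finset.range a, ns K i) (ns K a) 0 0 0)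
        (75 * (κ + 1) * (X + 1) ^ 2)
        (us s (t - ∑ i ∈ Finset.range (a + 1), ns K i) (ns K (a + 1)) 0 0 0) := by
    intro a ha
    refine ⟨?_, ?_⟩
    · rw [us0]
      intro h
      have := congrArg List.length h
      rw [un_len, List.length_nil] at this
      have := h2 a ha
      omega
    · have f1 := subP_run B s (t - ∑ i ∈ Finset.range a, ns K i) (ns K a)
      have f2 := sqN_run B s (t - ∑ i ∈ Finset.range a, ns K i - ns K a) κ (ns K a)
      have e : t - ∑ i ∈ Finset.range a, ns K i - ns K a =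
          t - ∑ i ∈ Finset.range (a + 1), ns K i := by
        rw [Finset.sum_range_succ, Nat.sub_sub]
      rw [e] at f1 f2
      rw [← hKdef, ← ns_succ] at f2
      refine (f1.seq f2).mono ?_
      have g1 : ns K a ≤ X := ns_mono (by omega) ha.le
      have g2 : ns K (a + 1) ≤ X := ns_mono (by omega) ha
      have g3 : (ns K (a + 1) + 1) ^ 2 ≤ (X + 1) ^ 2 := Nat.pow_le_pow_left (by omega) 2
      have g4 : 61 * (κ + 1) * (ns K (a + 1) + 1) ^ 2 ≤ 61 * (κ + 1) * (X + 1) ^ 2 :=
        Nat.mul_le_mul_left _ g3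
      nlinarith
  have := loop_run (B := B) (i := 0) (c := Cmd.seq subP (sqN κ))
    (fun a => us s (t - ∑ i ∈ Finset.range a, ns K i) (ns K a) 0 0 0) J
    (75 * (κ + 1) * (X + 1) ^ 2) hbody (by
      show us s (t - ∑ i ∈ Finset.range J, ns K i) (ns K J) 0 0 0 0 = []
      rw [us0, Nat.sub_eq_zero_of_le h1]; rfl)
  simp only [Finset.range_zero, Finset.sum_empty, Nat.sub_zero, ns_zero,
    Nat.sub_eq_zero_of_le h1] at this
  refine this.mono ?_
  have g5 : J * (75 * (κ + 1) * (X + 1) ^ 2 + 1) ≤ X * (75 * (κ + 1) * (X + 1) ^ 2 + 1) :=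
    Nat.mul_le_mul_right _ (by omega)
  calc J * (75 * (κ + 1) * (X + 1) ^ 2 + 1) + 1
      ≤ X * (75 * (κ + 1) * (X + 1) ^ 2 + 1) + 1 := by omega
    _ ≤ 100 * (κ + 2) * (X + 1) ^ 3 := by
      have e : 100 * (κ + 2) * (X + 1) ^ 3 = 75 * (κ + 1) * (X + 1) ^ 2 * X +
        (75 * (κ + 1) * (X + 1) ^ 2 + (25 * κ + 125) * (X + 1) ^ 3) := by ring
      have e2 : X + 1 ≤ (X + 1) ^ 3 := Nat.le_self_pow (by norm_num) _
      rw [e]
      nlinarith

end Pool.RO
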