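import Pool.Agent.Work.MP_cb380d_ro.Read

/-! Programs for the verifier: parsing and comparing. -/

set_option autoImplicit false

open Classical

namespace Pool.RO

open Pool.IC

/-- An explicit store. -/
def st2 (a1 a2 a4 a5 a6 a7 a8 a9 a10 a11 a12 : Str) : Store
  | 1 => a1
  | 2 => a2
  | 4 => a4
  | 5 => a5
  | 6 => a6
  | 7 => a7
  | 8 => a8
  | 9 => a9
  | 10 => a10
  | 11 => a11
  | 12 => a12
  | _ => []

theorem init_st2 (y z : Str) : init [] y z = st2 y z [] [] [] [] [] [] [] [] [] := by
  funext k
  rcases k with _ | _ | _ | _ | _ | _ | _ | _ | _ | _ | _ | _ | _ | k <;> simp [init, st2]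

/-- Decode a marked string; the rest is the second component. -/
def dec : Str → Str × Str
  | true :: b :: t => (b :: (dec t).1, (dec t).2)
  | false :: t => ([], t)
  | [true] => ([], [])
  | [] => ([], [])

theorem dec_mark (u t : Str) : dec (mark u ++ false :: t) = (u, t) := by
  induction u with
  | nil => simp [mark, dec]
  | cons b u ih => rw [mark_cons]; simp [dec, ih]

theorem dec_len (W : Str) : W.length ≤ 2 * (dec W).1.length + 1 + (dec W).2.length ∧
    2 * (dec W).1.length + (dec W).2.length ≤ W.length := by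
  induction W using dec.induct with
  | case1 b t ih => simp only [dec, List.length_cons]; omega
  | case2 t => simp only [dec, List.length_cons, List.length_nil]; omega
  | case3 => simp [dec]
  | case4 => simp [dec]

/-- Parse stack 1; the decoded string is moved to stack `o` (reversed). Stack 12 is used. -/
def prB (o : ℕ) : Cmd :=
  Cmd.branch 1 (Cmd.pop 12) (Cmd.seq (Cmd.pop 1) (Cmd.pop 12))
    (Cmd.seq (Cmd.pop 1) (Cmd.branch 1 (Cmd.pop 12) (Cmd.seq (Cmd.pop 1) (Cmd.push o false))
      (Cmd.seq (Cmd.pop 1) (Cmd.push o true))))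

def prs (o : ℕ) : Cmd := Cmd.seq (Cmd.push 12 true) (Cmd.loop 12 (prB o))

/-- The store with the stacks 1, `o`, 12 changed. -/
def ps (s : Store) (o : ℕ) (a b c : Str) : Store := fun j =>
  if j = 1 then a else if j = o then b else if j = 12 then c else s j

theorem ps1 (s : Store) (o : ℕ) (a b c : Str) : ps s o a b c 1 = a := by simp [ps]

theorem pso (s : Store) {o : ℕ} (ho : o ≠ 1) (a b c : Str) : ps s o a b c o = b := by
  simp [ps, ho]

theorem ps12 (s : Store) {o : ℕ} (ho : o ≠ 12) (a b c : Str) : ps s o a b c 12 = c := by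
  simp [ps, ho.symm]

theorem prl_run (B : Set Str) (s : Store) {o : ℕ} (ho : o ≠ 1) (ho' : o ≠ 12) (W : Str) :
    ∀ b : Str, ExecLe B (Cmd.loop 12 (prB o)) (ps s o W b [true]) (8 * W.length + 8)
      (ps s o (dec W).2 ((dec W).1.reverse ++ b) []) := by
  have hp12 : ∀ a b : Str, ExecLe B (Cmd.pop 12) (ps s o a b [true]) 1 (ps s o a b []) := by
    intro a b
    refine le_pop _ _ _ _ ?_ fun k hk => ?_
    · rw [ps12 s ho', ps12 s ho']; rfl
    · simp [ps, hk]
  have hp1 : ∀ (x : Bool) (a b c : Str), ExecLe B (Cmd.pop 1) (ps s o (x :: a) b c) 1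
      (ps s o a b c) := by
    intro x a b c
    refine le_pop _ _ _ _ ?_ fun k hk => ?_
    · rw [ps1, ps1]; rfl
    · simp [ps, hk]
  have hps : ∀ (x : Bool) (a b c : Str), ExecLe B (Cmd.push o x) (ps s o a b c) 1
      (ps s o a (x :: b) c) := by
    intro x a b c
    refine le_push _ _ _ _ _ ?_ fun k hk => ?_
    · rw [pso s ho, pso s ho]
    · simp [ps, hk]
  have hne : ∀ a b : Str, ps s o a b [true] 12 ≠ [] := by
    intro a b; rw [ps12 s ho']; simp
  have hend : ∀ a b : Str, ExecLe B (Cmd.loop 12 (prB o)) (ps s o a b []) 1 (ps s o a b []) := by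
    intro a b
    exact ExecLe.loop_nil (ps12 s ho' _ _ _)
  induction W using dec.induct with
  | case1 x t ih =>
    intro b
    have h1 : ExecLe B (prB o) (ps s o (true :: x :: t) b [true]) 7
        (ps s o t (x :: b) [true]) := by
      unfold prB
      refine (ExecLe.branch_cons (b := true) (l := x :: t) (ps1 ..) (n := 6) ?_)
      have f1 : ExecLe B (Cmd.branch 1 (Cmd.pop 12) (Cmd.seq (Cmd.pop 1) (Cmd.push o false))
          (Cmd.seq (Cmd.pop 1) (Cmd.push o true))) (ps s o (x :: t) b [true]) 4
          (ps s o t (x :: b) [true]) := by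
        refine ExecLe.branch_cons (b := x) (l := t) (ps1 ..) ?_
        cases x
        · exact (hp1 _ _ _ _).seq (hps _ _ _ _)
        · exact (hp1 _ _ _ _).seq (hps _ _ _ _)
      exact (hp1 _ _ _ _).seq f1
    have h2 := ExecLe.loop_step (i := 12) (hne _ _) h1 (ih (x :: b))
    have e : (dec t).1.reverse ++ x :: b = (dec (true :: x :: t)).1.reverse ++ b := by
      simp [dec]
    rw [e] at h2
    exact h2.mono (by simp only [List.length_cons]; omega)
  | case2 t =>
    intro b
    have h1 : ExecLe B (prB o) (ps s o (false :: t) b [true]) 4 (ps s o t b []) := by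
      unfold prB
      refine (ExecLe.branch_cons (b := false) (l := t) (ps1 ..) (n := 3) ?_)
      exact (hp1 _ _ _ _).seq (hp12 _ _)
    have h2 := ExecLe.loop_step (i := 12) (hne _ _) h1 (hend _ _)
    simp only [dec, List.reverse_nil, List.nil_append]
    exact h2.mono (by simp only [List.length_cons]; omega)
  | case3 =>
    intro b
    have h1 : ExecLe B (prB o) (ps s o [true] b [true]) 5 (ps s o [] b []) := by
      unfold prB
      refine (ExecLe.branch_cons (b := true) (l := []) (ps1 ..) (n := 4) ?_)
      have f1 : ExecLe B (Cmd.branch 1 (Cmd.pop 12) (Cmd.seq (Cmd.pop 1) (Cmd.push o false))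
          (Cmd.seq (Cmd.pop 1) (Cmd.push o true))) (ps s o [] b [true]) 2 (ps s o [] b []) :=
        ExecLe.branch_nil (ps1 ..) (hp12 _ _)
      exact (hp1 _ _ _ _).seq f1
    have h2 := ExecLe.loop_step (i := 12) (hne _ _) h1 (hend _ _)
    simp only [dec, List.reverse_nil, List.nil_append]
    exact h2.mono (by simp)
  | case4 =>
    intro b
    have h1 : ExecLe B (prB o) (ps s o [] b [true]) 2 (ps s o [] b []) := by
      unfold prB
      exact ExecLe.branch_nil (ps1 ..) (hp12 _ _)
    have h2 := ExecLe.loop_step (i := 12) (hne _ _) h1 (hend _ _)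
    simp only [dec, List.reverse_nil, List.nil_append]
    exact h2.mono (by simp)

theorem prs_run (B : Set Str) {o : ℕ} (ho : o ≠ 1) (ho' : o ≠ 12) (s s' : Store)
    (h12 : s 12 = []) (h1 : s' 1 = (dec (s 1)).2) (h2 : s' o = (dec (s 1)).1.reverse ++ s o)
    (h3 : ∀ k, k ≠ 1 → k ≠ o → s' k = s k) :
    ExecLe B (prs o) s (8 * (s 1).length + 10) s' := by
  have e1 : ExecLe B (Cmd.push 12 true) s 1 (ps s o (s 1) (s o) [true]) := by
    refine le_push _ _ _ _ _ ?_ fun k hk => ?_
    · rw [ps12 s ho', h12]
    · by_cases a1 : k = 1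
      · rw [a1, ps1]
      · by_cases a2 : k = o
        · rw [a2, pso s ho]
        · simp [ps, a1, a2, hk]
  have e2 := prl_run B s ho ho' (s 1) (s o)
  have e3 : ps s o (dec (s 1)).2 ((dec (s 1)).1.reverse ++ s o) [] = s' := by
    funext k
    by_cases a1 : k = 1
    · rw [a1, ps1, h1]
    · by_cases a2 : k = o
      · rw [a2, pso s ho, h2]
      · by_cases a3 : k = 12
        · rw [a3, ps12 s ho', h3 12 (by norm_num) ho'.symm, h12]
        · rw [h3 k a1 a2]
          simp [ps, a1, a2, a3]
  rw [e3] at e2
  exact (e1.seq e2).mono (by omega)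

/-! ### Comparing -/

/-- Body of the comparison of stack 2 with stack 8; the flag is on stack 9. -/
def cmB : Cmd :=
  Cmd.branch 2 Cmd.skip
    (Cmd.seq (Cmd.pop 2) (Cmd.branch 8 (Cmd.pop 9) (Cmd.pop 8) (Cmd.seq (Cmd.pop 8) (Cmd.pop 9))))
    (Cmd.seq (Cmd.pop 2) (Cmd.branch 8 (Cmd.pop 9) (Cmd.seq (Cmd.pop 8) (Cmd.pop 9)) (Cmd.pop 8)))

def cmp : Cmd :=
  Cmd.seq (Cmd.push 9 true) (Cmd.seq (Cmd.loop 2 cmB)
    (Cmd.branch 8 Cmd.skip (Cmd.seq (clr 8) (Cmd.pop 9)) (Cmd.seq (clr 8) (Cmd.pop 9))))

/-- The flag. -/
def fl (f : Bool) : Str := if f = true then [true] else []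

def cs (s : Store) (a b c : Str) : Store := fun j =>
  if j = 2 then a else if j = 8 then b else if j = 9 then c else s j

theorem cs2 (s : Store) (a b c : Str) : cs s a b c 2 = a := by simp [cs]
theorem cs8 (s : Store) (a b c : Str) : cs s a b c 8 = b := by simp [cs]
theorem cs9 (s : Store) (a b c : Str) : cs s a b c 9 = c := by simp [cs]

theorem cml_run (B : Set Str) (s : Store) (a : Str) : ∀ (b : Str) (f : Bool),
    ExecLe B (Cmd.loop 2 cmB) (cs s a b (fl f)) (10 * a.length + 1)
      (cs s [] (b.drop a.length) (fl (f && decide (b.take a.length = a)))) := by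
  have hp9 : ∀ (a b : Str) (f : Bool), ExecLe B (Cmd.pop 9) (cs s a b (fl f)) 1
      (cs s a b (fl false)) := by
    intro a b f
    refine le_pop _ _ _ _ ?_ fun k hk => ?_
    · rw [cs9, cs9]; cases f <;> rfl
    · simp [cs, hk]
  have hp8 : ∀ (x : Bool) (a b c : Str), ExecLe B (Cmd.pop 8) (cs s a (x :: b) c) 1
      (cs s a b c) := by
    intro x a b c
    refine le_pop _ _ _ _ ?_ fun k hk => ?_
    · rw [cs8, cs8]; rfl
    · simp [cs, hk]
  have hp2 : ∀ (x : Bool) (a b c : Str), ExecLe B (Cmd.pop 2) (cs s (x :: a) b c) 1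
      (cs s a b c) := by
    intro x a b c
    refine le_pop _ _ _ _ ?_ fun k hk => ?_
    · rw [cs2, cs2]; rfl
    · simp [cs, hk]
  induction a with
  | nil =>
    intro b f
    have : (f && decide (b.take ([] : Str).length = [])) = f := by simp
    rw [this]
    exact ExecLe.loop_nil (cs2 ..)
  | cons x a ih =>
    intro b f
    cases b with
    | nil =>
      have h1 : ExecLe B cmB (cs s (x :: a) [] (fl f)) 6 (cs s a [] (fl false)) := by
        unfold cmB
        refine ExecLe.branch_cons (b := x) (l := a) (cs2 ..) (n := 5) ?_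
        cases x
        · exact (((hp2 _ _ _ _).seq (ExecLe.branch_nil (cs8 ..) (hp9 _ _ _)))).mono (by omega)
        · exact (((hp2 _ _ _ _).seq (ExecLe.branch_nil (cs8 ..) (hp9 _ _ _)))).mono (by omega)
      have h2 := ExecLe.loop_step (i := 2) (by rw [cs2]; simp) h1 (ih [] false)
      have e : (false && decide (([] : Str).take a.length = a)) =
          (f && decide (([] : Str).take (x :: a).length = x :: a)) := by simp
      rw [e] at h2
      simp only [List.drop_nil] at h2 ⊢
      exact h2.mono (by simp only [List.length_cons]; omega)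
    | cons y b =>
      have h1 : ExecLe B cmB (cs s (x :: a) (y :: b) (fl f)) 8
          (cs s a b (fl (f && decide (y = x)))) := by
        unfold cmB
        refine ExecLe.branch_cons (b := x) (l := a) (cs2 ..) (n := 7) ?_
        cases x <;> cases y
        · have : (f && decide (false = false)) = f := by simp
          rw [this]
          exact ((hp2 _ _ _ _).seq (ExecLe.branch_cons (b := false) (cs8 ..) (hp8 _ _ _ _))).mono
            (by omega)
        · have : (f && decide (true = false)) = false := by simp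
          rw [this]
          exact ((hp2 _ _ _ _).seq (ExecLe.branch_cons (b := true) (cs8 ..)
            ((hp8 _ _ _ _).seq (hp9 _ _ _)))).mono (by omega)
        · have : (f && decide (false = true)) = false := by simp
          rw [this]
          exact ((hp2 _ _ _ _).seq (ExecLe.branch_cons (b := false) (cs8 ..)
            ((hp8 _ _ _ _).seq (hp9 _ _ _)))).mono (by omega)
        · have : (f && decide (true = true)) = f := by simp
          rw [this]
          exact ((hp2 _ _ _ _).seq (ExecLe.branch_cons (b := true) (cs8 ..) (hp8 _ _ _ _))).mono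
            (by omega)
      have h2 := ExecLe.loop_step (i := 2) (by rw [cs2]; simp) h1 (ih b (f && decide (y = x)))
      have e : (f && decide (y = x) && decide (b.take a.length = a)) =
          (f && decide ((y :: b).take (x :: a).length = x :: a)) := by
        simp [Bool.and_assoc]
      rw [e] at h2
      exact h2.mono (by simp only [List.length_cons]; omega)

theorem cmp_run (B : Set Str) (s s' : Store) (h9 : s 9 = []) (h1 : s' 2 = []) (h2 : s' 8 = [])
    (h3 : s' 9 = fl (decide (s 8 = s 2)))
    (h4 : ∀ k, k ≠ 2 → k ≠ 8 → k ≠ 9 → s' k = s k) :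
    ExecLe B cmp s (10 * (s 2).length + 2 * (s 8).length + 10) s' := by
  have e1 : ExecLe B (Cmd.push 9 true) s 1 (cs s (s 2) (s 8) (fl true)) := by
    refine le_push _ _ _ _ _ ?_ fun k hk => ?_
    · rw [cs9, h9]; rfl
    · by_cases a1 : k = 2
      · rw [a1, cs2]
      · by_cases a2 : k = 8
        · rw [a2, cs8]
        · simp [cs, a1, a2, hk]
  have e2 := cml_run B s (s 2) (s 8) true
  have hs' : ∀ f : Bool, f = decide (s 8 = s 2) → cs s [] [] (fl f) = s' := by
    intro f hf
    funext k
    by_cases a1 : k = 2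
    · rw [a1, cs2, h1]
    · by_cases a2 : k = 8
      · rw [a2, cs8, h2]
      · by_cases a3 : k = 9
        · rw [a3, cs9, h3, hf]
        · rw [h4 k a1 a2 a3]; simp [cs, a1, a2, a3]
  have e3 : ExecLe B (Cmd.branch 8 Cmd.skip (Cmd.seq (clr 8) (Cmd.pop 9))
      (Cmd.seq (clr 8) (Cmd.pop 9)))
      (cs s [] ((s 8).drop (s 2).length)
        (fl (true && decide ((s 8).take (s 2).length = s 2)))) (2 * (s 8).length + 5) s' := by
    rcases hd : (s 8).drop (s 2).length with _ | ⟨y, l⟩
    · have h5 : (s 8).take (s 2).length = s 8 := by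
        have := List.take_append_drop (s 2).length (s 8)
        rw [hd, List.append_nil] at this
        exact this
      rw [h5, Bool.true_and, hs' _ rfl]
      have : s' 8 = [] := h2
      exact (ExecLe.branch_nil this (le_skip B _)).mono (by omega)
    · have h5 : s 8 ≠ s 2 := by
        intro h
        rw [h, List.drop_length] at hd
        simp at hd
      have h6 : (decide (s 8 = s 2)) = false := by simp [h5]
      have f1 : ∀ f : Bool, ExecLe B (clr 8) (cs s [] (y :: l) (fl f)) (2 * (s 8).length + 1)
          (cs s [] [] (fl f)) := by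
        intro f
        have := clr_run B (i := 8) (cs s [] (y :: l) (fl f)) (cs s [] [] (fl f))
          (cs8 ..) (fun k hk => by simp [cs, hk])
        refine this.mono ?_
        rw [cs8, ← hd, List.length_drop]
        omega
      have f2 : ∀ f : Bool, ExecLe B (Cmd.pop 9) (cs s [] [] (fl f)) 1 s' := by
        intro f
        rw [← hs' false h6.symm]
        refine le_pop _ _ _ _ ?_ fun k hk => ?_
        · rw [cs9, cs9]; cases f <;> rfl
        · simp [cs, hk]
      refine (ExecLe.branch_cons (b := y) (l := l) (cs8 ..) ?_).mono (le_refl _)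
      cases y
      · exact ((f1 _).seq (f2 _)).mono (by omega)
      · exact ((f1 _).seq (f2 _)).mono (by omega)
  exact (e1.seq (e2.seq e3)).mono (by omega)

end Pool.RO
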